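import Pool.Agent.SFB.Targets

/-!
# SFB: Hall's condition gives a copy of the star forest (T_EMB)
-/

set_option autoImplicit false

open Finset

namespace Pool.Agent.SFB

open Pool.Agent.StarF (starForest ramsey)

namespace EMB_

/-- The two kinds of neighbourhoods have the same number of elements. -/
theorem card_le {V : Type} [Fintype V] [DecidableEq V] (G : SimpleGraph V) (c : ℕ → V)
    (J : Finset ℕ) (S T : Finset V) (hST : ∀ w, w ∈ T → w ∈ S) :
    (nc G c J \ S).card ≤ (StarF.nb G c J T).card := by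
  apply Finset.card_le_card
  intro w hw
  rw [StarF.mem_nb]
  rw [mem_sdiff, mem_nc] at hw
  obtain ⟨⟨t, ht, h1⟩, h2⟩ := hw
  exact ⟨fun h => h2 (hST w h), t, ht, mem_dg.1 h1⟩

end EMB_

theorem p_EMB : T_EMB := by
  intro V _ _ G k a c hinj hcard
  apply StarF.pack_full (c := c)
  refine ⟨hinj, fun J hJ hne => ?_⟩
  rw [Nat.sub_self, Nat.add_zero]
  refine (hcard J hJ hne).trans (EMB_.card_le G c J _ _ ?_)
  intro w hw
  obtain ⟨t, ht, h⟩ :=
    (@mem_image ℕ V (fun a b => Classical.propDecidable (a = b)) c (range k) w).1 hw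
  exact mem_image.2 ⟨t, ht, h⟩

end Pool.Agent.SFB
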