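import Pool.Agent.SFB.Targets

/-!
# SFB: CL1, classification of the neighbourhoods
-/

set_option autoImplicit false

open Finset

namespace Pool.Agent.SFB

open Pool.Agent.StarF (starForest ramsey)

namespace CL1_

variable {V : Type} [Fintype V] [DecidableEq V]

omit [Fintype V] [DecidableEq V] in
theorem enum (u : V) (T : Finset V) (n : ℕ) (h : n ≤ T.card) :
    ∃ g : ℕ → V, (∀ t < n, g t ∈ T) ∧ Set.InjOn g (Set.Iio n) := by
  refine ⟨fun t => if h : t < T.card then (T.equivFin.symm ⟨t, h⟩ : V) else u, ?_, ?_⟩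
  · intro t ht
    have h1 : t < T.card := lt_of_lt_of_le ht h
    dsimp only
    rw [dif_pos h1]
    exact (T.equivFin.symm ⟨t, h1⟩).2
  · intro t ht s hs hts
    have h1 : t < T.card := lt_of_lt_of_le ht h
    have h2 : s < T.card := lt_of_lt_of_le hs h
    dsimp only at hts
    rw [dif_pos h1, dif_pos h2] at hts
    have h3 := T.equivFin.symm.injective (Subtype.ext hts)
    simpa using h3

omit [Fintype V] in
theorem sd (D X : Finset V) (M : ℕ) (h : (symmDiff D X).card ≤ M) :
    (X \ D).card ≤ M ∧ (D \ X).card ≤ M ∧ X.card ≤ D.card + M := by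
  have h1 : X \ D ⊆ symmDiff D X := by
    intro x hx
    rw [Finset.mem_symmDiff]
    rw [Finset.mem_sdiff] at hx
    exact Or.inr hx
  have h2 : D \ X ⊆ symmDiff D X := by
    intro x hx
    rw [Finset.mem_symmDiff]
    rw [Finset.mem_sdiff] at hx
    exact Or.inl hx
  have h3 := (Finset.card_le_card h1).trans h
  have h4 := (Finset.card_le_card h2).trans h
  refine ⟨h3, h4, ?_⟩
  have h5 : X.card ≤ (X \ D).card + D.card := by
    have := Finset.card_le_card_sdiff_add_card (s := X) (t := D)
    omega
  omega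

theorem centres (u : V) (K M : ℕ) (D : V → Finset V) (X0 : Finset V) (J1 J2 : Finset ℕ)
    (hd : Disjoint J1 J2) (hu : J1 ∪ J2 = range K) (hN : 2 * M < Fintype.card V)
    (T1 : K + 2 ≤ (univ.filter (fun v => (symmDiff (D v) X0).card ≤ M)).card)
    (T2 : K + 2 ≤ (univ.filter (fun v => (symmDiff (D v) X0ᶜ).card ≤ M)).card) :
    ∃ c : ℕ → V, Set.InjOn c (Set.Iio (K + 1)) ∧ c K = u ∧
      (∀ t ∈ J1, (symmDiff (D (c t)) X0).card ≤ M) ∧
      ∀ t ∈ J2, (symmDiff (D (c t)) X0ᶜ).card ≤ M := by
  set S1 := univ.filter (fun v => (symmDiff (D v) X0).card ≤ M) with hS1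
  set S2 := univ.filter (fun v => (symmDiff (D v) X0ᶜ).card ≤ M) with hS2
  have e1 : K ≤ (S1.erase u).card := by
    have := Finset.pred_card_le_card_erase (s := S1) (a := u)
    omega
  have e2 : K ≤ (S2.erase u).card := by
    have := Finset.pred_card_le_card_erase (s := S2) (a := u)
    omega
  obtain ⟨g1, hg1, hi1⟩ := enum u (S1.erase u) K e1
  obtain ⟨g2, hg2, hi2⟩ := enum u (S2.erase u) K e2
  have hno : ∀ v, v ∈ S1 → v ∈ S2 → False := by
    intro v h1 h2
    have h1' := (Finset.mem_filter.1 h1).2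
    have h2' := (Finset.mem_filter.1 h2).2
    have h7 : (univ : Finset V) ⊆ symmDiff (D v) X0 ∪ symmDiff (D v) X0ᶜ := by
      intro x _
      simp only [Finset.mem_union, Finset.mem_symmDiff, Finset.mem_compl]
      tauto
    have h8 := (Finset.card_le_card h7).trans (Finset.card_union_le _ _)
    rw [Finset.card_univ] at h8
    omega
  have hJ1 : ∀ t ∈ J1, t < K := fun t ht =>
    Finset.mem_range.1 (hu ▸ Finset.mem_union_left _ ht)
  have hJ2 : ∀ t ∈ J2, t < K := fun t ht =>
    Finset.mem_range.1 (hu ▸ Finset.mem_union_right _ ht)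
  have hJ : ∀ t < K, t ∉ J1 → t ∈ J2 := by
    intro t ht h1
    have := hu.symm ▸ Finset.mem_range.2 ht
    exact (Finset.mem_union.1 this).resolve_left h1
  have hJ12 : ∀ t ∈ J2, t ∉ J1 := fun t h2 h1 => (Finset.disjoint_left.1 hd) h1 h2
  refine ⟨fun t => if t = K then u else if t ∈ J1 then g1 t else g2 t, ?_, by simp, ?_, ?_⟩
  · intro t ht s hs hts
    have ht' : t < K + 1 := ht
    have hs' : s < K + 1 := hs
    dsimp only at hts
    by_cases htK : t = K
    · by_cases hsK : s = K
      · rw [htK, hsK]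
      · exfalso
        have hs2 : s < K := by omega
        rw [if_pos htK, if_neg hsK] at hts
        split_ifs at hts with h
        · exact (Finset.mem_erase.1 (hg1 s hs2)).1 hts.symm
        · exact (Finset.mem_erase.1 (hg2 s hs2)).1 hts.symm
    · have ht2 : t < K := by omega
      by_cases hsK : s = K
      · exfalso
        rw [if_neg htK, if_pos hsK] at hts
        split_ifs at hts with h
        · exact (Finset.mem_erase.1 (hg1 t ht2)).1 hts
        · exact (Finset.mem_erase.1 (hg2 t ht2)).1 hts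
      · have hs2 : s < K := by omega
        rw [if_neg htK, if_neg hsK] at hts
        by_cases h1 : t ∈ J1
        · by_cases h2 : s ∈ J1
          · rw [if_pos h1, if_pos h2] at hts
            exact hi1 ht2 hs2 hts
          · exfalso
            rw [if_pos h1, if_neg h2] at hts
            refine hno (g1 t) (Finset.mem_erase.1 (hg1 t ht2)).2 ?_
            rw [hts]
            exact (Finset.mem_erase.1 (hg2 s hs2)).2
        · by_cases h2 : s ∈ J1
          · exfalso
            rw [if_neg h1, if_pos h2] at hts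
            refine hno (g1 s) (Finset.mem_erase.1 (hg1 s hs2)).2 ?_
            rw [← hts]
            exact (Finset.mem_erase.1 (hg2 t ht2)).2
          · rw [if_neg h1, if_neg h2] at hts
            exact hi2 ht2 hs2 hts
  · intro t ht
    have h1 := hJ1 t ht
    dsimp only
    rw [if_neg (by omega), if_pos ht]
    exact (Finset.mem_filter.1 (Finset.mem_erase.1 (hg1 t h1)).2).2
  · intro t ht
    have h1 := hJ2 t ht
    dsimp only
    rw [if_neg (by omega), if_neg (hJ12 t ht)]
    exact (Finset.mem_filter.1 (Finset.mem_erase.1 (hg2 t h1)).2).2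

/-- one side -/
theorem side (G : SimpleGraph V) (a : ℕ → ℕ) (K L M : ℕ) (c : ℕ → V) (u : V) (X : Finset V)
    (J J' : Finset ℕ) (hcK : c K = u) (hM : M ≤ L + 1) (hL : K + 2 ≤ L) (haK : 10 * L ≤ a K)
    (hX : ∑ t ∈ J', a t + a K ≤ X.card + 2 * L) (hJ : J ⊆ insert K J') (hKJ' : K ∉ J')
    (hn : (nc G c J).card ≤ ∑ t ∈ J, a t + K) (t : ℕ) (htJ : t ∈ J)
    (hs : (symmDiff (dg G (c t)) X).card ≤ M) : (dg G u \ X).card ≤ 6 * L := by
  obtain ⟨h1, h2, h3⟩ := sd _ _ _ hs
  have h4 : dg G (c t) ⊆ nc G c J := fun w hw => mem_nc.2 ⟨t, htJ, hw⟩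
  have h5 := Finset.card_le_card h4
  have hKJ : K ∈ J := by
    by_contra h
    have h6 : J ⊆ J' := by
      intro s hs
      rcases Finset.mem_insert.1 (hJ hs) with h7 | h7
      · exact absurd (h7 ▸ hs) h
      · exact h7
    have h7 : ∑ s ∈ J, a s ≤ ∑ s ∈ J', a s := Finset.sum_le_sum_of_subset h6
    omega
  have h8 : ∑ s ∈ J, a s ≤ ∑ s ∈ J', a s + a K := by
    have := Finset.sum_le_sum_of_subset (f := a) hJ
    rw [Finset.sum_insert hKJ'] at this
    omega
  have h9 : dg G u ∪ dg G (c t) ⊆ nc G c J := by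
    refine Finset.union_subset ?_ h4
    intro w hw
    exact mem_nc.2 ⟨K, hKJ, by rw [hcK]; exact hw⟩
  have h10 := Finset.card_le_card h9
  have h11 : (dg G u \ dg G (c t)).card + (dg G (c t)).card = (dg G u ∪ dg G (c t)).card :=
    Finset.card_sdiff_add_card _ _
  have h12 : dg G u \ X ⊆ (dg G u \ dg G (c t)) ∪ (dg G (c t) \ X) := by
    intro w hw
    simp only [Finset.mem_union, Finset.mem_sdiff] at hw ⊢
    tauto
  have h13 := (Finset.card_le_card h12).trans (Finset.card_union_le _ _)
  omega

end CL1_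

open CL1_ in
theorem p_CL1 (hEMB : T_EMB) : T_CL1 := by
  intro V _ _ G a K q e M X0 J1 J2 hP hCon hM hT u
  set L := LL K q with hL
  have hL1 := hP.L1
  have hee := hP.e1
  have hl := hP.l1
  have ha1 := hP.a1
  have hlo := hP.lo
  have haK : 10 * L ≤ a K := by omega
  have hS : a K ≤ ∑ t ∈ range (K + 1), a t :=
    Finset.single_le_sum (f := a) (fun _ _ => Nat.zero_le _) (Finset.mem_range.2 (Nat.lt_succ_self K))
  have hN : 2 * M < Fintype.card V := by omega
  obtain ⟨c, hci, hcK, hc1, hc2⟩ := centres u K M (dg G) X0 J1 J2 hT.dsj hT.uni hN hT.T1 hT.T2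
  have hex : ∃ J ⊆ range (K + 1), J.Nonempty ∧
      (nc G c J \ (range (K + 1)).image c).card < ∑ t ∈ J, a t := by
    by_contra h
    push Not at h
    exact hCon (hEMB V G (K + 1) a c hci h)
  obtain ⟨J, hJ, hJne, hlt⟩ := hex
  have hC : ((range (K + 1)).image c).card ≤ K + 1 := by
    have := Finset.card_image_le (s := range (K + 1)) (f := c)
    rwa [Finset.card_range] at this
  have hn : (nc G c J).card ≤ ∑ t ∈ J, a t + K := by
    have h1 : (nc G c J).card ≤ (nc G c J \ (range (K + 1)).image c).card +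
        ((range (K + 1)).image c).card := by
      have := Finset.card_le_card_sdiff_add_card (s := nc G c J) (t := (range (K + 1)).image c)
      omega
    omega
  have hK1 : K ∉ J1 := fun h => by
    have := Finset.mem_range.1 (hT.uni ▸ Finset.mem_union_left J2 h)
    omega
  have hK2 : K ∉ J2 := fun h => by
    have := Finset.mem_range.1 (hT.uni ▸ Finset.mem_union_right J1 h)
    omega
  have hmem : ∀ t ∈ J, t = K ∨ t ∈ J1 ∨ t ∈ J2 := by
    intro t ht
    have h1 := Finset.mem_range.1 (hJ ht)
    rcases Nat.lt_or_ge t K with h2 | h2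
    · right
      exact Finset.mem_union.1 (hT.uni.symm ▸ Finset.mem_range.2 h2)
    · left
      omega
  by_cases hA : ∃ t ∈ J, t ∈ J1
  · obtain ⟨t, htJ, ht1⟩ := hA
    by_cases hB : ∃ s ∈ J, s ∈ J2
    · exfalso
      obtain ⟨s, hsJ, hs2⟩ := hB
      have h1 := (sd _ _ _ (hc1 t ht1)).1
      have h2 := (sd _ _ _ (hc2 s hs2)).1
      have h3 : (univ : Finset V) ⊆ nc G c J ∪ ((X0 \ dg G (c t)) ∪ (X0ᶜ \ dg G (c s))) := by
        intro w _
        by_cases hw1 : w ∈ dg G (c t)
        · exact Finset.mem_union_left _ (mem_nc.2 ⟨t, htJ, hw1⟩)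
        · by_cases hw2 : w ∈ dg G (c s)
          · exact Finset.mem_union_left _ (mem_nc.2 ⟨s, hsJ, hw2⟩)
          · refine Finset.mem_union_right _ ?_
            simp only [Finset.mem_union, Finset.mem_sdiff, Finset.mem_compl]
            tauto
      have h4 := (Finset.card_le_card h3).trans (Finset.card_union_le _ _)
      have h5 := Finset.card_union_le (X0 \ dg G (c t)) (X0ᶜ \ dg G (c s))
      rw [Finset.card_univ] at h4
      have h6 : ∑ t ∈ J, a t ≤ ∑ t ∈ range (K + 1), a t := Finset.sum_le_sum_of_subset hJ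
      omega
    · right
      left
      have hsub : J ⊆ insert K J1 := by
        intro s hs
        rcases hmem s hs with h | h | h
        · exact Finset.mem_insert.2 (Or.inl h)
        · exact Finset.mem_insert.2 (Or.inr h)
        · exact absurd ⟨s, hs, h⟩ hB
      exact side G a K L M c u X0 J J1 hcK hM (by omega) haK hT.lo1 hsub hK1 hn t htJ (hc1 t ht1)
  · by_cases hB : ∃ s ∈ J, s ∈ J2
    · right
      right
      obtain ⟨s, hsJ, hs2⟩ := hB
      have hsub : J ⊆ insert K J2 := by
        intro s hs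
        rcases hmem s hs with h | h | h
        · exact Finset.mem_insert.2 (Or.inl h)
        · exact absurd ⟨s, hs, h⟩ hA
        · exact Finset.mem_insert.2 (Or.inr h)
      have h := side G a K L M c u X0ᶜ J J2 hcK hM (by omega) haK hT.lo2 hsub hK2 hn s hsJ
        (hc2 s hs2)
      have h2 : dg G u ∩ X0 = dg G u \ X0ᶜ := by
        ext w
        simp only [Finset.mem_inter, Finset.mem_sdiff, Finset.mem_compl, not_not]
      rw [h2]
      exact h
    · left
      have hJK : ∀ t ∈ J, t = K := by
        intro t ht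
        rcases hmem t ht with h | h | h
        · exact h
        · exact absurd ⟨t, ht, h⟩ hA
        · exact absurd ⟨t, ht, h⟩ hB
      have hJ0 : J = {K} := by
        obtain ⟨t, ht⟩ := hJne
        ext s
        rw [Finset.mem_singleton]
        constructor
        · exact hJK s
        · rintro rfl
          exact hJK t ht ▸ ht
      have h1 : dg G u ⊆ nc G c J := by
        intro w hw
        exact mem_nc.2 ⟨K, by rw [hJ0]; exact Finset.mem_singleton_self K, by rw [hcK]; exact hw⟩
      have h2 := (Finset.card_le_card h1).trans hn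
      rw [hJ0, Finset.sum_singleton] at h2
      exact h2

end Pool.Agent.SFB
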