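import Pool.Agent.SFB.Targets

set_option autoImplicit false

/-!
# SFB-EXT: extension of a chain
-/

open Finset

namespace Pool.Agent.SFB

open Pool.Agent.StarF (starForest ramsey)

namespace EXT_

/-- Extension by a suitable vertex. -/
theorem ext_of {V : Type} [Fintype V] [DecidableEq V] (G : SimpleGraph V) (a : ℕ → ℕ)
    (f i : ℕ) (c : ℕ → V) (D : ℕ → Finset V) (hc : Chain G a f i c D) (u : V)
    (hu : ∀ t < i, c t ≠ u) (hs : a i + f ≤ (dg G u \ (range i).biUnion D).card)
    (ht : i = 0 → ∀ v, (dg G v).card ≤ (dg G u).card) :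
    ∃ (c' : ℕ → V) (D' : ℕ → Finset V), Chain G a f (i + 1) c' D' := by
  obtain ⟨Q, hQ, hQc⟩ := Finset.exists_subset_card_eq
    (le_trans (Nat.le_add_right (a i) f) hs)
  have hci : Function.update c i u i = u := Function.update_self _ _ _
  have hct : ∀ t, t < i → Function.update c i u t = c t := fun t ht =>
    Function.update_of_ne (Nat.ne_of_lt ht) _ _
  have hDi : Function.update D i Q i = Q := Function.update_self _ _ _
  have hDt : ∀ t, t < i → Function.update D i Q t = D t := fun t ht =>
    Function.update_of_ne (Nat.ne_of_lt ht) _ _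
  have hbU : ∀ t, t ≤ i → (range t).biUnion (Function.update D i Q) = (range t).biUnion D := by
    intro t ht
    refine Finset.biUnion_congr rfl fun s hs => ?_
    exact hDt s (lt_of_lt_of_le (mem_range.1 hs) ht)
  have hdis : ∀ t, t < i → Disjoint (D t) Q := by
    intro t ht
    rw [Finset.disjoint_left]
    intro x hx hxQ
    have h1 := hQ hxQ
    rw [mem_sdiff] at h1
    exact h1.2 (mem_biUnion.2 ⟨t, mem_range.2 ht, hx⟩)
  refine ⟨Function.update c i u, Function.update D i Q, ?_, ?_, ?_, ?_, ?_, ?_⟩
  · intro s hs t ht hst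
    rcases Nat.lt_succ_iff_lt_or_eq.1 hs with h1 | h1
    · rcases Nat.lt_succ_iff_lt_or_eq.1 ht with h2 | h2
      · rw [hct s h1, hct t h2] at hst
        exact hc.inj h1 h2 hst
      · subst h2
        rw [hct s h1, hci] at hst
        exact absurd hst (hu s h1)
    · rcases Nat.lt_succ_iff_lt_or_eq.1 ht with h2 | h2
      · subst h1
        rw [hct t h2, hci] at hst
        exact absurd hst.symm (hu t h2)
      · rw [h1, h2]
  · intro t ht
    rcases Nat.lt_succ_iff_lt_or_eq.1 ht with h1 | h1
    · rw [hct t h1, hDt t h1]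
      exact hc.sub t h1
    · subst h1
      rw [hci, hDi]
      exact hQ.trans sdiff_subset
  · intro t ht
    rcases Nat.lt_succ_iff_lt_or_eq.1 ht with h1 | h1
    · rw [hDt t h1]
      exact hc.crd t h1
    · subst h1
      rw [hDi, hQc]
  · intro s hs t ht hst
    rcases Nat.lt_succ_iff_lt_or_eq.1 hs with h1 | h1
    · rcases Nat.lt_succ_iff_lt_or_eq.1 ht with h2 | h2
      · rw [hDt s h1, hDt t h2]
        exact hc.dsj s h1 t h2 hst
      · subst h2
        rw [hDt s h1, hDi]
        exact hdis s h1
    · rcases Nat.lt_succ_iff_lt_or_eq.1 ht with h2 | h2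
      · subst h1
        rw [hDt t h2, hDi]
        exact (hdis t h2).symm
      · exact absurd (h1.trans h2.symm) hst
  · intro t ht
    rw [hbU t (Nat.le_of_lt_succ ht)]
    rcases Nat.lt_succ_iff_lt_or_eq.1 ht with h1 | h1
    · rw [hct t h1]
      exact hc.sur t h1
    · subst h1
      rw [hci]
      exact hs
  · intro _ v
    rcases Nat.eq_zero_or_pos i with h1 | h1
    · have h2 : Function.update c i u 0 = u := by
        rw [h1]
        exact Function.update_self _ _ _
      rw [h2]
      exact ht h1 v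
    · rw [hct 0 h1]
      exact hc.top h1 v

end EXT_

open EXT_ in
theorem p_EXT (hAVE : T_AVE) : T_EXT := by
  intro V _ _ G X P a f i r c D hP hX hcX hc hN
  set U : Finset V := (range i).biUnion D with hU
  have hUc : U.card ≤ ∑ t ∈ range i, a t := by
    refine le_trans Finset.card_biUnion_le ?_
    exact Finset.sum_le_sum fun t ht => (hc.crd t (mem_range.1 ht)).le
  have h1 := hAVE V G X P hP (univ \ U)
  -- the intersection is large
  have h2 : Fintype.card V ≤ ((univ \ U) ∩ X).card + U.card + (Xᶜ).card := by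
    have h3 : (univ : Finset V) ⊆ (((univ \ U) ∩ X) ∪ U) ∪ Xᶜ := by
      intro x _
      by_cases hx : x ∈ X
      · by_cases hxU : x ∈ U
        · simp [hxU]
        · simp [hx, hxU]
      · simp [hx]
    have h4 := Finset.card_le_card h3
    rw [Finset.card_univ] at h4
    exact h4.trans (le_trans (Finset.card_union_le _ _)
      (Nat.add_le_add_right (Finset.card_union_le _ _) _))
  have h3 : (2 * (a i + f) + 1 : ℝ) ≤ (((univ \ U) ∩ X).card : ℝ) := by
    have h5 : 2 * (a i + f) + 1 ≤ ((univ \ U) ∩ X).card := by omega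
    exact_mod_cast h5
  have h4 : ((a i + f : ℕ) : ℝ) ≤ ∑ v, P v * ((dg G v ∩ (univ \ U)).card : ℝ) := by
    push_cast
    linarith
  -- a good vertex
  obtain ⟨v, hv0, hv⟩ : ∃ v, P v ≠ 0 ∧ a i + f ≤ (dg G v ∩ (univ \ U)).card := by
    by_contra hcon
    have h5 : ∀ v, P v * ((dg G v ∩ (univ \ U)).card : ℝ) ≤ P v * ((a i + f : ℕ) - 1 : ℝ) := by
      intro v
      rcases eq_or_ne (P v) 0 with h6 | h6
      · rw [h6, zero_mul, zero_mul]
      · refine mul_le_mul_of_nonneg_left ?_ (hP.nn v)
        have h7 : ¬ a i + f ≤ (dg G v ∩ (univ \ U)).card := fun h => hcon ⟨v, h6, h⟩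
        have h8 : (dg G v ∩ (univ \ U)).card + 1 ≤ a i + f := by omega
        have h9 : (((dg G v ∩ (univ \ U)).card + 1 : ℕ) : ℝ) ≤ ((a i + f : ℕ) : ℝ) := by
          exact_mod_cast h8
        rw [Nat.cast_add, Nat.cast_one] at h9
        linarith
    have h6 := Finset.sum_le_sum fun v (_ : v ∈ (univ : Finset V)) => h5 v
    rw [← Finset.sum_mul, hP.one, one_mul] at h6
    linarith
  have hvX : v ∈ X := by
    by_contra h
    exact hv0 (hP.sp v h)
  have hset : ∀ u, dg G u ∩ (univ \ U) = dg G u \ U := by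
    intro u
    ext x
    simp
  rcases Nat.eq_zero_or_pos i with hi | hi
  · -- a vertex of maximal degree
    obtain ⟨u, -, hu⟩ := Finset.exists_max_image (univ : Finset V) (fun w => (dg G w).card)
      ⟨v, mem_univ v⟩
    have hU0 : U = ∅ := by
      rw [hU, hi]
      rfl
    refine ext_of G a f i c D hc u (fun t ht => absurd ht (by omega)) ?_
      (fun _ w => hu w (mem_univ w))
    rw [← hU, hU0, sdiff_empty]
    rw [hset, hU0, sdiff_empty] at hv
    exact hv.trans (hu v (mem_univ v))
  · refine ext_of G a f i c D hc v (fun t ht h => hcX t ht (h ▸ hvX)) ?_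
      (fun h => absurd h (by omega))
    rw [← hU, ← hset]
    exact hv

end Pool.Agent.SFB
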