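import Pool.Agent.SFB.Targets

/-!
# SFB-MMX: minimax
-/

set_option autoImplicit false

open Finset

namespace Pool.Agent.SFB

open Pool.Agent.StarF (starForest ramsey)

namespace MMX_

variable {V : Type} [Fintype V]

open Classical in
lemma dsum (G : SimpleGraph V) (w : V) (f : V → ℝ) :
    ∑ v ∈ dg G w, f v = ∑ v, (if G.Adj w v then f v else 0) := by
  unfold dg
  rw [sum_filter]

open Classical in
lemma part (G : SimpleGraph V) (w : V) (f : V → ℝ) :
    ∑ v, f v = ∑ v ∈ dg G w, f v + ∑ v ∈ dg Gᶜ w, f v + f w := by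
  have h1 : f w = ∑ v, (if v = w then f v else 0) := by simp
  rw [dsum, dsum]
  conv_rhs => rw [h1]
  rw [← sum_add_distrib, ← sum_add_distrib]
  apply sum_congr rfl
  intro v _
  by_cases h : v = w
  · subst h
    simp
  · have h' : w ≠ v := fun e => h e.symm
    by_cases h2 : G.Adj w v
    · have h3 : ¬ Gᶜ.Adj w v := fun e => (G.compl_adj w v).1 e |>.2 h2
      rw [if_pos h2, if_neg h3, if_neg h]
      ring
    · have h3 : Gᶜ.Adj w v := (G.compl_adj w v).2 ⟨h', h2⟩
      rw [if_neg h2, if_pos h3, if_neg h]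
      ring

open Classical in
/-- The matrix. -/
noncomputable def MM (G : SimpleGraph V) (v w : V) : ℝ :=
  (if G.Adj w v then 1 else 0) - (if Gᶜ.Adj w v then 1 else 0)

open Classical in
lemma MM_symm (G : SimpleGraph V) (v w : V) : MM G v w = MM G w v := by
  unfold MM
  have h1 : (if G.Adj w v then (1 : ℝ) else 0) = if G.Adj v w then (1 : ℝ) else 0 :=
    if_congr (G.adj_comm w v) rfl rfl
  have h2 : (if Gᶜ.Adj w v then (1 : ℝ) else 0) = if Gᶜ.Adj v w then (1 : ℝ) else 0 :=
    if_congr (Gᶜ.adj_comm w v) rfl rfl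
  rw [h1, h2]

open Classical in
lemma msum (G : SimpleGraph V) (w : V) (f : V → ℝ) :
    ∑ v, f v * MM G v w = ∑ v ∈ dg G w, f v - ∑ v ∈ dg Gᶜ w, f v := by
  rw [dsum, dsum, ← sum_sub_distrib]
  apply sum_congr rfl
  intro v _
  unfold MM
  split_ifs <;> ring

open Classical in
/-- Extension by zero. -/
noncomputable def ext0 (X : Finset V) (P : V → ℝ) (v : V) : ℝ := if v ∈ X then P v else 0

open Classical in
lemma ext_sum (X : Finset V) (P g : V → ℝ) :
    ∑ v, ext0 X P v * g v = ∑ v ∈ X, P v * g v := by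
  unfold ext0
  simp only [ite_mul, zero_mul]
  rw [← sum_filter]
  congr 1
  ext v
  simp

lemma ext_one (X : Finset V) (P : V → ℝ) (h : ∑ v ∈ X, P v = 1) : ∑ v, ext0 X P v = 1 := by
  have := ext_sum X P (fun _ => 1)
  simp only [mul_one] at this
  rw [this, h]

lemma ext_nn (X : Finset V) (P : V → ℝ) (h : ∀ v ∈ X, 0 ≤ P v) (v : V) : 0 ≤ ext0 X P v := by
  unfold ext0
  split_ifs with hv
  · exact h v hv
  · exact le_rfl

lemma ext_sp (X : Finset V) (P : V → ℝ) (v : V) (hv : v ∉ X) : ext0 X P v = 0 := by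
  unfold ext0
  rw [if_neg hv]

end MMX_

open MMX_ in
theorem p_MMX : T_MMX := by
  classical
  intro V _ G X hX
  rcases Pool.Agent.StarF.ville X hX (MM G) (MM_symm G) with ⟨P, h0, h1, h2⟩ | ⟨P, h0, h1, h2⟩
  · left
    refine ⟨ext0 X P, ext_nn X P h0, ext_sp X P, ext_one X P h1, ?_⟩
    intro w hw
    have h3 := h2 w hw
    rw [← ext_sum, msum] at h3
    have h4 := part G w (ext0 X P)
    rw [ext_one X P h1] at h4
    linarith
  · right
    refine ⟨ext0 X P, ext_nn X P h0, ext_sp X P, ext_one X P h1, ?_⟩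
    intro w hw
    have h3 := h2 w hw
    rw [← ext_sum, msum] at h3
    have h4 := part G w (ext0 X P)
    rw [ext_one X P h1] at h4
    linarith

end Pool.Agent.SFB
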