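import Pool.Agent.SFB.Targets

/-!
# SFB: target TYP

Two witnesses.
-/

set_option autoImplicit false

open Finset

namespace Pool.Agent.SFB

open Pool.Agent.StarF (starForest ramsey)

theorem TYP_.pick {V : Type} [Fintype V] (P : V → ℝ) (hP : ∀ v, 0 ≤ P v) (A : V → Prop)
    [DecidablePred A] (f : V → ℝ) (L : ℝ)
    (h : ∑ v, P v * (if A v then f v else 0) < L * ∑ v, P v * (if A v then 1 else 0)) :
    ∃ v, P v ≠ 0 ∧ A v ∧ f v < L := by
  by_contra hc
  push Not at hc
  refine absurd h (not_lt.2 ?_)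
  rw [mul_sum]
  refine sum_le_sum fun v _ => ?_
  by_cases hv : A v
  · rw [if_pos hv, if_pos hv]
    by_cases h0 : P v = 0
    · rw [h0]
      simp
    · have h1 := hc v h0 hv
      have h2 := mul_le_mul_of_nonneg_left h1 (hP v)
      linarith
  · rw [if_neg hv, if_neg hv]
    simp

theorem TYP_.sd {V : Type} [DecidableEq V] (A B C : Finset V)
    (h : A.card ≤ B.card) (hB : B ⊆ C) :
    (A \ B).card ≤ (C \ A).card ∧ (symmDiff A B).card ≤ 2 * (C \ A).card := by
  have h1 : (A \ B).card + (A ∩ B).card = A.card := by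
    rw [add_comm]
    exact card_inter_add_card_sdiff A B
  have h2 : (B \ A).card + (B ∩ A).card = B.card := by
    rw [add_comm]
    exact card_inter_add_card_sdiff B A
  rw [inter_comm B A] at h2
  have h3 : (B \ A).card ≤ (C \ A).card := card_le_card (sdiff_subset_sdiff hB le_rfl)
  have h4 : (symmDiff A B).card ≤ (A \ B).card + (B \ A).card := by
    rw [symmDiff_def]
    exact card_union_le _ _
  omega

/-- Target TYP. -/
theorem p_TYP (hAVE : T_AVE) : T_TYP := by
  classical
  intro V _ _ G X P a K q e c J hpar hcov hX hvio hmax hdeg hS1 hS2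
  set X0 := dg G (c 0) with hX0
  set k : ℝ := (K : ℝ) + 1 with hk
  have hq1 : (1 : ℝ) ≤ q := by exact_mod_cast hpar.q1
  have hk1 : (1 : ℝ) ≤ k := by
    have : (0 : ℝ) ≤ K := Nat.cast_nonneg _
    rw [hk]; linarith
  have hkq : (1 : ℝ) ≤ k * q := by nlinarith
  have hkq2 : k * q ≤ k * q ^ 2 := by nlinarith
  have hkk : k ≤ k * q := by nlinarith
  have hL : ((LL K q : ℕ) : ℝ) = 200 * k * q ^ 2 := by
    unfold LL
    push_cast
    rw [hk]
  have he : 42 * (k * q) < (e : ℝ) := by
    have h1 := hpar.e1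
    have h2 := hpar.l1
    have h3 : LL K q ≤ e := by omega
    have h4 : ((LL K q : ℕ) : ℝ) ≤ e := by exact_mod_cast h3
    rw [hL] at h4
    nlinarith
  -- the weight
  set p : ℝ := ∑ v, P v * (if 0 ∈ J v then 1 else 0) with hp
  have hp' : ∑ v, P v * (if ¬ (0 ∈ J v) then (1 : ℝ) else 0) = 1 - p := by
    have h1 : (1 : ℝ) = ∑ v, P v := hcov.one.symm
    have h2 : ∑ v, P v * (if ¬ (0 ∈ J v) then (1 : ℝ) else 0) + p = ∑ v, P v := by
      rw [hp, ← sum_add_distrib]
      refine sum_congr rfl fun v _ => ?_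
      by_cases hv : 0 ∈ J v
      · simp only [hv, not_true, if_true, if_false]
        ring
      · simp only [hv, not_false_iff, if_true, if_false]
        ring
    linarith
  set x0 : ℝ := (X0.card : ℝ) with hx0
  set y0 : ℝ := ((X0ᶜ).card : ℝ) with hy0
  have hex : (e : ℝ) ≤ x0 := by
    rw [hx0]
    exact_mod_cast hdeg
  have hxy : x0 + y0 = (Fintype.card V : ℝ) := by
    rw [hx0, hy0]
    exact_mod_cast card_add_card_compl X0
  have hWX : ∀ W : Finset V, (W.card : ℝ) - 6 * k ≤ ((W ∩ X).card : ℝ) := by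
    intro W
    have h1 : W.card ≤ (W ∩ X).card + (Xᶜ).card := by
      have h2 : W ⊆ (W ∩ X) ∪ Xᶜ := by
        intro w hw
        by_cases hwX : w ∈ X
        · exact mem_union_left _ (mem_inter.2 ⟨hw, hwX⟩)
        · exact mem_union_right _ (mem_compl.2 hwX)
      exact (card_le_card h2).trans (card_union_le _ _)
    have h3 : W.card ≤ (W ∩ X).card + 6 * (K + 1) := by omega
    have h4 : (W.card : ℝ) ≤ ((W ∩ X).card : ℝ) + 6 * ((K : ℝ) + 1) := by exact_mod_cast h3
    rw [hk]
    linarith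
  have hS1' : ∑ v, P v * (if 0 ∈ J v then ((nc G c (J v) \ dg G v).card : ℝ) else 0) +
      ∑ v, P v * (if ¬ (0 ∈ J v) then ((nc G c (J v) \ dg G v).card : ℝ) else 0) ≤
      7 * (k * q) := by
    rw [← sum_add_distrib]
    have h1 : ∀ v ∈ (univ : Finset V),
        P v * (if 0 ∈ J v then ((nc G c (J v) \ dg G v).card : ℝ) else 0) +
        P v * (if ¬ (0 ∈ J v) then ((nc G c (J v) \ dg G v).card : ℝ) else 0) =
        P v * ((nc G c (J v) \ dg G v).card : ℝ) := by
      intro v _
      by_cases hv : 0 ∈ J v <;> simp [hv]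
    rw [sum_congr rfl h1]
    calc _ ≤ _ := hS1
      _ = 7 * (k * q) := by rw [hk]; ring
  set M1 := ∑ v, P v * (if 0 ∈ J v then ((nc G c (J v) \ dg G v).card : ℝ) else 0) with hM1
  set M2 := ∑ v, P v * (if ¬ (0 ∈ J v) then ((nc G c (J v) \ dg G v).card : ℝ) else 0) with hM2
  have hM10 : 0 ≤ M1 := sum_nonneg fun v _ => mul_nonneg (hcov.nn v) (by split_ifs <;> positivity)
  have hM20 : 0 ≤ M2 := sum_nonneg fun v _ => mul_nonneg (hcov.nn v) (by split_ifs <;> positivity)
  have hS2' : ∑ v, P v * (if ¬ (0 ∈ J v) then ((dg G v ∩ X0).card : ℝ) else 0) ≤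
      7 * (k * q) := by
    have h1 : ∀ v ∈ (univ : Finset V),
        P v * (if ¬ (0 ∈ J v) then ((dg G v ∩ X0).card : ℝ) else 0) =
        P v * (if 0 ∈ J v then 0 else ((dg G v ∩ X0).card : ℝ)) := by
      intro v _
      by_cases hv : 0 ∈ J v <;> simp [hv]
    rw [sum_congr rfl h1]
    calc _ ≤ _ := hS2
      _ = 7 * (k * q) := by rw [hk]; ring
  set M3 := ∑ v, P v * (if ¬ (0 ∈ J v) then ((dg G v ∩ X0).card : ℝ) else 0) with hM3
  -- step (1)
  have h1 : x0 - 6 * k - 1 ≤ 2 * (p * x0 + M3) := by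
    have h2 := hAVE V G X P hcov X0
    have h3 := hWX X0
    have h4 : ∑ v, P v * ((dg G v ∩ X0).card : ℝ) ≤ p * x0 + M3 := by
      rw [hp, hM3, sum_mul, ← sum_add_distrib]
      refine sum_le_sum fun v _ => ?_
      by_cases hv : 0 ∈ J v
      · simp only [hv, if_true, not_true, if_false, mul_one, mul_zero, add_zero]
        refine mul_le_mul_of_nonneg_left ?_ (hcov.nn v)
        rw [hx0]
        exact_mod_cast card_le_card inter_subset_right
      · simp [hv]
    linarith
  have hpq : 1 / 4 ≤ p := by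
    by_contra hc
    push Not at hc
    nlinarith
  have h1' : (1 - 2 * p) * x0 ≤ 21 * (k * q) := by nlinarith
  -- step (2)
  have hpX : ∀ v, P v ≠ 0 → v ∈ X := fun v hv => by
    by_contra hc
    exact hv (hcov.sp v hc)
  have hey : (e : ℝ) ≤ y0 := by
    obtain ⟨v, hv1, hv2⟩ : ∃ v, P v ≠ 0 ∧ 0 ∈ J v := by
      by_contra hc
      push Not at hc
      have : p = 0 := by
        rw [hp]
        refine sum_eq_zero fun v _ => ?_
        by_cases h0 : P v = 0
        · rw [h0, zero_mul]
        · rw [if_neg (hc v h0), mul_zero]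
      linarith
    have h2 := hvio v (hpX v hv1)
    obtain ⟨h3, h4⟩ := h2
    have h5 : X0.card ≤ (((dg G v ∪ nc G c (J v)) \ (range K).image c) \ {v}).card +
        (K + 1) := by
      have h6 : X0 ⊆ (((dg G v ∪ nc G c (J v)) \ (range K).image c) \ {v}) ∪
          ((range K).image c ∪ {v}) := by
        intro w hw
        have h7 : w ∈ nc G c (J v) := mem_nc.2 ⟨0, hv2, hw⟩
        simp only [mem_union, mem_sdiff, mem_singleton]
        by_cases h8 : w ∈ (range K).image c
        · exact Or.inr (Or.inl h8)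
        · by_cases h9 : w = v
          · exact Or.inr (Or.inr h9)
          · exact Or.inl ⟨⟨Or.inr h7, h8⟩, h9⟩
      have h7 : ((range K).image c ∪ {v}).card ≤ K + 1 := by
        refine (card_union_le _ _).trans ?_
        have := card_image_le (s := range K) (f := c)
        rw [card_range] at this
        simpa using this
      have h8 := (card_le_card h6).trans (card_union_le _ _)
      omega
    have h6 : ∑ t ∈ J v, a t ≤ ∑ t ∈ range K, a t := sum_le_sum_of_subset h3
    have h7 := hpar.lo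
    rw [sum_range_succ] at h7
    have h8 := card_add_card_compl X0
    have h9 := hpar.a1
    have h10 : K ≤ e := by
      have h11 := hpar.e1
      have h12 := hpar.l1
      have h13 := hpar.L1
      omega
    have h11 : e ≤ (X0ᶜ).card := by omega
    rw [hy0]
    exact_mod_cast h11
  -- step (4)
  set E := ∑ v, P v * (if ¬ (0 ∈ J v) then ((X0ᶜ \ dg G v).card : ℝ) else 0) with hE
  have hE0 : 0 ≤ E := sum_nonneg fun v _ => mul_nonneg (hcov.nn v) (by split_ifs <;> positivity)
  have h4 : y0 - 6 * k - 1 ≤ 2 * (M1 + (1 - p) * y0 - E) := by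
    have h2 := hAVE V G X P hcov X0ᶜ
    have h3 := hWX X0ᶜ
    have h5 : ∑ v, P v * ((dg G v ∩ X0ᶜ).card : ℝ) ≤ M1 + (1 - p) * y0 - E := by
      rw [← hp', hM1, hE, sum_mul, ← sum_add_distrib, ← sum_sub_distrib]
      refine sum_le_sum fun v _ => ?_
      by_cases hv : 0 ∈ J v
      · simp only [hv, if_true, not_true, if_false, mul_zero, zero_mul, add_zero, sub_zero]
        refine mul_le_mul_of_nonneg_left ?_ (hcov.nn v)
        have h6 := (TYP_.sd (dg G v) X0 (nc G c (J v)) (hmax v)
          (fun w hw => mem_nc.2 ⟨0, hv, hw⟩)).1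
        have h7 : dg G v ∩ X0ᶜ = dg G v \ X0 := by
          rw [sdiff_eq_inter_compl]
        rw [h7]
        exact_mod_cast h6
      · simp only [hv, not_false_iff, if_true, if_false, mul_zero, zero_add, mul_one]
        rw [← mul_sub]
        refine mul_le_mul_of_nonneg_left ?_ (hcov.nn v)
        have h6 : (X0ᶜ ∩ dg G v).card + (X0ᶜ \ dg G v).card = (X0ᶜ).card :=
          card_inter_add_card_sdiff X0ᶜ (dg G v)
        rw [inter_comm] at h6
        have h7 : ((dg G v ∩ X0ᶜ).card : ℝ) + ((X0ᶜ \ dg G v).card : ℝ) = y0 := by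
          rw [hy0]
          exact_mod_cast h6
        linarith
    linarith
  have hpq' : 1 / 4 ≤ 1 - p := by
    by_contra hc
    push Not at hc
    nlinarith
  have hNq : y0 ≤ q * x0 := by
    have h2 := hpar.up
    have h3 : (Fintype.card V : ℝ) ≤ q * e := by exact_mod_cast h2
    have h5 : (q : ℝ) * e ≤ q * x0 := mul_le_mul_of_nonneg_left hex (by linarith)
    have h6 : 0 ≤ x0 := by rw [hx0]; positivity
    linarith
  have hE1 : E ≤ 21 * (k * q ^ 2) := by
    have h2 : (1 - 2 * p) * y0 ≤ 21 * (k * q ^ 2) := by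
      rcases le_or_gt (1 - 2 * p) 0 with h5 | h5
      · have h6 : 0 ≤ y0 := by rw [hy0]; positivity
        nlinarith
      · calc (1 - 2 * p) * y0 ≤ (1 - 2 * p) * (q * x0) := mul_le_mul_of_nonneg_left hNq h5.le
          _ = q * ((1 - 2 * p) * x0) := by ring
          _ ≤ q * (21 * (k * q)) := mul_le_mul_of_nonneg_left h1' (by linarith)
          _ = 21 * (k * q ^ 2) := by ring
    nlinarith
  -- step (5)
  constructor
  · obtain ⟨v, hv1, hv2, hv3⟩ := TYP_.pick P hcov.nn (fun v => 0 ∈ J v)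
      (fun v => ((symmDiff (dg G v) X0).card : ℝ) + ((nc G c (J v) \ dg G v).card : ℝ))
      ((LL K q : ℕ) : ℝ) (by
        have h2 : ∑ v, P v * (if 0 ∈ J v then ((symmDiff (dg G v) X0).card : ℝ) +
            ((nc G c (J v) \ dg G v).card : ℝ) else 0) ≤ 3 * M1 := by
          rw [hM1, mul_sum]
          refine sum_le_sum fun v _ => ?_
          by_cases hv : 0 ∈ J v
          · simp only [hv, if_true]
            have h6 := (TYP_.sd (dg G v) X0 (nc G c (J v)) (hmax v)
              (fun w hw => mem_nc.2 ⟨0, hv, hw⟩)).2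
            have h7 : ((symmDiff (dg G v) X0).card : ℝ) ≤
              2 * ((nc G c (J v) \ dg G v).card : ℝ) := by exact_mod_cast h6
            have h8 := mul_le_mul_of_nonneg_left h7 (hcov.nn v)
            linarith
          · simp [hv]
        refine lt_of_le_of_lt h2 ?_
        rw [hL, ← hp]
        nlinarith)
    have h0 : (0 : ℝ) ≤ ((symmDiff (dg G v) X0).card : ℝ) := Nat.cast_nonneg _
    have h0' : (0 : ℝ) ≤ ((nc G c (J v) \ dg G v).card : ℝ) := Nat.cast_nonneg _
    refine ⟨v, hpX v hv1, hv2, ?_, ?_⟩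
    · have : ((symmDiff (dg G v) X0).card : ℝ) ≤ ((LL K q : ℕ) : ℝ) := by linarith
      exact_mod_cast this
    · have : ((nc G c (J v) \ dg G v).card : ℝ) ≤ ((LL K q : ℕ) : ℝ) := by linarith
      exact_mod_cast this
  · obtain ⟨v, hv1, hv2, hv3⟩ := TYP_.pick P hcov.nn (fun v => ¬ (0 ∈ J v))
      (fun v => ((symmDiff (dg G v) X0ᶜ).card : ℝ) + ((nc G c (J v) \ dg G v).card : ℝ))
      ((LL K q : ℕ) : ℝ) (by
        have h2 : ∑ v, P v * (if ¬ (0 ∈ J v) then ((symmDiff (dg G v) X0ᶜ).card : ℝ) +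
            ((nc G c (J v) \ dg G v).card : ℝ) else 0) ≤ M3 + E + M2 := by
          rw [hM3, hE, hM2, ← sum_add_distrib, ← sum_add_distrib]
          refine sum_le_sum fun v _ => ?_
          by_cases hv : 0 ∈ J v
          · simp [hv]
          · simp only [hv, not_false_iff, if_true]
            have h6 : (symmDiff (dg G v) X0ᶜ).card ≤
                (dg G v ∩ X0).card + (X0ᶜ \ dg G v).card := by
              rw [symmDiff_def]
              refine (card_union_le _ _).trans ?_
              rw [sdiff_eq_inter_compl, compl_compl]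
            have h7 : ((symmDiff (dg G v) X0ᶜ).card : ℝ) ≤
                ((dg G v ∩ X0).card : ℝ) + ((X0ᶜ \ dg G v).card : ℝ) := by exact_mod_cast h6
            have h8 := mul_le_mul_of_nonneg_left h7 (hcov.nn v)
            linarith
        refine lt_of_le_of_lt h2 ?_
        rw [hL, hp']
        nlinarith)
    have h0 : (0 : ℝ) ≤ ((symmDiff (dg G v) X0ᶜ).card : ℝ) := Nat.cast_nonneg _
    have h0' : (0 : ℝ) ≤ ((nc G c (J v) \ dg G v).card : ℝ) := Nat.cast_nonneg _
    refine ⟨v, hpX v hv1, hv2, ?_, ?_⟩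
    · have : ((symmDiff (dg G v) X0ᶜ).card : ℝ) ≤ ((LL K q : ℕ) : ℝ) := by linarith
      exact_mod_cast this
    · have : ((nc G c (J v) \ dg G v).card : ℝ) ≤ ((LL K q : ℕ) : ℝ) := by linarith
      exact_mod_cast this

end Pool.Agent.SFB
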