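import Pool.Agent.SFB.Targets

/-!
# SFB: a system whose first set contains a given small set (T_AV0)
-/

set_option autoImplicit false

open Finset

namespace Pool.Agent.SFB

open Pool.Agent.StarF (starForest ramsey)

/-- A system with `D 0 ⊇ E`. -/
theorem p_AV0 (hAVD : T_AVD) : T_AV0 := by
  intro V _ _ G a K e c E hH hE hEdg hEC hea
  obtain ⟨D', hD'⟩ := hAVD V G a K e c E hH hE
  rcases Nat.eq_zero_or_pos K with hK | hK
  · subst hK
    exact ⟨D', ⟨fun t ht => absurd ht (Nat.not_lt_zero t), fun t ht => absurd ht (Nat.not_lt_zero t),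
      fun t ht => absurd ht (Nat.not_lt_zero t), fun t ht => absurd ht (Nat.not_lt_zero t),
      fun t ht => absurd ht (Nat.not_lt_zero t)⟩, fun h => absurd h (lt_irrefl 0)⟩
  have hc0 := hD'.crd 0 hK
  obtain ⟨Q, hQ, hQc⟩ := Finset.exists_subset_card_eq (s := D' 0) (n := a 0 - E.card) (by omega)
  have hEQ : Disjoint E Q := (Finset.disjoint_of_subset_left hQ (hD'.avE 0 hK)).symm
  refine ⟨fun t => if t = 0 then E ∪ Q else D' t, ⟨?_, ?_, ?_, ?_, ?_⟩, ?_⟩
  · intro t ht
    by_cases h : t = 0
    · subst h
      simp only [if_true]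
      exact Finset.union_subset hEdg (hQ.trans (hD'.sub 0 hK))
    · simp only [if_neg h]
      exact hD'.sub t ht
  · intro t ht
    by_cases h : t = 0
    · subst h
      simp only [if_true]
      rw [Finset.disjoint_union_left]
      exact ⟨hEC, Finset.disjoint_of_subset_left hQ (hD'.avC 0 hK)⟩
    · simp only [if_neg h]
      exact hD'.avC t ht
  · intro t ht
    exact Finset.disjoint_empty_right _
  · intro t ht
    by_cases h : t = 0
    · subst h
      simp only [if_true]
      rw [Finset.card_union_of_disjoint hEQ, hQc]
      omega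
    · simp only [if_neg h]
      exact hD'.crd t ht
  · intro s hs t ht hst
    by_cases h : s = 0
    · subst h
      have ht0 : t ≠ 0 := fun h' => hst h'.symm
      simp only [if_true, if_neg ht0]
      rw [Finset.disjoint_union_left]
      exact ⟨(hD'.avE t ht).symm, Finset.disjoint_of_subset_left hQ (hD'.dsj 0 hs t ht hst)⟩
    · by_cases h' : t = 0
      · subst h'
        simp only [if_true, if_neg h]
        rw [Finset.disjoint_union_right]
        exact ⟨hD'.avE s hs, Finset.disjoint_of_subset_right hQ (hD'.dsj s hs 0 ht hst)⟩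
      · simp only [if_neg h, if_neg h']
        exact hD'.dsj s hs t ht hst
  · intro _
    simp only [if_true]
    exact Finset.subset_union_left

end Pool.Agent.SFB
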