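import Pool.Agent.SFB.Targets

/-!
# SFB: a system avoiding a small set (AVD)
-/

set_option autoImplicit false

open Finset

namespace Pool.Agent.SFB

open Pool.Agent.StarF (starForest ramsey)

theorem p_AVD : T_AVD := by
  intro V _ _ G a K e c E hcard hE
  have key : ∀ J ⊆ range K, ∑ t ∈ J, a t ≤
      (J.biUnion (fun t => dg G (c t) \ ((range K).image c ∪ E))).card := by
    intro J hJ
    rcases J.eq_empty_or_nonempty with h0 | h0
    · subst h0
      simp
    · have h1 := hcard J hJ h0
      have h2 : J.biUnion (fun t => dg G (c t) \ ((range K).image c ∪ E)) =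
          nc G c J \ ((range K).image c ∪ E) := by
        ext w
        simp only [mem_biUnion, mem_sdiff, mem_nc]
        constructor
        · rintro ⟨t, ht, hw, hn⟩
          exact ⟨⟨t, ht, hw⟩, hn⟩
        · rintro ⟨⟨t, ht, hw⟩, hn⟩
          exact ⟨t, ht, hw, hn⟩
      rw [h2]
      have h3 : ((range K).image c ∪ E).card ≤ K + e := by
        refine le_trans (card_union_le _ _) ?_
        have h4 : ((range K).image c).card ≤ K := by
          simpa using card_image_le (s := range K) (f := c)
        omega
      have h5 := le_card_sdiff ((range K).image c ∪ E) (nc G c J)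
      omega
  obtain ⟨D, hD1, hD2⟩ := Pool.Agent.StarF.hall (range K) a
    (fun t => dg G (c t) \ ((range K).image c ∪ E)) key
  have hsub : ∀ t < K, D t ⊆ dg G (c t) \ ((range K).image c ∪ E) := fun t ht =>
    (hD1 t (mem_range.2 ht)).1
  refine ⟨D, ?_, ?_, ?_, ?_, ?_⟩
  · intro t ht w hw
    exact (mem_sdiff.1 (hsub t ht hw)).1
  · intro t ht
    rw [disjoint_left]
    intro w hw hc
    exact (mem_sdiff.1 (hsub t ht hw)).2 (mem_union_left _ hc)
  · intro t ht
    rw [disjoint_left]
    intro w hw hc
    exact (mem_sdiff.1 (hsub t ht hw)).2 (mem_union_right _ hc)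
  · intro t ht
    exact (hD1 t (mem_range.2 ht)).2
  · intro s hs t ht hst
    exact hD2 s (mem_range.2 hs) t (mem_range.2 ht) hst

end Pool.Agent.SFB
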