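import Pool.Agent.SFB.Targets

/-!
# SFB (MP_705b7e_co): the blocks (target BLK)
-/

set_option autoImplicit false

open Finset

namespace Pool.Agent.SFB

open Pool.Agent.StarF (starForest ramsey)

namespace BLK_

/-- The counting argument for two cells. -/
lemma cell {V : Type} [DecidableEq V] (E : V → Finset V) (L : ℕ) (P1 P2 : Finset V)
    (hE : ∀ u, (E u).card ≤ L) (h : ∀ u ∈ P1, ∀ w ∈ P2, w ∈ E u ∨ u ∈ E w) :
    P1.card ≤ 2 * L ∨ P2.card ≤ 2 * L := by
  have h1 : P1 ×ˢ P2 ⊆ P1.biUnion (fun u => (E u).image (fun w => (u, w))) ∪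
      P2.biUnion (fun w => (E w).image (fun u => (u, w))) := by
    rintro ⟨u, w⟩ huw
    rw [mem_product] at huw
    rw [mem_union, mem_biUnion, mem_biUnion]
    rcases h u huw.1 w huw.2 with h2 | h2
    · exact Or.inl ⟨u, huw.1, mem_image_of_mem _ h2⟩
    · exact Or.inr ⟨w, huw.2, mem_image_of_mem (fun u => (u, w)) h2⟩
  have h2 := (card_le_card h1).trans (card_union_le _ _)
  rw [card_product] at h2
  have h3 : (P1.biUnion (fun u => (E u).image (fun w => (u, w)))).card ≤ P1.card * L :=
    card_biUnion_le_card_mul _ _ _ (fun u _ => card_image_le.trans (hE u))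
  have h4 : (P2.biUnion (fun w => (E w).image (fun u => (u, w)))).card ≤ P2.card * L :=
    card_biUnion_le_card_mul _ _ _ (fun w _ => card_image_le.trans (hE w))
  by_contra hcon
  push Not at hcon
  obtain ⟨h5, h6⟩ := hcon
  have h7 : P1.card * P2.card ≤ P1.card * L + P2.card * L := by omega
  nlinarith

lemma tri {V : Type} [DecidableEq V] (A B C : Finset V) :
    (symmDiff A C).card ≤ (symmDiff A B).card + (symmDiff B C).card := by
  refine (card_le_card ?_).trans (card_union_le _ _)
  intro w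
  rw [mem_union, mem_symmDiff, mem_symmDiff, mem_symmDiff]
  tauto

lemma compl1 {V : Type} [Fintype V] [DecidableEq V] (A B : Finset V) :
    symmDiff Aᶜ B = symmDiff A Bᶜ := by
  ext w
  rw [mem_symmDiff, mem_symmDiff, mem_compl, mem_compl]
  tauto

lemma compl2 {V : Type} [Fintype V] [DecidableEq V] (A B : Finset V) :
    symmDiff Aᶜ Bᶜ = symmDiff A B := by
  rw [compl1, compl_compl]

lemma sub1 {V : Type} [Fintype V] [DecidableEq V] (G : SimpleGraph V) (X0 : Finset V) (v : V) :
    (symmDiff (dg Gᶜ v) X0).card ≤ (symmDiff (dg G v) X0ᶜ).card + 1 := by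
  refine (card_le_card (t := insert v (symmDiff (dg G v) X0ᶜ)) ?_).trans (card_insert_le _ _)
  intro w hw
  rw [mem_symmDiff, mem_dg_compl] at hw
  rw [mem_insert, mem_symmDiff, mem_compl]
  tauto

lemma cards {V : Type} [Fintype V] [DecidableEq V] (X X0 : Finset V) :
    X0.card = (X ∩ X0).card + (X0 \ X).card ∧
    (X0ᶜ).card = (X \ X0).card + (univ \ (X ∪ X0)).card ∧
    X.card = (X ∩ X0).card + (X \ X0).card ∧
    (Xᶜ).card = (X0 \ X).card + (univ \ (X ∪ X0)).card ∧
    (symmDiff X0 X).card = (X0 \ X).card + (X \ X0).card ∧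
    (symmDiff X0 Xᶜ).card = (X ∩ X0).card + (univ \ (X ∪ X0)).card := by
  refine ⟨?_, ?_, ?_, ?_, ?_, ?_⟩
  · rw [inter_comm]
    exact (card_inter_add_card_sdiff X0 X).symm
  · rw [← card_inter_add_card_sdiff X0ᶜ X]
    congr 2
    · ext w; simp [and_comm]
    · ext w; simp [and_comm]
  · exact (card_inter_add_card_sdiff X X0).symm
  · rw [← card_inter_add_card_sdiff Xᶜ X0]
    congr 2
    · ext w; simp [and_comm]
    · ext w; simp
  · rw [symmDiff_def, sup_eq_union, card_union_of_disjoint]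
    exact disjoint_sdiff_sdiff
  · rw [symmDiff_def, sup_eq_union, card_union_of_disjoint disjoint_sdiff_sdiff]
    congr 2
    · ext w; simp [and_comm]
    · ext w; simp

end BLK_

open BLK_ in
theorem p_BLK : T_BLK := by
  intro V _ _ G b L X0 hb hb0 hb1 h
  classical
  set X : Finset V := univ.filter (fun u => (symmDiff (dg G u) X0).card ≤ L) with hX
  have hin : ∀ u, u ∈ X → (symmDiff (dg G u) X0).card ≤ L := by
    intro u hu
    rw [hX, mem_filter] at hu
    exact hu.2
  have hout : ∀ u, u ∉ X → (symmDiff (dg G u) X0ᶜ).card ≤ L := by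
    intro u hu
    rcases h u with h1 | h1
    · exact absurd (by rw [hX, mem_filter]; exact ⟨mem_univ _, h1⟩) hu
    · exact h1
  set E : V → Finset V := fun u =>
    if u ∈ X then symmDiff (dg G u) X0 else symmDiff (dg G u) X0ᶜ with hE
  have hEc : ∀ u, (E u).card ≤ L := by
    intro u
    by_cases hu : u ∈ X
    · simp only [hE, if_pos hu]
      exact hin u hu
    · simp only [hE, if_neg hu]
      exact hout u hu
  have E1 : ∀ u w, u ∈ X → (w ∈ E u ↔ ¬(w ∈ dg G u ↔ w ∈ X0)) := by
    intro u w hu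
    simp only [hE, if_pos hu, mem_symmDiff]
    tauto
  have E2 : ∀ u w, u ∉ X → (w ∈ E u ↔ (w ∈ dg G u ↔ w ∈ X0)) := by
    intro u w hu
    simp only [hE, if_neg hu, mem_symmDiff, mem_compl]
    tauto
  have c1 := cell E L (X ∩ X0) (X \ X0) hEc (by
    intro u hu w hw
    rw [mem_inter] at hu
    rw [mem_sdiff] at hw
    have h1 := mem_dg_comm (G := G) (v := u) (w := w)
    rw [E1 u w hu.1, E1 w u hw.1]
    tauto)
  have c2 := cell E L (X0 \ X) (univ \ (X ∪ X0)) hEc (by
    intro u hu w hw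
    rw [mem_sdiff] at hu
    rw [mem_sdiff, mem_union] at hw
    have h1 := mem_dg_comm (G := G) (v := u) (w := w)
    have hw1 : w ∉ X := fun h => hw.2 (Or.inl h)
    rw [E2 u w hu.2, E2 w u hw1]
    tauto)
  have c3 := cell E L (X ∩ X0) (X0 \ X) hEc (by
    intro u hu w hw
    rw [mem_inter] at hu
    rw [mem_sdiff] at hw
    have h1 := mem_dg_comm (G := G) (v := u) (w := w)
    rw [E1 u w hu.1, E2 w u hw.2]
    tauto)
  have c4 := cell E L (X \ X0) (univ \ (X ∪ X0)) hEc (by
    intro u hu w hw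
    rw [mem_sdiff] at hu
    rw [mem_sdiff, mem_union] at hw
    have h1 := mem_dg_comm (G := G) (v := u) (w := w)
    have hw1 : w ∉ X := fun h => hw.2 (Or.inl h)
    rw [E1 u w hu.1, E2 w u hw1]
    tauto)
  obtain ⟨k1, k2, k3, k4, k5, k6⟩ := cards X X0
  by_cases hp : (X ∩ X0).card ≤ 2 * L
  · refine ⟨X, Or.inr ⟨?_, ?_⟩, ?_, ?_⟩
    · intro u hu
      have h1 := sub1 G X u
      have h2 := tri (dg G u) X0 Xᶜ
      have h3 := hin u hu
      omega
    · intro u hu
      have h1 := sub1 G Xᶜ u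
      rw [compl_compl] at h1
      have h2 := tri (dg G u) X0ᶜ X
      rw [compl1 X0 X] at h2
      have h3 := hout u hu
      omega
    · omega
    · omega
  · refine ⟨X, Or.inl ⟨?_, ?_⟩, ?_, ?_⟩
    · intro u hu
      have h2 := tri (dg G u) X0 X
      have h3 := hin u hu
      omega
    · intro u hu
      have h2 := tri (dg G u) X0ᶜ Xᶜ
      rw [compl2 X0 X] at h2
      have h3 := hout u hu
      omega
    · omega
    · omega

end Pool.Agent.SFB
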