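import Pool.Agent.SFB.Targets

set_option autoImplicit false

/-!
# SFB, BLQ: covering by `q` blocks
-/

open Finset

namespace Pool.Agent.SFB

open Pool.Agent.StarF (starForest ramsey)

theorem p_BLQ : T_BLQ := by
  intro V _ _ q e hV
  have hlt : ∀ v : V, (Fintype.equivFin V v : ℕ) < q * e := fun v =>
    lt_of_lt_of_le (Fintype.equivFin V v).2 hV
  refine ⟨fun j => univ.filter fun v => (Fintype.equivFin V v : ℕ) / e = j, ?_, ?_⟩
  · intro j
    have h1 : ∀ v ∈ univ.filter (fun v : V => (Fintype.equivFin V v : ℕ) / e = j),
        (Fintype.equivFin V v : ℕ) ∈ Ico (j * e) (j * e + e) := by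
      intro v hv
      rw [mem_filter] at hv
      have he : 0 < e := by
        rcases Nat.eq_zero_or_pos e with h | h
        · have := hlt v
          rw [h, mul_zero] at this
          omega
        · exact h
      rw [mem_Ico, ← hv.2]
      have h2 := Nat.div_add_mod (Fintype.equivFin V v : ℕ) e
      have h3 := Nat.mod_lt (Fintype.equivFin V v : ℕ) he
      have h4 : (Fintype.equivFin V v : ℕ) / e * e = e * ((Fintype.equivFin V v : ℕ) / e) :=
        mul_comm _ _
      omega
    have h2 := card_le_card_of_injOn (fun v : V => (Fintype.equivFin V v : ℕ)) h1 (by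
      intro v _ w _ hvw
      exact (Fintype.equivFin V).injective (Fin.ext hvw))
    rw [Nat.card_Ico] at h2
    show (univ.filter fun v : V => (Fintype.equivFin V v : ℕ) / e = j).card ≤ e
    omega
  · intro v
    refine ⟨(Fintype.equivFin V v : ℕ) / e, ?_, by simp⟩
    exact Nat.div_lt_of_lt_mul (by rw [mul_comm]; exact hlt v)

end Pool.Agent.SFB
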