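import Pool.Agent.SFB.Targets

/-!
# SFB-BVL: the Ramsey number
-/

set_option autoImplicit false

open Finset

namespace Pool.Agent.SFB

open Pool.Agent.StarF (starForest ramsey)

namespace BVL_

lemma mono {k : ℕ} {n : Fin k → ℕ} {x y x' y' : ℕ} (hx : x ≤ x') (hy : y ≤ y')
    (h : Fits n x y) : Fits n x' y' := by
  obtain ⟨A, h1 | h1⟩ := h
  · exact ⟨A, Or.inl ⟨h1.1.trans hx, h1.2.trans hy⟩⟩
  · exact ⟨A, Or.inr ⟨h1.1.trans hx, h1.2.trans hy⟩⟩

lemma up {k : ℕ} {n : Fin k → ℕ} {N N' : ℕ} (hN : N ≤ N')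
    (h : ∀ x y : ℕ, x + y = N → Fits n x y) : ∀ x y : ℕ, x + y = N' → Fits n x y := by
  intro x y hxy
  rcases le_total x N with h1 | h1
  · exact mono le_rfl (by omega) (h x (N - x) (by omega))
  · exact mono h1 (Nat.zero_le y) (h N 0 (by omega))

/-- Every number in the set of the Ramsey number is at least `sInf B`. -/
lemma low (hLOW : T_LOW) {k : ℕ} (n : Fin k → ℕ) {N : ℕ}
    (hN : ∀ G : SimpleGraph (Fin N), (starForest n).IsContained G ∨
      (starForest n).IsContained Gᶜ) : ∀ x y : ℕ, x + y = N → Fits n x y := by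
  intro x y hxy
  subst hxy
  by_contra hcon
  obtain ⟨G, h1, h2⟩ := hLOW k n x y hcon
  rcases hN G with h | h
  · exact h1 h
  · exact h2 h

end BVL_

theorem p_BVL (hUPP : T_UPP) (hLOW : T_LOW) (hCNV : T_CNV) (hLOB : T_LOB) (hUPB : T_UPB) :
    T_BVL := by
  intro a K q e hPar hK haK hmin hmax
  have hS : a K ≤ ∑ t ∈ range (K + 1), a t :=
    Finset.single_le_sum (f := a) (fun _ _ => Nat.zero_le _) (Finset.self_mem_range_succ K)
  have hup : (∑ t ∈ range (K + 1), a t + a K + K - 1) ∈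
      {N : ℕ | ∀ x y : ℕ, x + y = N → Fits (fun i : Fin (K + 1) => a i) x y} := by
    intro x y hxy
    exact (hCNV (K + 1) a x y).mp (hUPB K a hK haK hmin hmax x y hxy)
  have hb : sInf {N : ℕ | ∀ x y : ℕ, x + y = N → Fits (fun i : Fin (K + 1) => a i) x y} ∈
      {N : ℕ | ∀ x y : ℕ, x + y = N → Fits (fun i : Fin (K + 1) => a i) x y} :=
    Nat.sInf_mem ⟨_, hup⟩
  have hb1 : sInf {N : ℕ | ∀ x y : ℕ, x + y = N → Fits (fun i : Fin (K + 1) => a i) x y} ≤
      ∑ t ∈ range (K + 1), a t + a K + K - 1 := Nat.sInf_le hup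
  have hb2 : ∑ t ∈ range (K + 1), a t + a K ≤
      sInf {N : ℕ | ∀ x y : ℕ, x + y = N → Fits (fun i : Fin (K + 1) => a i) x y} := by
    by_contra hcon
    rw [not_le] at hcon
    have h1 : sInf {N : ℕ | ∀ x y : ℕ, x + y = N → Fits (fun i : Fin (K + 1) => a i) x y} ≤
        a K + (∑ t ∈ range (K + 1), a t - 1) := by omega
    have h2 := BVL_.up h1 hb (a K) (∑ t ∈ range (K + 1), a t - 1) rfl
    exact hLOB K a hK (by omega) hmin ((hCNV (K + 1) a _ _).mpr h2)
  have hr : ramsey (starForest (fun i : Fin (K + 1) => a i))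
      (starForest (fun i : Fin (K + 1) => a i)) =
      sInf {N : ℕ | ∀ x y : ℕ, x + y = N → Fits (fun i : Fin (K + 1) => a i) x y} := by
    have hmem : sInf {N : ℕ | ∀ x y : ℕ, x + y = N → Fits (fun i : Fin (K + 1) => a i) x y} ∈
        {N : ℕ | ∀ G : SimpleGraph (Fin N),
          (starForest (fun i : Fin (K + 1) => a i)).IsContained G ∨
            (starForest (fun i : Fin (K + 1) => a i)).IsContained Gᶜ} := by
      intro G
      exact hUPP a K q e _ (hPar _ hb2 hb1)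
        (fun x y hxy => (hCNV (K + 1) a x y).mpr (hb x y hxy)) G
    refine le_antisymm (Nat.sInf_le hmem) ?_
    refine le_csInf ⟨_, hmem⟩ ?_
    intro N hN
    exact Nat.sInf_le (BVL_.low hLOW _ hN)
  rw [hr]
  exact ⟨rfl, hb2, hb1⟩

end Pool.Agent.SFB

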