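import Pool.Agent.SFB.Targets

set_option autoImplicit false

/-!
# SFB: CEN, centres which together dominate a set (helper21)
-/

open Finset

namespace Pool.Agent.SFB

theorem p_CEN : T_CEN := by
  intro V _ _ G W Z l A hA hW h1 h2
  have hWne : W.Nonempty := by
    rw [← Finset.card_pos]
    omega
  obtain ⟨w0, hw0⟩ := hWne
  obtain ⟨Bad, hBad⟩ : ∃ Bad : Finset V,
      Bad = ((Z \ dg G w0) \ {w0}).biUnion (fun z => W \ dg G z) := ⟨_, rfl⟩
  have hB1 : Bad.card ≤ l * (l + 1) := by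
    rw [hBad]
    refine (Finset.card_biUnion_le_card_mul _ _ (l + 1) ?_).trans
      (Nat.mul_le_mul_right _ (h1 w0 hw0))
    intro z hz
    have hz' : z ∈ Z := (mem_sdiff.1 (mem_sdiff.1 hz).1).1
    have e1 : W \ dg G z ⊆ insert z ((W \ dg G z) \ {z}) := by
      intro x hx
      rw [mem_insert, mem_sdiff, mem_singleton]
      by_cases hxz : x = z
      · exact Or.inl hxz
      · exact Or.inr ⟨hx, hxz⟩
    refine (card_le_card e1).trans ((card_insert_le _ _).trans ?_)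
    have := h2 z hz'
    omega
  have hex : ∃ w1, w1 ∈ (W \ Bad) \ {w0} := by
    rw [← Finset.Nonempty, ← Finset.card_pos]
    have e1 := Finset.le_card_sdiff Bad W
    have e2 := Finset.le_card_sdiff {w0} (W \ Bad)
    rw [card_singleton] at e2
    omega
  obtain ⟨w1, hw1⟩ := hex
  rw [mem_sdiff, mem_sdiff, mem_singleton] at hw1
  obtain ⟨⟨hw1W, hw1B⟩, hw10⟩ := hw1
  have hsub : ({w0, w1} : Finset V) ⊆ W := by
    intro x hx
    rw [mem_insert, mem_singleton] at hx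
    rcases hx with rfl | rfl
    · exact hw0
    · exact hw1W
  obtain ⟨B, hB2, hB3, hB4⟩ := Finset.exists_subsuperset_card_eq hsub
    (n := A.card) ((Finset.card_le_two).trans hA) (by omega)
  obtain ⟨e⟩ : Nonempty (A ≃ B) := ⟨Finset.equivOfCardEq hB4.symm⟩
  obtain ⟨c, hc⟩ : ∃ c : ℕ → V, ∀ (t : ℕ) (h : t ∈ A), c t = e ⟨t, h⟩ :=
    ⟨fun t => if h : t ∈ A then (e ⟨t, h⟩ : V) else w0, fun t h => by simp only [dif_pos h]⟩
  have hsur : ∀ w ∈ B, ∃ t ∈ A, c t = w := by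
    intro w hw
    refine ⟨e.symm ⟨w, hw⟩, (e.symm ⟨w, hw⟩).2, ?_⟩
    rw [hc _ (e.symm ⟨w, hw⟩).2]
    simp
  refine ⟨c, ?_, ?_, ?_⟩
  · intro t ht t' ht' h
    have ht1 : t ∈ A := ht
    have ht1' : t' ∈ A := ht'
    rw [hc t ht1, hc t' ht1'] at h
    have h3 := e.injective (Subtype.ext h)
    exact congrArg Subtype.val h3
  · intro t ht
    rw [hc t ht]
    exact hB3 (e ⟨t, ht⟩).2
  · intro z hz
    have hw0B : w0 ∈ B := hB2 (by simp)
    have hw1B' : w1 ∈ B := hB2 (by simp)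
    obtain ⟨t0, ht0, e0⟩ := hsur w0 hw0B
    obtain ⟨t1, ht1, e1⟩ := hsur w1 hw1B'
    by_cases hz0 : z ∈ dg G w0
    · exact Or.inl (mem_nc.2 ⟨t0, ht0, by rw [e0]; exact hz0⟩)
    · by_cases hz1 : z = w0
      · exact Or.inr (mem_image.2 ⟨t0, ht0, by rw [e0, hz1]⟩)
      · have hzm : z ∈ (Z \ dg G w0) \ {w0} := by
          rw [mem_sdiff, mem_sdiff, mem_singleton]
          exact ⟨⟨hz, hz0⟩, hz1⟩
        have h4 : w1 ∉ W \ dg G z := by
          intro h5
          apply hw1B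
          rw [hBad]
          exact mem_biUnion.2 ⟨z, hzm, h5⟩
        have h6 : w1 ∈ dg G z := by
          by_contra h7
          exact h4 (mem_sdiff.2 ⟨hw1W, h7⟩)
        exact Or.inl (mem_nc.2 ⟨t1, ht1, by rw [e1]; exact mem_dg_comm.1 h6⟩)

end Pool.Agent.SFB
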