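import Pool.Agent.SFB.Targets

/-!
# SFB (MP_705b7e_co): the nine cases (target CL2)
-/

set_option autoImplicit false

open Finset

namespace Pool.Agent.SFB

open Pool.Agent.StarF (starForest ramsey)

namespace CL2_

/-- The numbers of points. -/
lemma nums {V : Type} [Fintype V] [DecidableEq V] (G : SimpleGraph V) (X0 : Finset V) (u : V) :
    (dg G u).card = (dg G u ∩ X0).card + (dg G u \ X0).card ∧
    (dg Gᶜ u).card = (dg Gᶜ u ∩ X0).card + (dg Gᶜ u \ X0).card ∧
    (symmDiff (dg G u) X0).card = (dg G u \ X0).card + (X0 \ dg G u).card ∧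
    (symmDiff (dg G u) X0ᶜ).card = (dg G u ∩ X0).card + (X0ᶜ \ dg G u).card ∧
    X0.card = (dg G u ∩ X0).card + (X0 \ dg G u).card ∧
    (X0ᶜ).card = (dg G u \ X0).card + (X0ᶜ \ dg G u).card ∧
    X0.card + (X0ᶜ).card = Fintype.card V ∧
    (X0 \ dg G u).card ≤ (dg Gᶜ u ∩ X0).card + 1 ∧
    (X0ᶜ \ dg G u).card ≤ (dg Gᶜ u \ X0).card + 1 := by
  refine ⟨?_, ?_, ?_, ?_, ?_, ?_, ?_, ?_, ?_⟩
  · exact (card_inter_add_card_sdiff (dg G u) X0).symm
  · exact (card_inter_add_card_sdiff (dg Gᶜ u) X0).symm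
  · rw [symmDiff_def, sup_eq_union, card_union_of_disjoint]
    exact disjoint_sdiff_sdiff
  · rw [symmDiff_def, sup_eq_union, card_union_of_disjoint disjoint_sdiff_sdiff]
    congr 2
    ext w
    simp
  · rw [inter_comm]
    exact (card_inter_add_card_sdiff X0 (dg G u)).symm
  · have h : dg G u \ X0 = X0ᶜ ∩ dg G u := by
      ext w
      simp [and_comm]
    rw [h]
    exact (card_inter_add_card_sdiff X0ᶜ (dg G u)).symm
  · exact card_add_card_compl X0
  · have h : X0 \ dg G u ⊆ insert u (dg Gᶜ u ∩ X0) := by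
      intro w hw
      rw [mem_sdiff] at hw
      rw [mem_insert, mem_inter, mem_dg_compl]
      by_cases h1 : w = u
      · exact Or.inl h1
      · exact Or.inr ⟨⟨h1, hw.2⟩, hw.1⟩
    exact (card_le_card h).trans (card_insert_le _ _)
  · have h : X0ᶜ \ dg G u ⊆ insert u (dg Gᶜ u \ X0) := by
      intro w hw
      rw [mem_sdiff, mem_compl] at hw
      rw [mem_insert, mem_sdiff, mem_dg_compl]
      by_cases h1 : w = u
      · exact Or.inl h1
      · exact Or.inr ⟨⟨h1, hw.2⟩, hw.1⟩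
    exact (card_le_card h).trans (card_insert_le _ _)

end CL2_

/-- CL2. The nine cases. -/
theorem p_CL2 : T_CL2 := by
  intro V _ _ G K L m X0 h1 h2 h3 h4 h5 h6 u h7 h8
  obtain ⟨e1, e2, e3, e4, e5, e6, e7, e8, e9⟩ := CL2_.nums G X0 u
  rw [e3, e4]
  rcases h7 with h7 | h7 | h7 <;> rcases h8 with h8 | h8 | h8 <;> omega

end Pool.Agent.SFB
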