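import Pool.Agent.SFB.Targets

/-!
# SFB, CNV: conversion of fits
-/

set_option autoImplicit false

open Finset

namespace Pool.Agent.SFB

open Pool.Agent.StarF (starForest ramsey)

namespace CNV_

lemma compl_map {k : ℕ} (B : Finset (Fin k)) :
    range k \ B.map Fin.valEmbedding = (Bᶜ).map Fin.valEmbedding := by
  ext t
  simp only [mem_sdiff, mem_range, mem_map, Fin.valEmbedding_apply, mem_compl]
  constructor
  · rintro ⟨ht, h⟩
    exact ⟨⟨t, ht⟩, fun hB => h ⟨⟨t, ht⟩, hB, rfl⟩, rfl⟩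
  · rintro ⟨i, hi, rfl⟩
    refine ⟨i.isLt, ?_⟩
    rintro ⟨j, hj, hji⟩
    exact hi (Fin.val_injective hji ▸ hj)

lemma key {k : ℕ} (a : ℕ → ℕ) (x y : ℕ) (B : Finset (Fin k)) :
    ((∑ t ∈ B.map Fin.valEmbedding, a t + (B.map Fin.valEmbedding).card ≤ x ∧
      ∑ t ∈ range k \ B.map Fin.valEmbedding, a t +
        (range k \ B.map Fin.valEmbedding).card ≤ y) ∨
    (∑ t ∈ B.map Fin.valEmbedding, a t + (range k \ B.map Fin.valEmbedding).card ≤ x ∧
      ∑ t ∈ range k \ B.map Fin.valEmbedding, a t + (B.map Fin.valEmbedding).card ≤ y)) ↔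
    ((∑ i ∈ B, a i + B.card ≤ x ∧ ∑ i ∈ Bᶜ, a i + (Bᶜ).card ≤ y) ∨
    (∑ i ∈ B, a i + (Bᶜ).card ≤ x ∧ ∑ i ∈ Bᶜ, a i + B.card ≤ y)) := by
  rw [compl_map, sum_map, sum_map, card_map, card_map]
  rfl

end CNV_

/-- CNV. -/
theorem p_CNV : T_CNV := by
  intro k a x y
  constructor
  · rintro ⟨A, hA, h⟩
    have hmap : (univ.filter (fun i : Fin k => (i : ℕ) ∈ A)).map Fin.valEmbedding = A := by
      ext t
      simp only [mem_map, mem_filter, mem_univ, true_and, Fin.valEmbedding_apply]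
      constructor
      · rintro ⟨i, hi, rfl⟩
        exact hi
      · intro ht
        exact ⟨⟨t, mem_range.1 (hA ht)⟩, ht, rfl⟩
    refine ⟨univ.filter (fun i : Fin k => (i : ℕ) ∈ A), ?_⟩
    rw [← CNV_.key a x y, hmap]
    exact h
  · rintro ⟨B, h⟩
    refine ⟨B.map Fin.valEmbedding, ?_, (CNV_.key a x y B).2 h⟩
    intro t ht
    obtain ⟨i, -, rfl⟩ := mem_map.1 ht
    exact mem_range.2 i.isLt

end Pool.Agent.SFB
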