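import Pool.Agent.SFB.Targets

/-!
# SFB: proof of the target COL (one colour)
-/

set_option autoImplicit false

open Finset

namespace Pool.Agent.SFB

open Pool.Agent.StarF (starForest ramsey)

namespace COL_

lemma sum_le (a : ℕ → ℕ) {i K : ℕ} (h : i < K) :
    ∑ t ∈ range i, a t + a i ≤ ∑ t ∈ range K, a t := by
  rw [← Finset.sum_range_succ]
  exact Finset.sum_le_sum_of_subset (Finset.range_subset_range.2 h)

lemma ebig {a : ℕ → ℕ} {K q e N : ℕ} (h : Par a K q e N) : 8 * K + 8 ≤ e := by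
  have h1 := h.e1
  have h2 := h.L1
  have h3 := h.l1
  omega

end COL_

open COL_ in
theorem p_COL (hEXT : T_EXT) (hSUR : T_SUR) (hVIO : T_VIO) (hSMA : T_SMA) (hSMB : T_SMB)
    (hTYP : T_TYP) (hSTR : T_STR) : T_COL := by
  intro V _ _ G X P a K q e i c D hP hnc hcov hX hi hch hmax hcX hF1 hF2
  have he := ebig hP
  have hlo := hP.lo
  rw [Finset.sum_range_succ] at hlo
  have hiK : i = K := by
    by_contra hne
    have hlt : i < K := lt_of_le_of_ne hi hne
    have h1 := sum_le a hlt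
    have h2 := hP.max i hi
    obtain ⟨c', D', h3⟩ := hEXT V G X P a (e + K) i (6 * (K + 1)) c D hcov hX hcX hch (by omega)
    exact hmax hlt c' D' h3
  subst hiK
  have hK := hP.hK
  have hsur := hSUR V G a (e + i) i c D hch
  have hvio : ∀ v ∈ X, ∃ J, Vio G a i c v J := by
    intro v hv
    refine hVIO V G a i c v hch.inj ?_ hnc ?_
    · intro J hJ hJn
      have h1 := hsur J hJ hJn
      have h2 := hP.epos
      omega
    · intro hv2
      obtain ⟨t, ht, htv⟩ := Finset.mem_image.1 hv2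
      exact hcX t (Finset.mem_range.1 ht) (htv ▸ hv)
  choose! J hJ using hvio
  have hsum : ∑ t ∈ range i, a t + 2 * a i ≤ Fintype.card V := by omega
  have hq1 : (1 : ℝ) ≤ (q : ℝ) := by exact_mod_cast hP.q1
  have hK0 : (0 : ℝ) ≤ (i : ℝ) := Nat.cast_nonneg i
  have hA := hSMA V G X P a i q e (6 * (i + 1)) c J hcov hX (by omega) hcX hJ hsur hsum hP.up
  have hB := hSMB V G X P a i q e (6 * (i + 1)) c J hcov hX (by omega) hcX hJ hsur hsum hP.up hK
    (by
      have h1 := hP.min 0 (Nat.zero_le i)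
      have h2 := hP.a1
      omega)
  have hcast : ((6 * (i + 1) : ℕ) : ℝ) = 6 * ((i : ℝ) + 1) := by push_cast; ring
  rw [hcast] at hA hB
  have hdeg : ∀ t < i, e ≤ (dg G (c t)).card := by
    intro t ht
    have h1 := hch.sur t ht
    have h2 : (dg G (c t) \ (range t).biUnion D).card ≤ (dg G (c t)).card :=
      Finset.card_le_card Finset.sdiff_subset
    omega
  obtain ⟨⟨v1, hv1X, -, hv1a, hv1b⟩, v2, hv2X, -, hv2a, hv2b⟩ :=
    hTYP V G X P a i q e c J hP hcov hX hJ (hch.top (by omega)) (hdeg 0 (by omega))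
      (by nlinarith) (by nlinarith)
  have hT1 : i + 2 ≤ (univ.filter (fun v => (symmDiff (dg G v) (dg G (c 0))).card ≤
      LL i q)).card := by
    by_contra hcon
    have h1 := hF1 (by omega) v1 hv1X
    omega
  have hT2 : i + 2 ≤ (univ.filter (fun v => (symmDiff (dg G v) (dg G (c 0))ᶜ).card ≤
      LL i q)).card := by
    by_contra hcon
    have h1 := hF2 (by omega) v2 hv2X
    omega
  exact ⟨J v1, J v2, hSTR V G a i q e c v1 v2 (J v1) (J v2) hP hdeg (hJ v1 hv1X) (hJ v2 hv2X)
    hv1a hv1b hv2a hv2b hT1 hT2⟩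

end Pool.Agent.SFB
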