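import Pool.Agent.SFB.Targets

/-!
# SFB, E1B: a vertex of large degree in the small block
-/

set_option autoImplicit false

open Finset

namespace Pool.Agent.SFB

open Pool.Agent.StarF (starForest ramsey)

namespace E1B_

theorem ex_centres {V : Type} [DecidableEq V] (s : Finset V) (K : ℕ) (v : V)
    (h : K ≤ s.card) : ∃ c : ℕ → V, Set.InjOn c (Set.Iio K) ∧ (∀ t < K, c t ∈ s) ∧
      c K = v := by
  obtain ⟨s', hs', hc⟩ := Finset.exists_subset_card_eq h
  let f := s'.equivFinOfCardEq hc
  refine ⟨fun t => if ht : t < K then ((f.symm ⟨t, ht⟩ : s') : V) else v, ?_, ?_, ?_⟩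
  · intro i hi j hj hij
    have hi' : i < K := hi
    have hj' : j < K := hj
    simp only [hi', hj', dif_pos] at hij
    have h1 := Subtype.ext hij
    have h2 := f.symm.injective h1
    exact congrArg Fin.val h2
  · intro t ht
    simp only [ht, dif_pos]
    exact hs' (f.symm ⟨t, ht⟩).2
  · simp

theorem inner_bound {V : Type} [DecidableEq V] {A B : Finset V} {l : ℕ}
    (h : (symmDiff A B).card ≤ l) : (A \ B).card ≤ l ∧ (B \ A).card ≤ l := by
  have h1 : symmDiff A B = (A \ B) ∪ (B \ A) := rfl
  constructor
  · refine le_trans (card_le_card ?_) h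
    rw [h1]
    exact subset_union_left
  · refine le_trans (card_le_card ?_) h
    rw [h1]
    exact subset_union_right

end E1B_

open E1B_ in
theorem p_E1B (hEMB : T_EMB) : T_E1B := by
  intro V _ _ G a K q e X v hP hT hv hd hS
  have hL1 := hP.L1
  have hl1 := hP.l1
  have he1 := hP.e1
  have ha1 := hP.a1
  have hK := hP.hK
  obtain ⟨hv1, -⟩ := inner_bound (hT.inn v hv)
  set l := el K q with hl
  set S := ∑ t ∈ range (K + 1), a t with hSdef
  have hSK : S = ∑ t ∈ range K, a t + a K := by rw [hSdef, sum_range_succ]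
  -- the free points for the centres
  have h1 : (Xᶜ).card ≤ (Xᶜ \ dg G v).card + (dg G v \ X).card := by
    have h2 : Xᶜ ⊆ (Xᶜ \ dg G v) ∪ (dg G v \ X) := by
      intro w hw
      rw [mem_union, mem_sdiff, mem_sdiff]
      rw [mem_compl] at hw
      by_cases h3 : w ∈ dg G v
      · exact Or.inr ⟨h3, hw⟩
      · exact Or.inl ⟨mem_compl.2 hw, h3⟩
    exact (card_le_card h2).trans (card_union_le _ _)
  obtain ⟨c, hc1, hc2, hc3⟩ := ex_centres (Xᶜ \ dg G v) K v (by omega)
  have hcX : ∀ t < K, c t ∉ X := fun t ht => mem_compl.1 (mem_sdiff.1 (hc2 t ht)).1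
  have hcv : ∀ t < K, c t ∉ dg G v := fun t ht => (mem_sdiff.1 (hc2 t ht)).2
  have hCc : ((range (K + 1)).image c).card ≤ K + 1 := by
    refine card_image_le.trans ?_
    rw [card_range]
  have hcard : ∀ A B : Finset V, A.card ≤ (A \ B).card + B.card := by
    intro A B
    have h3 := card_le_card_sdiff_add_card (s := A) (t := B)
    exact h3
  have hinj : Set.InjOn c (Set.Iio (K + 1)) := by
    intro i hi j hj hij
    have hi' : i < K + 1 := hi
    have hj' : j < K + 1 := hj
    rcases Nat.lt_or_ge i K with h4 | h4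
    · rcases Nat.lt_or_ge j K with h5 | h5
      · exact hc1 h4 h5 hij
      · have h6 : j = K := by omega
        rw [h6, hc3] at hij
        exact absurd (hij ▸ hv) (hcX i h4)
    · have h6 : i = K := by omega
      rcases Nat.lt_or_ge j K with h5 | h5
      · rw [h6, hc3] at hij
        exact absurd (hij ▸ hv) (hcX j h5)
      · omega
  refine hEMB V G (K + 1) a c hinj ?_
  intro J hJ hJne
  by_cases hJK : J = {K}
  · subst hJK
    rw [sum_singleton]
    refine hd.trans (card_le_card ?_)
    intro w hw
    rw [mem_sdiff]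
    constructor
    · rw [mem_nc]
      exact ⟨K, mem_singleton_self K, by rw [hc3]; exact hw⟩
    · rw [mem_image]
      rintro ⟨t, ht, rfl⟩
      rw [mem_range] at ht
      rcases Nat.lt_or_ge t K with h4 | h4
      · exact hcv t h4 hw
      · have h6 : t = K := by omega
        rw [h6, hc3] at hw
        exact not_mem_dg hw
  · -- some `t < K` in `J`
    obtain ⟨t, htJ, htK⟩ : ∃ t ∈ J, t < K := by
      by_contra hcon
      push Not at hcon
      apply hJK
      have hall : ∀ t ∈ J, t = K := by
        intro t ht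
        have h5 := hcon t ht
        have h6 := mem_range.1 (hJ ht)
        omega
      exact eq_singleton_iff_nonempty_unique_mem.2 ⟨hJne, hall⟩
    obtain ⟨-, ht2⟩ := inner_bound (hT.out (c t) (hcX t htK))
    have hb := hcard Xᶜ (Xᶜ \ dg G (c t))
    have h7 : (Xᶜ ∩ dg G (c t)) ⊆ nc G c J := by
      intro w hw
      rw [mem_nc]
      exact ⟨t, htJ, (mem_inter.1 hw).2⟩
    have h8 : Xᶜ \ (Xᶜ \ dg G (c t)) = Xᶜ ∩ dg G (c t) := by
      ext w
      simp only [mem_sdiff, mem_inter]
      tauto
    rw [h8] at hb
    have h9 := hcard (nc G c J) ((range (K + 1)).image c)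
    by_cases hKJ : K ∈ J
    · have h10 : (dg G v ∩ X) ∪ (Xᶜ ∩ dg G (c t)) ⊆ nc G c J := by
        refine union_subset ?_ h7
        intro w hw
        rw [mem_nc]
        exact ⟨K, hKJ, by rw [hc3]; exact (mem_inter.1 hw).1⟩
      have h11 : Disjoint (dg G v ∩ X) (Xᶜ ∩ dg G (c t)) := by
        rw [disjoint_left]
        intro w hw hw'
        exact (mem_compl.1 (mem_inter.1 hw').1) (mem_inter.1 hw).2
      have h12 := card_le_card h10
      rw [card_union_of_disjoint h11] at h12
      have h13 := hcard (dg G v) (dg G v \ X)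
      have h14 : dg G v \ (dg G v \ X) = dg G v ∩ X := by
        ext w
        simp only [mem_sdiff, mem_inter]
        tauto
      rw [h14] at h13
      have h15 : ∑ t ∈ J, a t ≤ S := sum_le_sum_of_subset hJ
      omega
    · have h12 := card_le_card h7
      have h15 : ∑ t ∈ J, a t ≤ ∑ t ∈ range K, a t := by
        refine sum_le_sum_of_subset ?_
        intro s hs
        have h16 := mem_range.1 (hJ hs)
        have h17 : s ≠ K := fun h => hKJ (h ▸ hs)
        rw [mem_range]
        omega
      omega

end Pool.Agent.SFB
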