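import Pool.Agent.SFB.Targets

/-!
# SFB, E1R: small degrees in the small block
-/

set_option autoImplicit false

open Finset

namespace Pool.Agent.SFB

open Pool.Agent.StarF (starForest ramsey)

namespace E1R_

theorem ex_centres {V : Type} [DecidableEq V] (s : Finset V) (K : ℕ) (v u : V) (hv : v ∈ s)
    (hu : u ∈ s) (hne : u ≠ v) (hK : 1 ≤ K) (h : K + 1 ≤ s.card) :
    ∃ c : ℕ → V, Set.InjOn c (Set.Iio (K + 1)) ∧ (∀ t < K + 1, c t ∈ s) ∧ c 0 = v ∧ c 1 = u := by
  have h1 : (s.erase v).card = s.card - 1 := card_erase_of_mem hv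
  have h2 : ((s.erase v).erase u).card = (s.erase v).card - 1 :=
    card_erase_of_mem (mem_erase.2 ⟨hne, hu⟩)
  obtain ⟨s', hs', hc⟩ := Finset.exists_subset_card_eq
    (show K - 1 ≤ ((s.erase v).erase u).card by omega)
  let f := s'.equivFinOfCardEq hc
  let c : ℕ → V := fun t => if t = 0 then v else if t = 1 then u else
    if ht : t - 2 < K - 1 then ((f.symm ⟨t - 2, ht⟩ : s') : V) else v
  have hc0 : c 0 = v := by simp [c]
  have hc1 : c 1 = u := by simp [c]
  have hc2 : ∀ t, 2 ≤ t → ∀ ht : t - 2 < K - 1, c t = ((f.symm ⟨t - 2, ht⟩ : s') : V) := by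
    intro t h3 ht
    have h4 : t ≠ 0 := by omega
    have h5 : t ≠ 1 := by omega
    simp only [c, h4, h5, if_false, ht, dif_pos]
  have hc3 : ∀ t, 2 ≤ t → t < K + 1 → c t ∈ (s.erase v).erase u := by
    intro t h3 h4
    rw [hc2 t h3 (by omega)]
    exact hs' (f.symm _).2
  have hc4 : ∀ t, 2 ≤ t → t < K + 1 → c t ≠ u ∧ c t ≠ v ∧ c t ∈ s := by
    intro t h3 h4
    have h5 := hc3 t h3 h4
    rw [mem_erase, mem_erase] at h5
    exact h5
  refine ⟨c, ?_, ?_, hc0, hc1⟩
  · intro i hi j hj hij
    have hi' : i < K + 1 := hi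
    have hj' : j < K + 1 := hj
    rcases Nat.lt_or_ge i 2 with h6 | h6
    · rcases Nat.lt_or_ge j 2 with h7 | h7
      · have h8 : i = 0 ∨ i = 1 := by omega
        have h9 : j = 0 ∨ j = 1 := by omega
        rcases h8 with rfl | rfl
        · rcases h9 with rfl | rfl
          · rfl
          · rw [hc0, hc1] at hij
            exact absurd hij.symm hne
        · rcases h9 with rfl | rfl
          · rw [hc0, hc1] at hij
            exact absurd hij hne
          · rfl
      · have h8 : i = 0 ∨ i = 1 := by omega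
        rcases h8 with rfl | rfl
        · rw [hc0] at hij
          exact absurd hij.symm (hc4 j h7 hj').2.1
        · rw [hc1] at hij
          exact absurd hij.symm (hc4 j h7 hj').1
    · rcases Nat.lt_or_ge j 2 with h7 | h7
      · have h9 : j = 0 ∨ j = 1 := by omega
        rcases h9 with rfl | rfl
        · rw [hc0] at hij
          exact absurd hij (hc4 i h6 hi').2.1
        · rw [hc1] at hij
          exact absurd hij (hc4 i h6 hi').1
      · rw [hc2 i h6 (by omega), hc2 j h7 (by omega)] at hij
        have h10 := f.symm.injective (Subtype.ext hij)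
        have h11 := congrArg Fin.val h10
        simp only at h11
        omega
  · intro t ht
    rcases Nat.lt_or_ge t 2 with h6 | h6
    · have h8 : t = 0 ∨ t = 1 := by omega
      rcases h8 with rfl | rfl
      · rw [hc0]
        exact hv
      · rw [hc1]
        exact hu
    · exact (hc4 t h6 ht).2.2

end E1R_

open E1R_ in
theorem p_E1R (hEMB : T_EMB) : T_E1R := by
  intro V _ _ G a K q e X hP hT hd hX
  have hL1 := hP.L1
  have hl1 := hP.l1
  have he1 := hP.e1
  have ha1 := hP.a1
  have hK := hP.hK
  have hbig := hP.big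
  have hlo := hP.lo
  set l := el K q with hl
  set S := ∑ t ∈ range (K + 1), a t with hSdef
  have hsq : l ^ 2 = l * l := by ring
  rw [hsq] at hbig
  have hcard : ∀ A B : Finset V, A.card ≤ (A \ B).card + B.card := by
    intro A B
    exact card_le_card_sdiff_add_card (s := A) (t := B)
  -- the first centre
  have hXne : X.Nonempty := by
    rw [← card_pos]
    omega
  obtain ⟨v0, hv0⟩ := hXne
  have hin := hT.inn v0 hv0
  set B0 := dg Gᶜ v0 ∩ X with hB0
  have hB0l : B0.card ≤ l := by
    refine le_trans (card_le_card ?_) hin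
    intro w hw
    rw [hB0, mem_inter, mem_dg_compl] at hw
    rw [mem_symmDiff]
    exact Or.inr ⟨hw.2, hw.1.2⟩
  have hB0u : X.card ≤ B0.card + a K := by
    have h1 : X ⊆ (B0 ∪ {v0}) ∪ dg G v0 := by
      intro w hw
      rw [mem_union, mem_union, hB0, mem_inter, mem_dg_compl, mem_singleton]
      by_cases h2 : w ∈ dg G v0
      · exact Or.inr h2
      · by_cases h3 : w = v0
        · exact Or.inl (Or.inr h3)
        · exact Or.inl (Or.inl ⟨⟨h3, h2⟩, hw⟩)
    have h2 := card_le_card h1
    have h3 := card_union_le (B0 ∪ {v0}) (dg G v0)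
    have h4 := card_union_le B0 {v0}
    rw [card_singleton] at h4
    have h5 := hd v0 hv0
    omega
  have hv0B : v0 ∉ B0 := by
    rw [hB0, mem_inter, mem_dg_compl]
    exact fun h => h.1.1 rfl
  -- the bad points
  set Bad := (dg G v0 \ X).biUnion (fun z => dg G z ∩ X) with hBad
  have hBadc : Bad.card ≤ l * l := by
    refine card_biUnion_le_card_mul _ _ l ?_ |>.trans (Nat.mul_le_mul_right _ ?_)
    · intro z hz
      rw [mem_sdiff] at hz
      refine le_trans (card_le_card ?_) (hT.out z hz.2)
      intro w hw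
      rw [mem_inter] at hw
      rw [mem_symmDiff, mem_compl]
      exact Or.inl ⟨hw.1, fun h => h hw.2⟩
    · refine le_trans (card_le_card ?_) hin
      intro w hw
      rw [mem_sdiff] at hw
      rw [mem_symmDiff]
      exact Or.inl hw
  -- the second centre
  obtain ⟨u, hu⟩ : (X \ ((B0 ∪ Bad) ∪ {v0})).Nonempty := by
    rw [← card_pos]
    have h1 := hcard X ((B0 ∪ Bad) ∪ {v0})
    have h2 := card_union_le (B0 ∪ Bad) {v0}
    have h3 := card_union_le B0 Bad
    rw [card_singleton] at h2
    omega
  rw [mem_sdiff, mem_union, mem_union, mem_singleton] at hu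
  push Not at hu
  obtain ⟨huX, ⟨huB, huBad⟩, huv⟩ := hu
  obtain ⟨c, hinj, hcs, hc0, hc1⟩ := ex_centres (X \ B0) K v0 u (mem_sdiff.2 ⟨hv0, hv0B⟩)
    (mem_sdiff.2 ⟨huX, huB⟩) huv hK (by
      have h1 := hcard X B0
      omega)
  have hCc : ((range (K + 1)).image c).card ≤ K + 1 := by
    refine card_image_le.trans ?_
    rw [card_range]
  refine hEMB V Gᶜ (K + 1) a c hinj ?_
  intro J hJ hJne
  by_cases hJK : J = range (K + 1)
  · rw [hJK]
    have h1 : Xᶜ ∪ B0 ⊆ nc Gᶜ c (range (K + 1)) \ (range (K + 1)).image c := by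
      intro z hz
      rw [mem_sdiff]
      constructor
      · rw [mem_nc]
        rw [mem_union] at hz
        by_cases h2 : z ∈ dg Gᶜ v0
        · exact ⟨0, mem_range.2 (by omega), by rw [hc0]; exact h2⟩
        · rcases hz with hz | hz
          · rw [mem_compl] at hz
            refine ⟨1, mem_range.2 (by omega), ?_⟩
            rw [hc1, mem_dg_compl]
            have h3 : z ∈ dg G v0 := by
              by_contra h4
              exact h2 (mem_dg_compl.2 ⟨fun h5 => hz (h5 ▸ hv0), h4⟩)
            refine ⟨fun h5 => hz (h5 ▸ huX), fun h5 => huBad ?_⟩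
            rw [hBad, mem_biUnion]
            exact ⟨z, mem_sdiff.2 ⟨h3, hz⟩, mem_inter.2 ⟨mem_dg_comm.1 h5, huX⟩⟩
          · exact absurd (mem_inter.1 hz).1 h2
      · rw [mem_image]
        rintro ⟨t, ht, rfl⟩
        have h2 := hcs t (mem_range.1 ht)
        rw [mem_sdiff] at h2
        rw [mem_union, mem_compl] at hz
        rcases hz with hz | hz
        · exact hz h2.1
        · exact h2.2 hz
    have h2 : Disjoint Xᶜ B0 := by
      rw [disjoint_left]
      intro w hw hw'
      exact (mem_compl.1 hw) (mem_inter.1 hw').2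
    have h3 := card_le_card h1
    rw [card_union_of_disjoint h2] at h3
    have h4 := card_add_card_compl X
    omega
  · obtain ⟨t, ht⟩ := hJne
    have htK : t < K + 1 := mem_range.1 (hJ ht)
    have hct := (mem_sdiff.1 (hcs t htK)).1
    have h1 : univ ⊆ (nc Gᶜ c J ∪ {c t}) ∪ dg G (c t) := by
      intro w _
      rw [mem_union, mem_union, mem_nc, mem_singleton]
      by_cases h2 : w ∈ dg G (c t)
      · exact Or.inr h2
      · by_cases h3 : w = c t
        · exact Or.inl (Or.inr h3)
        · exact Or.inl (Or.inl ⟨t, ht, mem_dg_compl.2 ⟨h3, h2⟩⟩)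
    have h2 := card_le_card h1
    rw [card_univ] at h2
    have h3 := card_union_le (nc Gᶜ c J ∪ {c t}) (dg G (c t))
    have h4 := card_union_le (nc Gᶜ c J) {c t}
    rw [card_singleton] at h4
    have h5 := hd (c t) hct
    have h6 := hcard (nc Gᶜ c J) ((range (K + 1)).image c)
    -- a missing index
    obtain ⟨s, hs, hsJ⟩ : ∃ s ∈ range (K + 1), s ∉ J := by
      by_contra hcon
      push Not at hcon
      exact hJK (Subset.antisymm hJ hcon)
    have h7 : ∑ t ∈ J, a t + a s ≤ S := by
      rw [hSdef, ← sum_erase_add _ _ hs]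
      refine Nat.add_le_add_right (sum_le_sum_of_subset ?_) _
      intro j hj
      rw [mem_erase]
      exact ⟨fun h => hsJ (h ▸ hj), hJ hj⟩
    have h8 := hP.min s (by have := mem_range.1 hs; omega)
    omega

end Pool.Agent.SFB
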