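import Pool.Agent.SFB.Targets

/-!
# SFB, EQS: equal sizes
-/

set_option autoImplicit false

open Finset

namespace Pool.Agent.SFB

open Pool.Agent.StarF (starForest ramsey)

namespace EQS_

lemma arith {k p n j m : ℕ} (h1 : k ≤ 2 * p) (h2 : 2 * p ≤ k + 1) (hk : 2 ≤ k)
    (hn : 2 * k + 2 ≤ n) (hjm : j + m = k) :
    ¬ ((j * n + j ≤ p * n + (k - p - 1) ∧ m * n + m + 2 ≤ (k + 1 - p) * n + p) ∨
      (j * n + m ≤ p * n + (k - p - 1) ∧ m * n + j + 2 ≤ (k + 1 - p) * n + p)) := by
  rcases lt_or_ge j p with hj | hj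
  · have hm : k + 1 - p ≤ m := by omega
    rcases Nat.eq_or_lt_of_le hm with h | h
    · have e : m * n = (k + 1 - p) * n := by rw [← h]
      omega
    · have h3 : (k + 1 - p + 1) * n ≤ m * n := Nat.mul_le_mul_right n h
      rw [Nat.add_mul, Nat.one_mul] at h3
      omega
  · rcases Nat.eq_or_lt_of_le hj with h | h
    · have e : j * n = p * n := by rw [← h]
      omega
    · have h3 : (p + 1) * n ≤ j * n := Nat.mul_le_mul_right n h
      rw [Nat.add_mul, Nat.one_mul] at h3
      omega

end EQS_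

/-- EQS: equal sizes. -/
theorem p_EQS : T_EQS := by
  intro K n hK hn
  obtain ⟨p, h1, h2⟩ : ∃ p : ℕ, K + 1 ≤ 2 * p ∧ 2 * p ≤ K + 2 := ⟨(K + 2) / 2, by omega, by omega⟩
  refine ⟨p * n + (K + 1 - p - 1), (K + 2 - p) * n + p - 2, ?_, ?_⟩
  · have e : p * n + (K + 2 - p) * n = (K + 2) * n := by
      rw [← Nat.add_mul]
      congr 1
      omega
    have h3 : n ≤ (K + 2 - p) * n := Nat.le_mul_of_pos_left n (by omega)
    omega
  · rintro ⟨A, hA, h⟩
    have hc : A.card + (range (K + 1) \ A).card = K + 1 := by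
      rw [card_sdiff_of_subset hA, card_range]
      have := card_le_card hA
      rw [card_range] at this
      omega
    have h3 : n ≤ (K + 2 - p) * n := Nat.le_mul_of_pos_left n (by omega)
    simp only [sum_const, smul_eq_mul] at h
    refine EQS_.arith h1 h2 (by omega) (by omega) hc (n := n) ?_
    have e1 : K + 1 + 1 - p = K + 2 - p := by omega
    rw [e1]
    rcases h with h | h
    · left
      omega
    · right
      omega

end Pool.Agent.SFB
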