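import Pool.Agent.SFB.Targets

/-!
# SFB-EX2: two large blocks
-/

set_option autoImplicit false

open Finset

namespace Pool.Agent.SFB

open Pool.Agent.StarF (starForest ramsey)

namespace EX2_

lemma big {a : ℕ → ℕ} {K q e N : ℕ} (h : Par a K q e N) :
    el K q * (el K q + 1) + (K + 1) < a K ∧ 2 * K + 2 * el K q ≤ 4 * e ∧ 1 ≤ el K q ∧
      el K q ≤ a K := by
  have h1 := h.big
  have h2 := h.L1
  have h3 := h.l1
  have h4 := h.e1
  have h5 := h.a1
  have h6 : el K q * (el K q + 1) = (el K q) ^ 2 + el K q := by ring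
  refine ⟨?_, by omega, by omega, by omega⟩
  rw [h6]
  omega

/-- A large star does not fit with slack in `X`: then everything fits with slack. -/
lemma single (hFTB : T_FTB) {V : Type} [Fintype V] [DecidableEq V] {G : SimpleGraph V}
    {a : ℕ → ℕ} {K q e : ℕ} {X : Finset V} (hP : Par a K q e (Fintype.card V))
    (hT : Two G X (el K q)) (hX : a K + 4 * el K q ≤ X.card)
    (hXc : a K + 4 * el K q ≤ (Xᶜ).card) {t : ℕ} (ht : t ≤ K)
    (hlt : X.card < a t + (K + 1) + el K q) : Con G (K + 1) a := by
  obtain ⟨b1, b2, b3, b4⟩ := big hP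
  have hsum : X.card + (Xᶜ).card = Fintype.card V := X.card_add_card_compl
  have hlo := hP.lo
  rw [sum_range_succ] at hlo
  have hmax := hP.max t ht
  have hbig : ∑ t ∈ range K, a t + K + el K q ≤ (Xᶜ).card := by omega
  refine hFTB V G (K + 1) (el K q) (a K) a {K} (range K) X hT ?_ ?_ ?_ b4 ?_ ?_ ?_ ?_ ?_ ?_
  · rw [union_comm, range_add_one]
    ext x
    simp
  · rw [disjoint_singleton_left]
    simp
  · intro t ht
    exact hP.min t (by omega)
  · omega
  · omega
  · simp only [sum_singleton, card_singleton]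
    omega
  · rw [card_range]
    omega
  · intro _
    simp only [sum_singleton, card_singleton]
    omega
  · intro _
    rw [card_range]
    omega

end EX2_

open EX2_

theorem p_EX2 (hFTB : T_FTB) (hFTR : T_FTR) : T_EX2 := by
  intro V _ _ G a K q e X hP hT hX hXc hf
  obtain ⟨A, hA, hor⟩ := hf
  obtain ⟨b1, b2, b3, b4⟩ := big hP
  have hXX : (Xᶜ)ᶜ = X := compl_compl X
  have cA : A.card ≤ K + 1 := by
    have := card_le_card hA
    rwa [card_range] at this
  have cA' : (range (K + 1) \ A).card ≤ K + 1 := by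
    have := card_le_card (sdiff_subset : range (K + 1) \ A ⊆ range (K + 1))
    rwa [card_range] at this
  by_cases h1 : A.card = 1 → ∑ t ∈ A, a t + (K + 1) + el K q ≤ X.card
  swap
  · left
    rw [Classical.not_imp] at h1
    obtain ⟨h1, h2⟩ := h1
    obtain ⟨t, rfl⟩ := card_eq_one.1 h1
    rw [sum_singleton] at h2
    have ht : t ∈ range (K + 1) := hA (mem_singleton_self t)
    exact single hFTB hP hT hX hXc (by simpa [Nat.lt_succ_iff] using ht) (by omega)
  by_cases h2 : (range (K + 1) \ A).card = 1 →
      ∑ t ∈ range (K + 1) \ A, a t + (K + 1) + el K q ≤ (Xᶜ).card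
  swap
  · left
    rw [Classical.not_imp] at h2
    obtain ⟨h2, h3⟩ := h2
    obtain ⟨t, ht⟩ := card_eq_one.1 h2
    rw [ht, sum_singleton] at h3
    have ht' : t ∈ range (K + 1) := by
      have : t ∈ range (K + 1) \ A := by
        rw [ht]
        exact mem_singleton_self t
      exact (mem_sdiff.1 this).1
    have hXc' : a K + 4 * el K q ≤ ((Xᶜ)ᶜ).card := by rw [hXX]; exact hX
    exact single hFTB hP hT.symm hXc hXc' (by simpa [Nat.lt_succ_iff] using ht') (by omega)
  have hu : A ∪ range (K + 1) \ A = range (K + 1) := union_sdiff_of_subset hA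
  have hd : Disjoint A (range (K + 1) \ A) := disjoint_sdiff
  have hm : ∀ t < K + 1, a K ≤ a t := fun t ht => hP.min t (by omega)
  rcases hor with ⟨h3, h4⟩ | ⟨h3, h4⟩
  · left
    refine hFTB V G (K + 1) (el K q) (a K) a A (range (K + 1) \ A) X hT hu hd hm b4 (by omega)
      (by omega) h3 h4 ?_ ?_
    · intro h5
      have := h1 h5
      omega
    · intro h5
      have := h2 h5
      omega
  · right
    refine hFTR V G (K + 1) (el K q) (a K) a A (range (K + 1) \ A) X hT hu hd hm b4 (by omega)
      (by omega) h3 h4 ?_ ?_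
    · intro h5
      have := h1 h5
      omega
    · intro h5
      have := h2 h5
      omega

end Pool.Agent.SFB
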