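import Pool.Agent.SFB.Targets

/-!
# SFB: target EXA, exactness
-/

set_option autoImplicit false

open Finset

namespace Pool.Agent.SFB

open Pool.Agent.StarF (starForest ramsey)

theorem EXA_.side (hE1B : T_E1B) (hE1R : T_E1R) (V : Type) [Fintype V] [DecidableEq V]
    (G : SimpleGraph V) (a : ℕ → ℕ) (K q e : ℕ) (X : Finset V)
    (hP : Par a K q e (Fintype.card V)) (hT : Two G X (el K q))
    (h1 : a K ≤ X.card + el K q) (h3 : X.card < a K + 4 * el K q) :
    Con G (K + 1) a ∨ Con Gᶜ (K + 1) a := by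
  have hN : X.card + (Xᶜ).card = Fintype.card V := Finset.card_add_card_compl X
  have hlo := hP.lo
  by_cases h : ∃ v ∈ X, a K ≤ (dg G v).card
  · obtain ⟨v, hv, hd⟩ := h
    exact Or.inl (hE1B V G a K q e X v hP hT hv hd (by omega))
  · push Not at h
    exact Or.inr (hE1R V G a K q e X hP hT h h1)

theorem p_EXA (hEX2 : T_EX2) (hE1B : T_E1B) (hE1R : T_E1R) : T_EXA := by
  intro V _ _ G a K q e X hP hT h1 h2 hf
  by_cases h3 : X.card < a K + 4 * el K q
  · exact EXA_.side hE1B hE1R V G a K q e X hP hT h1 h3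
  · by_cases h4 : (Xᶜ).card < a K + 4 * el K q
    · exact EXA_.side hE1B hE1R V G a K q e Xᶜ hP hT.symm h2 h4
    · exact hEX2 V G a K q e X hP hT (by omega) (by omega) hf

end Pool.Agent.SFB
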