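import Pool.Agent.SFB.Targets

/-!
# SFB: FIT, the exact embedding
-/

set_option autoImplicit false

open Finset

namespace Pool.Agent.SFB

open Pool.Agent.StarF (starForest ramsey)

namespace FIT_

set_option linter.unusedSectionVars false

variable {V : Type} [Fintype V] [DecidableEq V]

theorem nc_congr {G : SimpleGraph V} {c c' : ℕ → V} {J : Finset ℕ}
    (h : ∀ t ∈ J, c t = c' t) : nc G c J = nc G c' J := by
  ext w
  rw [mem_nc, mem_nc]
  constructor
  · rintro ⟨t, ht, hw⟩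
    exact ⟨t, ht, by rwa [← h t ht]⟩
  · rintro ⟨t, ht, hw⟩
    exact ⟨t, ht, by rwa [h t ht]⟩

theorem sdiff_bd {Z C : Finset V} {n : ℕ} (h : (C ∩ Z).card ≤ n) :
    Z.card ≤ (Z \ C).card + n := by
  have h1 := card_sdiff_add_card_inter Z C
  rw [inter_comm] at h1
  omega

theorem one {G : SimpleGraph V} {Z C : Finset V} {c : ℕ → V} {B : Finset ℕ} {n l t : ℕ}
    (ht : t ∈ B) (hC : c t ∈ C) (hn : (C ∩ Z).card ≤ n)
    (hl : ((Z \ dg G (c t)) \ {c t}).card ≤ l) :
    Z.card ≤ ((nc G c B ∩ Z) \ C).card + n + l := by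
  have h1 := sdiff_bd hn
  have h2 : Z \ C ⊆ ((nc G c B ∩ Z) \ C) ∪ ((Z \ dg G (c t)) \ {c t}) := by
    intro z hz
    rw [mem_sdiff] at hz
    by_cases h3 : z ∈ dg G (c t)
    · rw [mem_union, mem_sdiff, mem_inter]
      exact Or.inl ⟨⟨mem_nc.2 ⟨t, ht, h3⟩, hz.1⟩, hz.2⟩
    · refine mem_union_right _ (mem_sdiff.2 ⟨mem_sdiff.2 ⟨hz.1, h3⟩, fun h => ?_⟩)
      rw [mem_singleton] at h
      exact hz.2 (h ▸ hC)
  have h3 := (card_le_card h2).trans (card_union_le _ _)
  omega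

theorem side (hCEN : T_CEN) (G : SimpleGraph V) (k l m : ℕ) (a : ℕ → ℕ) (A : Finset ℕ)
    (W Z : Finset V) (n : ℕ) (hA : A ⊆ range k) (hm : ∀ t < k, m ≤ a t) (hlm : l ≤ m)
    (hW : l * (l + 1) + k < W.card) (h1 : ∀ w ∈ W, ((Z \ dg G w) \ {w}).card ≤ l)
    (h2 : ∀ z ∈ Z, ((W \ dg G z) \ {z}).card ≤ l) (hn : ∑ t ∈ A, a t + n ≤ Z.card)
    (hn1 : A.card = 1 → ∑ t ∈ A, a t + n + l ≤ Z.card) :
    ∃ cA : ℕ → V, Set.InjOn cA A ∧ (∀ t ∈ A, cA t ∈ W) ∧
      ∀ c : ℕ → V, (∀ t ∈ A, c t = cA t) → ∀ B ⊆ A, ∀ C : Finset V, (∀ t ∈ A, c t ∈ C) →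
      (C ∩ Z).card ≤ n → ∑ t ∈ B, a t ≤ ((nc G c B ∩ Z) \ C).card := by
  have hAk : A.card ≤ k := by
    have := card_le_card hA
    rwa [card_range] at this
  have hgen : ∀ cA : ℕ → V, (∀ t ∈ A, cA t ∈ W) → ∀ c : ℕ → V, (∀ t ∈ A, c t = cA t) →
      ∀ B ⊆ A, B ≠ A → ∀ C : Finset V, (∀ t ∈ A, c t ∈ C) → (C ∩ Z).card ≤ n →
      ∑ t ∈ B, a t ≤ ((nc G c B ∩ Z) \ C).card := by
    intro cA hcA c hc B hB hne C hC hCn
    rcases B.eq_empty_or_nonempty with rfl | ⟨t, ht⟩
    · simp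
    · obtain ⟨t', ht', hnt'⟩ : ∃ t' ∈ A, t' ∉ B := by
        by_contra hcon
        push Not at hcon
        exact hne (Subset.antisymm hB hcon)
      have h3 := one (G := G) (Z := Z) (C := C) (c := c) (B := B) (n := n) (l := l) ht
        (hC t (hB ht)) hCn (by
          rw [hc t (hB ht)]
          exact h1 _ (hcA t (hB ht)))
      have h4 : ∑ s ∈ insert t' B, a s ≤ ∑ s ∈ A, a s :=
        sum_le_sum_of_subset (insert_subset ht' hB)
      rw [sum_insert hnt'] at h4
      have h5 := hm t' (mem_range.1 (hA ht'))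
      omega
  by_cases h2c : 2 ≤ A.card
  · obtain ⟨cA, hinj, hcW, hdom⟩ := hCEN V G W Z l A h2c (by omega) h1 h2
    refine ⟨cA, hinj, hcW, fun c hc B hB C hC hCn => ?_⟩
    by_cases hBA : B = A
    · subst hBA
      have h3 := sdiff_bd hCn
      have h4 : Z \ C ⊆ (nc G c B ∩ Z) \ C := by
        intro z hz
        rw [mem_sdiff] at hz ⊢
        rw [mem_inter]
        refine ⟨⟨?_, hz.1⟩, hz.2⟩
        rcases hdom z hz.1 with h5 | h5
        · rwa [nc_congr hc]
        · rw [mem_image] at h5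
          obtain ⟨t, ht, rfl⟩ := h5
          rw [← hc t ht] at hz
          exact absurd (hC t ht) hz.2
      have h5 := card_le_card h4
      omega
    · exact hgen cA hcW c hc B hB hBA C hC hCn
  · obtain ⟨w, hw⟩ : W.Nonempty := card_pos.1 (by omega)
    refine ⟨fun _ => w, ?_, fun t _ => hw, fun c hc B hB C hC hCn => ?_⟩
    · intro s hs t ht _
      exact card_le_one.1 (by omega) s hs t ht
    · by_cases hBA : B = A
      · subst hBA
        rcases B.eq_empty_or_nonempty with rfl | ⟨t, ht⟩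
        · simp
        · have h4 : B.card = 1 := by
            have := card_pos.2 ⟨t, ht⟩
            omega
          have h3 := one (G := G) (Z := Z) (C := C) (c := c) (B := B) (n := n) (l := l) ht
            (hC t ht) hCn (by
              rw [hc t ht]
              exact h1 _ hw)
          have h5 := hn1 h4
          omega
      · exact hgen (fun _ => w) (fun _ _ => hw) c hc B hB hBA C hC hCn

end FIT_

open FIT_ in
theorem p_FIT (hEMB : T_EMB) (hCEN : T_CEN) : T_FIT := by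
  intro V _ _ G k l m a A A' W W' Z Z' n n' hAA hdA hdW hdZ hm hlm hW hW' h1 h2 h1' h2' hC hn hn'
    hn1 hn1'
  have hAk : A ⊆ range k := by
    rw [← hAA]
    exact subset_union_left
  have hAk' : A' ⊆ range k := by
    rw [← hAA]
    exact subset_union_right
  obtain ⟨cA, hi, hcW, hs⟩ := side hCEN G k l m a A W Z n hAk hm hlm hW h1 h2 hn hn1
  obtain ⟨cA', hi', hcW', hs'⟩ := side hCEN G k l m a A' W' Z' n' hAk' hm hlm hW' h1' h2' hn'
    hn1'
  obtain ⟨c, hcA, hcA'⟩ : ∃ c : ℕ → V, (∀ t ∈ A, c t = cA t) ∧ ∀ t ∈ A', c t = cA' t := by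
    refine ⟨fun t => if t ∈ A then cA t else cA' t, fun t ht => if_pos ht, fun t ht => ?_⟩
    exact if_neg fun h => disjoint_left.1 hdA h ht
  have himg : (range k).image c = A.image cA ∪ A'.image cA' := by
    rw [← hAA, image_union]
    congr 1
    · exact image_congr fun t ht => hcA t ht
    · exact image_congr fun t ht => hcA' t ht
  have hsz := hC (A.image cA) (A'.image cA') (fun w hw => by
      obtain ⟨t, ht, rfl⟩ := mem_image.1 hw
      exact hcW t ht) (card_image_of_injOn hi) (fun w hw => by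
      obtain ⟨t, ht, rfl⟩ := mem_image.1 hw
      exact hcW' t ht) (card_image_of_injOn hi')
  rw [← himg] at hsz
  have hmem : ∀ t, t ∈ range k → t ∈ A ∨ t ∈ A' := fun t ht => by
    rwa [← hAA, mem_union] at ht
  refine hEMB V G k a c ?_ fun J hJ _ => ?_
  · intro s hs1 t ht1 hst
    have hs2 := hmem s (mem_range.2 hs1)
    have ht2 := hmem t (mem_range.2 ht1)
    rcases hs2 with hs2 | hs2 <;> rcases ht2 with ht2 | ht2
    · rw [hcA s hs2, hcA t ht2] at hst
      exact hi hs2 ht2 hst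
    · rw [hcA s hs2, hcA' t ht2] at hst
      exact absurd (hst ▸ hcW s hs2) (fun h => disjoint_left.1 hdW h (hcW' t ht2))
    · rw [hcA' s hs2, hcA t ht2] at hst
      exact absurd (hst ▸ hcW' s hs2) (fun h => disjoint_left.1 hdW (hcW t ht2) h)
    · rw [hcA' s hs2, hcA' t ht2] at hst
      exact hi' hs2 ht2 hst
  · have h3 := hs c hcA (J ∩ A) inter_subset_right ((range k).image c)
      (fun t ht => mem_image_of_mem c (hAk ht)) hsz.1
    have h4 := hs' c hcA' (J ∩ A') inter_subset_right ((range k).image c)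
      (fun t ht => mem_image_of_mem c (hAk' ht)) hsz.2
    have h5 : ∑ t ∈ J, a t = ∑ t ∈ J ∩ A, a t + ∑ t ∈ J ∩ A', a t := by
      rw [← sum_union]
      · congr 1
        rw [← inter_union_distrib_left, hAA, inter_eq_left.2 hJ]
      · exact disjoint_left.2 fun t h6 h7 =>
          disjoint_left.1 hdA (mem_inter.1 h6).2 (mem_inter.1 h7).2
    have h6 : Disjoint ((nc G c (J ∩ A) ∩ Z) \ (range k).image c)
        ((nc G c (J ∩ A') ∩ Z') \ (range k).image c) :=
      disjoint_left.2 fun w h7 h8 => disjoint_left.1 hdZ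
        (mem_inter.1 (mem_sdiff.1 h7).1).2 (mem_inter.1 (mem_sdiff.1 h8).1).2
    have h7 : ((nc G c (J ∩ A) ∩ Z) \ (range k).image c) ∪
        ((nc G c (J ∩ A') ∩ Z') \ (range k).image c) ⊆ nc G c J \ (range k).image c := by
      intro w hw
      rw [mem_union, mem_sdiff, mem_sdiff, mem_inter, mem_inter, mem_nc, mem_nc] at hw
      rw [mem_sdiff, mem_nc]
      rcases hw with ⟨⟨⟨t, ht, hw⟩, -⟩, hw'⟩ | ⟨⟨⟨t, ht, hw⟩, -⟩, hw'⟩
      · exact ⟨⟨t, (mem_inter.1 ht).1, hw⟩, hw'⟩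
      · exact ⟨⟨t, (mem_inter.1 ht).1, hw⟩, hw'⟩
    have h8 := card_le_card h7
    rw [card_union_of_disjoint h6] at h8
    omega

end Pool.Agent.SFB
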