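import Pool.Agent.SFB.Targets

/-!
# SFB: the target T_FTB
-/

set_option autoImplicit false

open Finset

namespace Pool.Agent.SFB

open Pool.Agent.StarF (starForest ramsey)

lemma FTB_le {V : Type} [Fintype V] [DecidableEq V] (G : SimpleGraph V) (X : Finset V) (l : ℕ)
    (w : V) (h : (symmDiff (dg G w) X).card ≤ l) : ((X \ dg G w) \ {w}).card ≤ l := by
  refine le_trans (Finset.card_le_card ?_) h
  intro z hz
  rw [mem_sdiff, mem_sdiff] at hz
  rw [Finset.mem_symmDiff]
  exact Or.inr ⟨hz.1.1, hz.1.2⟩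

theorem p_FTB (hFIT : T_FIT) : T_FTB := by
  intro V _ _ G k l m a A A' X hT hA hd hm hl h1 h2 h3 h4 h5 h6
  have hi : ∀ w ∈ X, ((X \ dg G w) \ {w}).card ≤ l := fun w hw =>
    FTB_le G X l w (hT.inn w hw)
  have ho : ∀ w ∈ Xᶜ, ((Xᶜ \ dg G w) \ {w}).card ≤ l := fun w hw =>
    FTB_le G Xᶜ l w (hT.out w (mem_compl.1 hw))
  refine hFIT V G k l m a A A' X Xᶜ X Xᶜ A.card A'.card hA hd disjoint_compl_right
    disjoint_compl_right hm hl h1 h2 hi hi ho ho ?_ h3 h4 h5 h6
  intro C C' hC hcC hC' hcC'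
  constructor
  · rw [← hcC]
    apply Finset.card_le_card
    intro z hz
    rw [mem_inter, mem_union] at hz
    rcases hz.1 with h | h
    · exact h
    · exact absurd hz.2 (mem_compl.1 (hC' h))
  · rw [← hcC']
    apply Finset.card_le_card
    intro z hz
    rw [mem_inter, mem_union] at hz
    rcases hz.1 with h | h
    · exact absurd (hC h) (mem_compl.1 hz.2)
    · exact h

end Pool.Agent.SFB
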