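import Pool.Agent.SFB.Targets

/-!
# SFB: FTR, embedding between the blocks
-/

set_option autoImplicit false

open Finset

namespace Pool.Agent.SFB

open Pool.Agent.StarF (starForest ramsey)

namespace FTR_

variable {V : Type} [Fintype V] [DecidableEq V]

lemma aux {G : SimpleGraph V} {X S : Finset V} {w : V} {l : ℕ}
    (h : (symmDiff (dg G w) S).card ≤ l) (hXS : Disjoint X S) :
    ((X \ dg Gᶜ w) \ {w}).card ≤ l := by
  refine (card_le_card ?_).trans h
  intro x hx
  rw [mem_sdiff, mem_sdiff, mem_singleton, mem_dg_compl] at hx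
  obtain ⟨⟨h1, h2⟩, h3⟩ := hx
  rw [mem_symmDiff]
  left
  refine ⟨?_, fun h4 => disjoint_left.1 hXS h1 h4⟩
  by_contra h4
  exact h2 ⟨h3, h4⟩

end FTR_

open FTR_

theorem p_FTR (hFIT : T_FIT) : T_FTR := by
  intro V _ _ G k l m a A A' X hT hU hD hm hl hX hXc hs hs' h1 h1'
  have hd : Disjoint X Xᶜ := disjoint_compl_right
  refine hFIT V Gᶜ k l m a A A' Xᶜ X X Xᶜ A'.card A.card hU hD hd.symm hd hm hl hXc hX
    ?_ ?_ ?_ ?_ ?_ hs hs' h1 h1'
  · intro w hw
    exact aux (hT.out w (mem_compl.1 hw)) hd
  · intro z hz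
    exact aux (hT.inn z hz) hd.symm
  · intro w hw
    exact aux (hT.inn w hw) hd.symm
  · intro z hz
    exact aux (hT.out z (mem_compl.1 hz)) hd
  · intro C C' hC hCc hC' hC'c
    constructor
    · rw [← hC'c]
      apply card_le_card
      intro x hx
      rw [mem_inter, mem_union] at hx
      rcases hx.1 with h | h
      · exact absurd hx.2 (mem_compl.1 (hC h))
      · exact h
    · rw [← hCc]
      apply card_le_card
      intro x hx
      rw [mem_inter, mem_union] at hx
      rcases hx.1 with h | h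
      · exact h
      · exact absurd (hC' h) (mem_compl.1 hx.2)

end Pool.Agent.SFB
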