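import Pool.Agent.SFB.Targets

/-!
# SFB: the basic inequality
-/

set_option autoImplicit false

open Finset

namespace Pool.Agent.SFB

open Pool.Agent.StarF (starForest ramsey)

theorem p_INE : T_INE := by
  intro V _ _ G a K c v J D hV hD
  obtain ⟨hJ, hcard⟩ := hV
  set W : Finset V := ((dg G v ∪ nc G c J) \ (range K).image c) \ {v} with hW
  set A1 : Finset V := dg G v ∩ Out K c D with hA1
  set A2 : Finset V := dg G v ∩ (range K \ J).biUnion D with hA2
  set A3 : Finset V := ((nc G c J ∩ Out K c D) \ dg G v) \ {v} with hA3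
  set A4 : Finset V := J.biUnion D \ {v} with hA4
  have hOut : ∀ x, x ∈ Out K c D → x ∉ (range K).image c ∧ ∀ t < K, x ∉ D t := by
    intro x hx
    simp only [Out, mem_sdiff, mem_univ, true_and, mem_union, not_or] at hx
    refine ⟨hx.1, fun t ht hxt => hx.2 ?_⟩
    exact mem_biUnion.2 ⟨t, mem_range.2 ht, hxt⟩
  have hCD : ∀ t < K, ∀ x ∈ D t, x ∉ (range K).image c := fun t ht x hx h =>
    (disjoint_left.1 (hD.avC t ht)) hx h
  have hvne : ∀ x ∈ dg G v, x ∉ ({v} : Finset V) := by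
    intro x hx h
    rw [mem_singleton] at h
    rw [h] at hx
    exact not_mem_dg hx
  have h1 : A1 ⊆ W := by
    intro x hx
    rw [hA1, mem_inter] at hx
    rw [hW, mem_sdiff, mem_sdiff, mem_union]
    exact ⟨⟨Or.inl hx.1, (hOut x hx.2).1⟩, hvne x hx.1⟩
  have h2 : A2 ⊆ W := by
    intro x hx
    rw [hA2, mem_inter, mem_biUnion] at hx
    obtain ⟨hx1, t, ht, hxt⟩ := hx
    rw [mem_sdiff, mem_range] at ht
    rw [hW, mem_sdiff, mem_sdiff, mem_union]
    exact ⟨⟨Or.inl hx1, hCD t ht.1 x hxt⟩, hvne x hx1⟩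
  have h3 : A3 ⊆ W := by
    intro x hx
    rw [hA3, mem_sdiff, mem_sdiff, mem_inter] at hx
    rw [hW, mem_sdiff, mem_sdiff, mem_union]
    exact ⟨⟨Or.inr hx.1.1.1, (hOut x hx.1.1.2).1⟩, hx.2⟩
  have h4 : A4 ⊆ W := by
    intro x hx
    rw [hA4, mem_sdiff, mem_biUnion] at hx
    obtain ⟨⟨t, ht, hxt⟩, hxv⟩ := hx
    have htK : t < K := mem_range.1 (hJ ht)
    rw [hW, mem_sdiff, mem_sdiff, mem_union]
    exact ⟨⟨Or.inr (mem_nc.2 ⟨t, ht, hD.sub t htK hxt⟩), hCD t htK x hxt⟩, hxv⟩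
  have d12 : Disjoint A1 A2 := by
    rw [disjoint_left]
    intro x hx hx'
    rw [hA1, mem_inter] at hx
    rw [hA2, mem_inter, mem_biUnion] at hx'
    obtain ⟨-, t, ht, hxt⟩ := hx'
    rw [mem_sdiff, mem_range] at ht
    exact (hOut x hx.2).2 t ht.1 hxt
  have d123 : Disjoint (A1 ∪ A2) A3 := by
    rw [disjoint_left]
    intro x hx hx'
    rw [hA3, mem_sdiff, mem_sdiff] at hx'
    rw [mem_union, hA1, hA2, mem_inter, mem_inter] at hx
    rcases hx with hx | hx
    · exact hx'.1.2 hx.1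
    · exact hx'.1.2 hx.1
  have d1234 : Disjoint ((A1 ∪ A2) ∪ A3) A4 := by
    rw [disjoint_left]
    intro x hx hx'
    rw [hA4, mem_sdiff, mem_biUnion] at hx'
    obtain ⟨⟨t, ht, hxt⟩, -⟩ := hx'
    have htK : t < K := mem_range.1 (hJ ht)
    rw [mem_union, mem_union, hA1, hA2, hA3, mem_inter, mem_inter, mem_sdiff, mem_sdiff,
      mem_inter] at hx
    rcases hx with (hx | hx) | hx
    · exact (hOut x hx.2).2 t htK hxt
    · obtain ⟨s, hs, hxs⟩ := mem_biUnion.1 hx.2
      rw [mem_sdiff, mem_range] at hs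
      have hst : s ≠ t := fun h => hs.2 (h ▸ ht)
      exact (disjoint_left.1 (hD.dsj s hs.1 t htK hst)) hxs hxt
    · exact (hOut x hx.1.1.2).2 t htK hxt
  have hsum : A1.card + A2.card + A3.card + A4.card ≤ W.card := by
    rw [← card_union_of_disjoint d12, ← card_union_of_disjoint d123,
      ← card_union_of_disjoint d1234]
    exact card_le_card (union_subset (union_subset (union_subset h1 h2) h3) h4)
  have hJc : (J.biUnion D).card = ∑ t ∈ J, a t := by
    rw [card_biUnion]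
    · exact sum_congr rfl fun t ht => hD.crd t (mem_range.1 (hJ ht))
    · intro s hs t ht hst
      exact hD.dsj s (mem_range.1 (hJ hs)) t (mem_range.1 (hJ ht)) hst
  have h5 : ∑ t ∈ J, a t ≤ A4.card + 1 := by
    rw [← hJc, hA4]
    have := le_card_sdiff ({v} : Finset V) (J.biUnion D)
    rw [card_singleton] at this
    omega
  omega

end Pool.Agent.SFB
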