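import Pool.Agent.SFB.Targets

/-!
# SFB, LOB: lower bound
-/

set_option autoImplicit false

open Finset

namespace Pool.Agent.SFB

open Pool.Agent.StarF (starForest ramsey)

/-- LOB. -/
theorem p_LOB : T_LOB := by
  intro K a hK haK hmin
  set S := ∑ t ∈ range (K + 1), a t with hS
  have hS2 : 2 * a K ≤ S := by
    rw [hS, Finset.sum_range_succ]
    have h0 : a 0 ≤ ∑ t ∈ range K, a t :=
      Finset.single_le_sum (f := a) (fun _ _ => Nat.zero_le _) (Finset.mem_range.mpr hK)
    have h1 := hmin 0 (Nat.zero_le _)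
    omega
  have hne : ∀ A ⊆ range (K + 1), A.Nonempty → a K ≤ ∑ t ∈ A, a t := by
    intro A hA ⟨t, ht⟩
    have h1 : a t ≤ ∑ t ∈ A, a t :=
      Finset.single_le_sum (f := a) (fun _ _ => Nat.zero_le _) ht
    have h2 := hmin t (Nat.lt_succ_iff.mp (Finset.mem_range.mp (hA ht)))
    omega
  rintro ⟨A, hA, ⟨h1, h2⟩ | ⟨h1, h2⟩⟩
  · rcases A.eq_empty_or_nonempty with h | h
    · subst h
      rw [Finset.sdiff_empty, Finset.card_range, ← hS] at h2
      omega
    · have h3 := hne A hA h
      have h4 := h.card_pos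
      omega
  · rcases A.eq_empty_or_nonempty with h | h
    · subst h
      rw [Finset.sdiff_empty, ← hS] at h2
      omega
    · have h3 := hne A hA h
      have h4 : (range (K + 1) \ A).card = 0 := by omega
      have h5 : range (K + 1) \ A = ∅ := Finset.card_eq_zero.mp h4
      have h6 : A = range (K + 1) :=
        Finset.Subset.antisymm hA (Finset.sdiff_eq_empty_iff_subset.mp h5)
      rw [h6, ← hS] at h1
      omega

end Pool.Agent.SFB
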