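import Pool.Agent.SFB.Targets

/-!
# SFB: MCH, a maximal chain
-/

set_option autoImplicit false

open Finset

namespace Pool.Agent.SFB

open Pool.Agent.StarF (starForest ramsey)

theorem p_MCH : T_MCH := by
  classical
  intro V _ _ _ G a f K
  have h0 : ∃ (c : ℕ → V) (D : ℕ → Finset V), Chain G a f 0 c D := by
    obtain ⟨v⟩ := ‹Nonempty V›
    refine ⟨fun _ => v, fun _ => ∅, ?_, ?_, ?_, ?_, ?_, ?_⟩
    · intro s hs
      exact absurd hs (by simp)
    · intro t ht
      exact absurd ht (by omega)
    · intro t ht
      exact absurd ht (by omega)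
    · intro s hs
      exact absurd hs (by omega)
    · intro t ht
      exact absurd ht (by omega)
    · intro h
      exact absurd h (by omega)
  by_contra hcon
  push Not at hcon
  -- there is a chain of every length up to `K`
  have key : ∀ i ≤ K, ∃ (c : ℕ → V) (D : ℕ → Finset V), Chain G a f i c D := by
    intro i
    induction i with
    | zero => exact fun _ => h0
    | succ i ih =>
      intro hi
      obtain ⟨c, D, hC⟩ := ih (by omega)
      obtain ⟨-, c', D', hC'⟩ := hcon i (by omega) c D hC
      exact ⟨c', D', hC'⟩
  obtain ⟨c, D, hC⟩ := key K le_rfl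
  have := (hcon K le_rfl c D hC).1
  omega

end Pool.Agent.SFB
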