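import Pool.Agent.SFB.Targets

/-!
# SFB: SMA
-/

set_option autoImplicit false

open Finset

namespace Pool.Agent.SFB

open Pool.Agent.StarF (starForest ramsey)

namespace SMA_

variable {V : Type} [Fintype V] [DecidableEq V]

/-- The part of the set in the block `B`. -/
noncomputable def blk (G : SimpleGraph V) (K : ℕ) (c : ℕ → V) (J : V → Finset ℕ) (B : Finset V)
    (v : V) : Finset V :=
  (((nc G c (J v) ∩ B) \ (range K).image c) \ dg G v) \ {v}

lemma blk_sub {G : SimpleGraph V} {a : ℕ → ℕ} {K : ℕ} {c : ℕ → V} {J : V → Finset ℕ}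
    {B : Finset V} {D : ℕ → Finset V} (h : Sys G a K c B D) (v : V) :
    blk G K c J B v ⊆ ((nc G c (J v) ∩ Out K c D) \ dg G v) \ {v} := by
  intro w hw
  simp only [blk, mem_sdiff, mem_inter] at hw ⊢
  obtain ⟨⟨⟨⟨h1, h2⟩, h3⟩, h4⟩, h5⟩ := hw
  refine ⟨⟨⟨h1, ?_⟩, h4⟩, h5⟩
  unfold Out
  rw [mem_sdiff, mem_union]
  refine ⟨mem_univ _, ?_⟩
  rintro (h6 | h6)
  · exact h3 h6
  · rw [mem_biUnion] at h6
    obtain ⟨t, ht, hwt⟩ := h6
    exact (Finset.disjoint_left.1 (h.avE t (mem_range.1 ht)) hwt) h2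

lemma card_le {G : SimpleGraph V} {K q : ℕ} {c : ℕ → V} {J : V → Finset ℕ} {B : ℕ → Finset V}
    (hB : ∀ v, ∃ j < q, v ∈ B j) (v : V) :
    (nc G c (J v) \ dg G v).card ≤ ∑ j ∈ range q, (blk G K c J (B j) v).card + (K + 1) := by
  have h1 : nc G c (J v) \ dg G v ⊆
      (range q).biUnion (fun j => blk G K c J (B j) v) ∪ ((range K).image c ∪ {v}) := by
    intro w hw
    rw [mem_sdiff] at hw
    by_cases h2 : w ∈ (range K).image c ∪ {v}
    · exact mem_union_right _ h2
    · apply mem_union_left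
      rw [mem_union, not_or] at h2
      obtain ⟨j, hj, hwj⟩ := hB w
      rw [mem_biUnion]
      refine ⟨j, mem_range.2 hj, ?_⟩
      simp only [blk, mem_sdiff, mem_inter]
      exact ⟨⟨⟨⟨hw.1, hwj⟩, h2.1⟩, hw.2⟩, h2.2⟩
  have h3 : ((range K).image c ∪ {v}).card ≤ K + 1 := by
    refine (card_union_le _ _).trans ?_
    rw [card_singleton]
    have := (card_image_le (s := range K) (f := c))
    rw [card_range] at this
    omega
  calc (nc G c (J v) \ dg G v).card
      ≤ ((range q).biUnion (fun j => blk G K c J (B j) v) ∪ ((range K).image c ∪ {v})).card :=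
        card_le_card h1
    _ ≤ ((range q).biUnion (fun j => blk G K c J (B j) v)).card +
        ((range K).image c ∪ {v}).card := card_union_le _ _
    _ ≤ ∑ j ∈ range q, (blk G K c J (B j) v).card + (K + 1) :=
        Nat.add_le_add card_biUnion_le h3

end SMA_

open SMA_ in
theorem p_SMA (hAVD : T_AVD) (hAVG : T_AVG) (hBLQ : T_BLQ) : T_SMA := by
  intro V _ _ G X P a K q e r c J hP hX hr hc hV hall hN hq
  obtain ⟨B, hB1, hB2⟩ := hBLQ V q e hq
  have hj : ∀ j, ∑ v, P v * ((blk G K c J (B j) v).card : ℝ) ≤ r := by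
    intro j
    obtain ⟨D, hD⟩ := hAVD V G a K e c (B j) hall (hB1 j)
    have hD0 : Sys G a K c ∅ D :=
      ⟨hD.sub, hD.avC, fun t _ => Finset.disjoint_empty_right _, hD.crd, hD.dsj⟩
    have h1 := hAVG V G X P a K r c J D hP hX hr hc hV hD0 hN
    refine le_trans ?_ h1
    refine Finset.sum_le_sum fun v _ => mul_le_mul_of_nonneg_left ?_ (hP.nn v)
    have h2 : ((blk G K c J (B j) v).card : ℝ) ≤
        ((((nc G c (J v) ∩ Out K c D) \ dg G v) \ {v}).card : ℝ) := by
      exact_mod_cast card_le_card (blk_sub hD v)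
    have h3 : (0 : ℝ) ≤ ((dg G v ∩ (range K \ J v).biUnion D).card : ℝ) := Nat.cast_nonneg _
    linarith
  calc ∑ v, P v * ((nc G c (J v) \ dg G v).card : ℝ)
      ≤ ∑ v, P v * (∑ j ∈ range q, ((blk G K c J (B j) v).card : ℝ) + (K + 1)) := by
        refine Finset.sum_le_sum fun v _ => mul_le_mul_of_nonneg_left ?_ (hP.nn v)
        exact_mod_cast card_le hB2 v
    _ = ∑ j ∈ range q, ∑ v, P v * ((blk G K c J (B j) v).card : ℝ) + (K + 1) := by
        rw [Finset.sum_comm]
        simp only [mul_add, Finset.sum_add_distrib, Finset.mul_sum]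
        congr 1
        rw [← Finset.sum_mul, ← Finset.sum_mul, hP.one, one_mul, one_mul]
    _ ≤ ∑ _j ∈ range q, (r : ℝ) + (K + 1) := by
        gcongr with j
        exact hj j
    _ = q * r + K + 1 := by
        rw [Finset.sum_const, card_range, nsmul_eq_mul]
        ring

end Pool.Agent.SFB
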