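import Pool.Agent.SFB.Targets

/-!
# SFB: the target T_SMB
-/

set_option autoImplicit false

open Finset

namespace Pool.Agent.SFB

open Pool.Agent.StarF (starForest ramsey)

namespace SMB_

variable {V : Type} [Fintype V] [DecidableEq V]

/-- A block `E` of the neighbourhood of `c 0` which is contained in `D 0`. -/
lemma block (hAVG : T_AVG) {G : SimpleGraph V} {X : Finset V} {P : V → ℝ} {a : ℕ → ℕ}
    {K r : ℕ} {c : ℕ → V} {J : V → Finset ℕ} {D : ℕ → Finset V} {E : Finset V}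
    (hP : Cov G X P) (hX : (Xᶜ).card ≤ r) (hr : 1 ≤ r) (hc : ∀ t < K, c t ∉ X)
    (hJ : ∀ v ∈ X, Vio G a K c v (J v)) (hN : ∑ t ∈ range K, a t + 2 * a K ≤ Fintype.card V)
    (hK : 1 ≤ K) (hD : Sys G a K c ∅ D) (hE : E ⊆ D 0) :
    ∑ v, P v * (if 0 ∈ J v then 0 else ((dg G v ∩ E).card : ℝ)) ≤ r := by
  refine le_trans (Finset.sum_le_sum fun v _ => ?_) (hAVG V G X P a K r c J D hP hX hr hc hJ hD hN)
  refine mul_le_mul_of_nonneg_left ?_ (hP.nn v)
  split_ifs with h
  · positivity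
  · have h1 : dg G v ∩ E ⊆ dg G v ∩ (range K \ J v).biUnion D := by
      intro w hw
      rw [mem_inter] at hw ⊢
      refine ⟨hw.1, mem_biUnion.2 ⟨0, ?_, hE hw.2⟩⟩
      rw [mem_sdiff, mem_range]
      exact ⟨hK, h⟩
    have h2 : ((dg G v ∩ E).card : ℝ) ≤ ((dg G v ∩ (range K \ J v).biUnion D).card : ℝ) := by
      exact_mod_cast card_le_card h1
    have h3 : (0 : ℝ) ≤ ((((nc G c (J v) ∩ Out K c D) \ dg G v) \ {v}).card : ℝ) := by
      positivity
    linarith

omit [Fintype V] in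
/-- Covering a set by blocks. -/
lemma cover {q K : ℕ} {c : ℕ → V} {B : ℕ → Finset V} (hB : ∀ v, ∃ j < q, v ∈ B j)
    (Y Z : Finset V) :
    (Y ∩ Z).card ≤ ∑ j ∈ range q, (Y ∩ ((B j ∩ Z) \ (range K).image c)).card + K := by
  have h1 : Y ∩ Z ⊆ (range q).biUnion (fun j => Y ∩ ((B j ∩ Z) \ (range K).image c)) ∪
      (range K).image c := by
    intro w hw
    rw [mem_inter] at hw
    by_cases hC : w ∈ (range K).image c
    · exact mem_union_right _ hC
    · obtain ⟨j, hj, hwj⟩ := hB w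
      refine mem_union_left _ (mem_biUnion.2 ⟨j, mem_range.2 hj, ?_⟩)
      rw [mem_inter, mem_sdiff, mem_inter]
      exact ⟨hw.1, ⟨hwj, hw.2⟩, hC⟩
  have h2 := card_le_card h1
  have h3 := card_union_le ((range q).biUnion (fun j => Y ∩ ((B j ∩ Z) \ (range K).image c)))
    ((range K).image c)
  have h4 : ((range q).biUnion (fun j => Y ∩ ((B j ∩ Z) \ (range K).image c))).card ≤
      ∑ j ∈ range q, (Y ∩ ((B j ∩ Z) \ (range K).image c)).card := card_biUnion_le
  have h5 : ((range K).image c).card ≤ K := card_image_le.trans (card_range K).le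
  omega

end SMB_

theorem p_SMB (hAV0 : T_AV0) (hAVG : T_AVG) (hBLQ : T_BLQ) : T_SMB := by
  intro V _ _ G X P a K q e r c J hP hX hr hc hJ hS hN hq hK he
  obtain ⟨B, hB1, hB2⟩ := hBLQ V q e hq
  have hsys : ∀ j, ∃ D : ℕ → Finset V, Sys G a K c ∅ D ∧
      (B j ∩ dg G (c 0)) \ (range K).image c ⊆ D 0 := by
    intro j
    obtain ⟨D, hD, hD0⟩ := hAV0 V G a K e c ((B j ∩ dg G (c 0)) \ (range K).image c) hS
      ((card_le_card (sdiff_subset.trans inter_subset_left)).trans (hB1 j))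
      (sdiff_subset.trans inter_subset_right) sdiff_disjoint he
    exact ⟨D, hD, hD0 hK⟩
  choose D hD hD0 using hsys
  have h1 : ∀ j ∈ range q, ∑ v, P v * (if 0 ∈ J v then 0 else
      ((dg G v ∩ ((B j ∩ dg G (c 0)) \ (range K).image c)).card : ℝ)) ≤ r := fun j _ =>
    SMB_.block hAVG hP hX hr hc hJ hN hK (hD j) (hD0 j)
  have h2 := Finset.sum_le_sum h1
  rw [Finset.sum_comm, Finset.sum_const, card_range, nsmul_eq_mul] at h2
  have h3 : ∀ v ∈ (univ : Finset V),
      P v * (if 0 ∈ J v then 0 else ((dg G v ∩ dg G (c 0)).card : ℝ)) ≤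
      ∑ j ∈ range q, P v * (if 0 ∈ J v then 0 else
        ((dg G v ∩ ((B j ∩ dg G (c 0)) \ (range K).image c)).card : ℝ)) + P v * K := by
    intro v _
    rw [← Finset.mul_sum, ← mul_add]
    refine mul_le_mul_of_nonneg_left ?_ (hP.nn v)
    split_ifs with h
    · rw [Finset.sum_const_zero, zero_add]
      positivity
    · have h4 := SMB_.cover (K := K) (c := c) hB2 (dg G v) (dg G (c 0))
      exact_mod_cast h4
  have h5 := Finset.sum_le_sum h3
  rw [Finset.sum_add_distrib, ← Finset.sum_mul, hP.one, one_mul] at h5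
  linarith

end Pool.Agent.SFB
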