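import Pool.Agent.SFB.Targets

set_option autoImplicit false

/-!
# SFB: STC, the structure (helper21)
-/

open Finset

namespace Pool.Agent.SFB

namespace STC_

/-- the set `F` if it is small, otherwise the empty set -/
def sm {V : Type} [DecidableEq V] (F : Finset V) (n : ℕ) : Finset V :=
  if F.card ≤ n then F else ∅

theorem sm_card {V : Type} [DecidableEq V] (F : Finset V) (n : ℕ) : (sm F n).card ≤ n := by
  unfold sm
  split_ifs with h
  · exact h
  · simp

theorem sm_mem {V : Type} [DecidableEq V] {F : Finset V} {n : ℕ} (h : F.card ≤ n) {v : V}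
    (hv : v ∈ F) : v ∈ sm F n := by
  unfold sm
  rw [if_pos h]
  exact hv

/-- three times the smallest size -/
theorem three {a : ℕ → ℕ} {K q e N : ℕ} (h : Par a K q e N) : 3 * a K ≤ N := by
  have h1 : (K + 1) * a K ≤ ∑ t ∈ range (K + 1), a t := by
    have h2 : (range (K + 1)).card • a K ≤ ∑ t ∈ range (K + 1), a t := by
      refine Finset.card_nsmul_le_sum _ _ _ fun t ht => ?_
      exact h.min t (Nat.lt_succ_iff.1 (mem_range.1 ht))
    rwa [card_range, smul_eq_mul] at h2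
  have h3 := h.lo
  have h4 : 2 * a K ≤ (K + 1) * a K := Nat.mul_le_mul_right _ (by have := h.hK; omega)
  omega

/-- the final step -/
theorem fin (hTYC : T_TYC) (hCL1 : T_CL1) (hCL2 : T_CL2) (hBLK : T_BLK) {V : Type} [Fintype V]
    [DecidableEq V] (G : SimpleGraph V) (a : ℕ → ℕ) (K q e : ℕ) (X0 : Finset V)
    (J1 J2 : Finset ℕ) (hP : Par a K q e (Fintype.card V)) (h1 : ¬ Con G (K + 1) a)
    (h2 : ¬ Con Gᶜ (K + 1) a) (hT : Typ G a K (LL K q) (LL K q) X0 J1 J2) :
    ∃ X : Finset V, (Two G X (el K q) ∨ Two Gᶜ X (el K q)) ∧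
    a K ≤ X.card + el K q ∧ a K ≤ (Xᶜ).card + el K q := by
  have hT' := hTYC V G a K (LL K q) X0 J1 J2 hT
  have c1 := hCL1 V G a K q e (LL K q) X0 J1 J2 hP h1 (by omega) hT
  have c2 := hCL1 V Gᶜ a K q e (LL K q + 1) X0 J1 J2 hP h2 le_rfl hT'
  have hL := hP.L1
  have he := hP.e1
  have hl : el K q = 200 * LL K q := rfl
  have ha := hP.a1
  have h3 := three hP
  have lo1 := hT.lo1
  have lo2 := hT.lo2
  have c3 := hCL2 V G K (LL K q) (a K) X0 (by omega) (by omega) (by omega) (by omega) (by omega)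
    h3
  obtain ⟨X, hX, hb1, hb2⟩ := hBLK V G (a K - 2 * LL K q) (20 * LL K q) X0 (by omega) (by omega)
    (by omega) (fun u => c3 u (c1 u) (c2 u))
  refine ⟨X, ?_, by omega, by omega⟩
  rcases hX with hX | hX
  · exact Or.inl (hX.mono (by omega))
  · exact Or.inr (hX.mono (by omega))

end STC_

open STC_ in
theorem p_STC (hMMX : T_MMX) (hMCH : T_MCH) (hCOL : T_COL) (hTYC : T_TYC) (hCL1 : T_CL1)
    (hCL2 : T_CL2) (hBLK : T_BLK) : T_STC := by
  intro V _ _ G a K q e hP h1 h2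
  have h3 := three hP
  have hL := hP.L1
  have he := hP.e1
  have hl : el K q = 200 * LL K q := rfl
  have ha := hP.a1
  have : Nonempty V := Fintype.card_pos_iff.1 (by omega)
  obtain ⟨i, hi, c, D, hC, hmax⟩ := hMCH V G a (e + K) K
  obtain ⟨i', hi', c', D', hC', hmax'⟩ := hMCH V Gᶜ a (e + K) K
  obtain ⟨F1, hF1⟩ : ∃ F : Finset V,
      F = univ.filter (fun v => (symmDiff (dg G v) (dg G (c 0))).card ≤ LL K q) := ⟨_, rfl⟩
  obtain ⟨F2, hF2⟩ : ∃ F : Finset V,
      F = univ.filter (fun v => (symmDiff (dg G v) (dg G (c 0))ᶜ).card ≤ LL K q) := ⟨_, rfl⟩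
  obtain ⟨F3, hF3⟩ : ∃ F : Finset V,
      F = univ.filter (fun v => (symmDiff (dg Gᶜ v) (dg Gᶜ (c' 0))).card ≤ LL K q) := ⟨_, rfl⟩
  obtain ⟨F4, hF4⟩ : ∃ F : Finset V,
      F = univ.filter (fun v => (symmDiff (dg Gᶜ v) (dg Gᶜ (c' 0))ᶜ).card ≤ LL K q) :=
    ⟨_, rfl⟩
  obtain ⟨R, hR⟩ : ∃ R : Finset V, R = (((((range i).image c ∪ (range i').image c') ∪
      sm F1 (K + 1)) ∪ sm F2 (K + 1)) ∪ sm F3 (K + 1)) ∪ sm F4 (K + 1) := ⟨_, rfl⟩
  have hRc : R.card ≤ 6 * (K + 1) := by
    rw [hR]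
    have e1 := card_union_le (((((range i).image c ∪ (range i').image c') ∪
      sm F1 (K + 1)) ∪ sm F2 (K + 1)) ∪ sm F3 (K + 1)) (sm F4 (K + 1))
    have e2 := card_union_le ((((range i).image c ∪ (range i').image c') ∪
      sm F1 (K + 1)) ∪ sm F2 (K + 1)) (sm F3 (K + 1))
    have e3 := card_union_le (((range i).image c ∪ (range i').image c') ∪
      sm F1 (K + 1)) (sm F2 (K + 1))
    have e4 := card_union_le ((range i).image c ∪ (range i').image c') (sm F1 (K + 1))
    have e5 := card_union_le ((range i).image c) ((range i').image c')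
    have e6 : ((range i).image c).card ≤ i := card_image_le.trans (by rw [card_range])
    have e7 : ((range i').image c').card ≤ i' := card_image_le.trans (by rw [card_range])
    have s1 := sm_card F1 (K + 1)
    have s2 := sm_card F2 (K + 1)
    have s3 := sm_card F3 (K + 1)
    have s4 := sm_card F4 (K + 1)
    omega
  have hcR : ∀ t < i, c t ∈ R := by
    intro t ht
    rw [hR]
    have : c t ∈ (range i).image c := mem_image_of_mem _ (mem_range.2 ht)
    simp only [mem_union]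
    tauto
  have hcR' : ∀ t < i', c' t ∈ R := by
    intro t ht
    rw [hR]
    have : c' t ∈ (range i').image c' := mem_image_of_mem _ (mem_range.2 ht)
    simp only [mem_union]
    tauto
  have hF : ∀ v, (v ∈ sm F1 (K + 1) ∨ v ∈ sm F2 (K + 1) ∨ v ∈ sm F3 (K + 1) ∨
      v ∈ sm F4 (K + 1)) → v ∈ R := by
    intro v hv
    rw [hR]
    simp only [mem_union]
    tauto
  have hXne : (Rᶜ).Nonempty := by
    rw [← card_pos, card_compl]
    omega
  have hXc : ((Rᶜ)ᶜ).card ≤ 6 * (K + 1) := by rwa [compl_compl]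
  have hnot : ∀ t < i, c t ∉ Rᶜ := fun t ht h => (mem_compl.1 h) (hcR t ht)
  have hnot' : ∀ t < i', c' t ∉ Rᶜ := fun t ht h => (mem_compl.1 h) (hcR' t ht)
  rcases hMMX V G (Rᶜ) hXne with ⟨P, hCov⟩ | ⟨P, hCov⟩
  · obtain ⟨J1, J2, hT⟩ := hCOL V G (Rᶜ) P a K q e i c D hP h1 hCov hXc hi hC hmax hnot
      (by
        rw [← hF1]
        intro hs v hv
        by_contra hcon
        have hv1 : v ∈ F1 := by
          rw [hF1, mem_filter]
          exact ⟨mem_univ _, not_lt.1 hcon⟩
        exact (mem_compl.1 hv) (hF v (Or.inl (sm_mem hs hv1))))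
      (by
        rw [← hF2]
        intro hs v hv
        by_contra hcon
        have hv1 : v ∈ F2 := by
          rw [hF2, mem_filter]
          exact ⟨mem_univ _, not_lt.1 hcon⟩
        exact (mem_compl.1 hv) (hF v (Or.inr (Or.inl (sm_mem hs hv1)))))
    exact fin hTYC hCL1 hCL2 hBLK G a K q e _ J1 J2 hP h1 h2 hT
  · obtain ⟨J1, J2, hT⟩ := hCOL V Gᶜ (Rᶜ) P a K q e i' c' D' hP h2 hCov hXc hi' hC' hmax'
      hnot'
      (by
        rw [← hF3]
        intro hs v hv
        by_contra hcon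
        have hv1 : v ∈ F3 := by
          rw [hF3, mem_filter]
          exact ⟨mem_univ _, not_lt.1 hcon⟩
        exact (mem_compl.1 hv) (hF v (Or.inr (Or.inr (Or.inl (sm_mem hs hv1))))))
      (by
        rw [← hF4]
        intro hs v hv
        by_contra hcon
        have hv1 : v ∈ F4 := by
          rw [hF4, mem_filter]
          exact ⟨mem_univ _, not_lt.1 hcon⟩
        exact (mem_compl.1 hv) (hF v (Or.inr (Or.inr (Or.inr (sm_mem hs hv1))))))
    have h4 : ¬ Con (Gᶜ)ᶜ (K + 1) a := by rwa [compl_compl]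
    obtain ⟨X, hX, hX1, hX2⟩ := fin hTYC hCL1 hCL2 hBLK Gᶜ a K q e _ J1 J2 hP h2 h4 hT
    rw [compl_compl] at hX
    exact ⟨X, hX.symm, hX1, hX2⟩

end Pool.Agent.SFB
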