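import Pool.Agent.SFB.Targets

/-!
# SFB: p_SUR, surplus of a chain
-/

set_option autoImplicit false

open Finset

namespace Pool.Agent.SFB

open Pool.Agent.StarF (starForest ramsey)

theorem p_SUR : T_SUR := by
  intro V _ _ G a f i c D h J hJ hne
  set t := J.max' hne with ht
  have htJ : t ∈ J := J.max'_mem hne
  have hti : t < i := mem_range.1 (hJ htJ)
  have hlt : ∀ s ∈ J.erase t, s < t := by
    intro s hs
    rw [mem_erase] at hs
    exact lt_of_le_of_ne (J.le_max' s hs.2) hs.1
  have hsi : ∀ s ∈ J.erase t, s < i := fun s hs => (hlt s hs).trans hti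
  have hsub : (J.erase t).biUnion D ∪ (dg G (c t) \ (range t).biUnion D) ⊆ nc G c J := by
    intro w hw
    rw [mem_nc]
    rcases mem_union.1 hw with hw | hw
    · obtain ⟨s, hs, hws⟩ := mem_biUnion.1 hw
      exact ⟨s, mem_of_mem_erase hs, h.sub s (hsi s hs) hws⟩
    · exact ⟨t, htJ, (mem_sdiff.1 hw).1⟩
  have hdis : Disjoint ((J.erase t).biUnion D) (dg G (c t) \ (range t).biUnion D) := by
    rw [disjoint_left]
    intro w hw hw'
    obtain ⟨s, hs, hws⟩ := mem_biUnion.1 hw
    exact (mem_sdiff.1 hw').2 (mem_biUnion.2 ⟨s, mem_range.2 (hlt s hs), hws⟩)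
  have hc1 : ((J.erase t).biUnion D).card = ∑ s ∈ J.erase t, a s := by
    rw [card_biUnion]
    · exact sum_congr rfl (fun s hs => h.crd s (hsi s hs))
    · intro s hs s' hs' hss
      exact h.dsj s (hsi s hs) s' (hsi s' hs') hss
  have hc2 := h.sur t hti
  have hc3 := card_le_card hsub
  rw [card_union_of_disjoint hdis, hc1] at hc3
  have hc4 : ∑ s ∈ J.erase t, a s + a t = ∑ s ∈ J, a s := sum_erase_add J a htJ
  omega

end Pool.Agent.SFB
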