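import Pool.Agent.SFB.Targets

set_option autoImplicit false

open Finset

namespace Pool.Agent.SFB

open Pool.Agent.StarF (starForest ramsey)

namespace UPB_

lemma sdiff_insert_range {i : ℕ} {A : Finset ℕ} (_hA : A ⊆ range i) :
    range (i + 1) \ insert i A = range i \ A := by
  ext t
  simp only [mem_sdiff, mem_range, mem_insert, not_or]
  constructor
  · rintro ⟨h1, h2, h3⟩
    exact ⟨by omega, h3⟩
  · rintro ⟨h1, h2⟩
    exact ⟨by omega, by omega, h2⟩

lemma sdiff_range {i : ℕ} {A : Finset ℕ} (hA : A ⊆ range i) :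
    range (i + 1) \ A = insert i (range i \ A) := by
  ext t
  simp only [mem_sdiff, mem_range, mem_insert]
  constructor
  · rintro ⟨h1, h2⟩
    rcases Nat.lt_or_ge t i with h | h
    · exact Or.inr ⟨h, h2⟩
    · exact Or.inl (by omega)
  · rintro (h | ⟨h1, h2⟩)
    · subst h
      refine ⟨by omega, fun h => ?_⟩
      exact absurd (hA h) notMem_range_self
    · exact ⟨by omega, h2⟩

lemma not_mem_of_sub {i : ℕ} {A : Finset ℕ} (hA : A ⊆ range i) : i ∉ A :=
  fun h => absurd (hA h) notMem_range_self

lemma sum_split {i : ℕ} {A : Finset ℕ} (a : ℕ → ℕ) (hA : A ⊆ range i) :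
    ∑ t ∈ A, a t + ∑ t ∈ range i \ A, a t = ∑ t ∈ range i, a t := by
  rw [add_comm]
  exact sum_sdiff hA

lemma card_split {i : ℕ} {A : Finset ℕ} (hA : A ⊆ range i) :
    A.card + (range i \ A).card = i := by
  have h := card_sdiff_add_card_eq_card hA
  rw [card_range] at h
  omega

lemma sum_ge {a : ℕ → ℕ} {i K : ℕ} (h : i < K) :
    ∑ t ∈ range i, a t + a i + a K ≤ ∑ t ∈ range (K + 1), a t := by
  rw [sum_range_succ, ← sum_range_succ]
  have h1 : ∑ t ∈ range (i + 1), a t ≤ ∑ t ∈ range K, a t :=
    sum_le_sum_of_subset (range_subset_range.2 h)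
  omega

lemma greedy {K : ℕ} {a : ℕ → ℕ} (hlt : ∀ t ≤ K, a t < 2 * a K) {x y : ℕ}
    (hxy : x + y = ∑ t ∈ range (K + 1), a t + a K + K - 1) (hK : 1 ≤ K) :
    ∀ i ≤ K, ∃ A ⊆ range i, ∑ t ∈ A, a t + A.card ≤ x ∧
      ∑ t ∈ range i \ A, a t + (range i \ A).card ≤ y := by
  intro i
  induction i with
  | zero =>
    intro _
    exact ⟨∅, by simp, by simp, by simp⟩
  | succ i ih =>
    intro hi
    obtain ⟨A, hA, h1, h2⟩ := ih (by omega)
    have hsum := sum_split a hA
    have hcard := card_split hA
    have hge := sum_ge (a := a) (i := i) (K := K) (by omega)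
    have hl := hlt i (by omega)
    have hni := not_mem_of_sub hA
    have hni' : i ∉ range i \ A := fun h => notMem_range_self (mem_sdiff.1 h).1
    rcases Nat.lt_or_ge (∑ t ∈ A, a t + A.card + a i) x with h | h
    · refine ⟨insert i A, ?_, ?_, ?_⟩
      · intro t ht
        rw [mem_insert] at ht
        rw [mem_range]
        rcases ht with ht | ht
        · omega
        · have := mem_range.1 (hA ht)
          omega
      · rw [sum_insert hni, card_insert_of_notMem hni]
        omega
      · rw [sdiff_insert_range hA]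
        exact h2
    · refine ⟨A, ?_, h1, ?_⟩
      · intro t ht
        have := mem_range.1 (hA ht)
        rw [mem_range]
        omega
      · rw [sdiff_range hA, sum_insert hni', card_insert_of_notMem hni']
        omega

end UPB_

open UPB_ in
/-- UPB. The two block colourings admit the star forest for large sums. -/
theorem p_UPB : T_UPB := by
  intro K a hK h2 _hmin hlt x y hxy
  obtain ⟨A, hA, h1, h3⟩ := greedy hlt hxy hK K le_rfl
  have hsum := sum_split a hA
  have hcard := card_split hA
  have hsr := sum_range_succ a K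
  have hni := not_mem_of_sub hA
  have hni' : K ∉ range K \ A := fun h => notMem_range_self (mem_sdiff.1 h).1
  have hsub : A ⊆ range (K + 1) := hA.trans (range_subset_range.2 (by omega))
  have hsubi : insert K A ⊆ range (K + 1) := by
    intro t ht
    rw [mem_insert] at ht
    rcases ht with ht | ht
    · rw [mem_range]
      omega
    · exact hsub ht
  have e1 := sum_insert (f := a) hni
  have e2 := card_insert_of_notMem hni
  have e3 := sdiff_insert_range hA
  have e4 := sdiff_range hA
  have e5 := sum_insert (f := a) hni'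
  have e6 := card_insert_of_notMem hni'
  rcases Nat.lt_or_ge (∑ t ∈ A, a t + A.card + a K) x with h | h
  · refine ⟨insert K A, hsubi, Or.inl ⟨?_, ?_⟩⟩
    · omega
    · rw [e3]
      exact h3
  rcases Nat.lt_or_ge (∑ t ∈ range K \ A, a t + (range K \ A).card + a K) y with h' | h'
  · refine ⟨A, hsub, Or.inl ⟨h1, ?_⟩⟩
    rw [e4]
    omega
  rcases Nat.lt_or_ge (x + A.card) (∑ t ∈ A, a t + A.card + a K + (range K \ A).card) with g | g
  · refine ⟨A, hsub, Or.inr ⟨?_, ?_⟩⟩
    · rw [e4]
      omega
    · rw [e4]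
      omega
  · refine ⟨insert K A, hsubi, Or.inr ⟨?_, ?_⟩⟩
    · rw [e3]
      omega
    · rw [e3]
      omega

end Pool.Agent.SFB
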