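import Pool.Agent.SFB.Targets

/-!
# SFB-UPP: the upper bound
-/

set_option autoImplicit false

open Finset

namespace Pool.Agent.SFB

open Pool.Agent.StarF (starForest ramsey)

theorem p_UPP (hSTC : T_STC) (hEXA : T_EXA) : T_UPP := by
  intro a K q e N hP hfit G
  have hN : Par a K q e (Fintype.card (Fin N)) := by rwa [Fintype.card_fin]
  by_contra hcon
  rw [not_or] at hcon
  obtain ⟨h1, h2⟩ := hcon
  obtain ⟨X, hX, hX1, hX2⟩ := hSTC (Fin N) G a K q e hN h1 h2
  have hsum : X.card + (Xᶜ).card = N := by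
    rw [Finset.card_add_card_compl, Fintype.card_fin]
  have hf := hfit X.card (Xᶜ).card hsum
  rcases hX with hX | hX
  · rcases hEXA (Fin N) G a K q e X hN hX hX1 hX2 hf with h | h
    · exact h1 h
    · exact h2 h
  · rcases hEXA (Fin N) Gᶜ a K q e X hN hX hX1 hX2 hf with h | h
    · exact h2 h
    · rw [compl_compl] at h
      exact h1 h

end Pool.Agent.SFB
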