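import Pool.Agent.SFB.Targets

/-!
# SFB, target VIO: every further vertex has a violator
-/

set_option autoImplicit false

open Finset

namespace Pool.Agent.SFB

open Pool.Agent.StarF (starForest ramsey)

namespace VIO_

/-- The centres with one more vertex. -/
def cc {V : Type} (c : ℕ → V) (K : ℕ) (v : V) (t : ℕ) : V := if t = K then v else c t

lemma cc_K {V : Type} (c : ℕ → V) (K : ℕ) (v : V) : cc c K v K = v := by simp [cc]

lemma cc_ne {V : Type} (c : ℕ → V) (K : ℕ) (v : V) (t : ℕ) (h : t ≠ K) : cc c K v t = c t := by
  simp [cc, h]

end VIO_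

open VIO_ in
theorem p_VIO (hEMB : T_EMB) : T_VIO := by
  intro V _ _ G a K c v hinj hsur hcon hv
  by_contra hno
  push Not at hno
  apply hcon
  have hvc : ∀ t < K, c t ≠ v := by
    intro t ht h
    exact hv (mem_image.2 ⟨t, mem_range.2 ht, h⟩)
  refine hEMB V G (K + 1) a (cc c K v) ?_ ?_
  · intro s hs t ht hst
    rw [Set.mem_Iio] at hs ht
    by_cases h1 : s = K
    · by_cases h2 : t = K
      · rw [h1, h2]
      · exfalso
        rw [h1, cc_K, cc_ne c K v t h2] at hst
        exact hvc t (by omega) hst.symm
    · by_cases h2 : t = K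
      · exfalso
        rw [h2, cc_K, cc_ne c K v s h1] at hst
        exact hvc s (by omega) hst
      · rw [cc_ne c K v s h1, cc_ne c K v t h2] at hst
        exact hinj (Set.mem_Iio.2 (by omega)) (Set.mem_Iio.2 (by omega)) hst
  · intro J hJ hJne
    by_cases hK : K ∈ J
    · have hsub : J.erase K ⊆ range K := by
        intro t ht
        have h1 := mem_range.1 (hJ (mem_of_mem_erase ht))
        have h2 := ne_of_mem_erase ht
        rw [mem_range]
        omega
      have h1 := hno (J.erase K)
      unfold Vio at h1
      have h2 : ∑ t ∈ J.erase K, a t + a K = ∑ t ∈ J, a t := sum_erase_add J a hK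
      have h3 : nc G (cc c K v) J \ (range (K + 1)).image (cc c K v) =
          ((dg G v ∪ nc G c (J.erase K)) \ (range K).image c) \ {v} := by
        ext w
        simp only [mem_sdiff, mem_union, mem_nc, mem_image, mem_range, mem_singleton]
        constructor
        · rintro ⟨⟨t, ht, hw⟩, h4⟩
          refine ⟨⟨?_, ?_⟩, ?_⟩
          · by_cases h5 : t = K
            · left
              rw [h5, cc_K] at hw
              exact hw
            · right
              rw [cc_ne c K v t h5] at hw
              exact ⟨t, mem_erase.2 ⟨h5, ht⟩, hw⟩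
          · rintro ⟨s, hs, hsw⟩
            exact h4 ⟨s, by omega, by rw [cc_ne c K v s (by omega)]; exact hsw⟩
          · intro h5
            exact h4 ⟨K, by omega, by rw [cc_K]; exact h5.symm⟩
        · rintro ⟨⟨h4, h5⟩, h6⟩
          refine ⟨?_, ?_⟩
          · rcases h4 with h4 | ⟨t, ht, h4⟩
            · exact ⟨K, hK, by rw [cc_K]; exact h4⟩
            · exact ⟨t, mem_of_mem_erase ht, by
                rw [cc_ne c K v t (ne_of_mem_erase ht)]; exact h4⟩
          · rintro ⟨s, hs, hsw⟩
            by_cases h7 : s = K
            · rw [h7, cc_K] at hsw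
              exact h6 hsw.symm
            · rw [cc_ne c K v s h7] at hsw
              exact h5 ⟨s, by omega, hsw⟩
      rw [h3, ← h2]
      by_contra h4
      exact h1 ⟨hsub, by omega⟩
    · have hsub : J ⊆ range K := by
        intro t ht
        have h1 := mem_range.1 (hJ ht)
        have h2 : t ≠ K := fun h => hK (h ▸ ht)
        rw [mem_range]
        omega
      have h1 := hsur J hsub hJne
      have h2 : nc G (cc c K v) J = nc G c J := by
        ext w
        rw [mem_nc, mem_nc]
        constructor
        · rintro ⟨t, ht, hw⟩
          rw [cc_ne c K v t (fun h => hK (h ▸ ht))] at hw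
          exact ⟨t, ht, hw⟩
        · rintro ⟨t, ht, hw⟩
          refine ⟨t, ht, ?_⟩
          rw [cc_ne c K v t (fun h => hK (h ▸ ht))]
          exact hw
      rw [h2]
      have h3 := le_card_sdiff ((range (K + 1)).image (cc c K v)) (nc G c J)
      have h4 : ((range (K + 1)).image (cc c K v)).card ≤ K + 1 := by
        refine card_image_le.trans ?_
        rw [card_range]
      omega

end Pool.Agent.SFB
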