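import Pool.Agent.SFB.Final
import Pool.Agent.SFB.P_EMB
import Pool.Agent.SFB.P_SUR
import Pool.Agent.SFB.P_VIO
import Pool.Agent.SFB.P_MMX
import Pool.Agent.SFB.P_AVE
import Pool.Agent.SFB.P_MCH
import Pool.Agent.SFB.P_EXT
import Pool.Agent.SFB.P_AVD
import Pool.Agent.SFB.P_AV0
import Pool.Agent.SFB.P_INE
import Pool.Agent.SFB.P_AVG
import Pool.Agent.SFB.P_BLQ
import Pool.Agent.SFB.P_SMA
import Pool.Agent.SFB.P_SMB
import Pool.Agent.SFB.P_TYP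
import Pool.Agent.SFB.P_STR
import Pool.Agent.SFB.P_COL
import Pool.Agent.SFB.P_TYC
import Pool.Agent.SFB.P_CL1
import Pool.Agent.SFB.P_CL2
import Pool.Agent.SFB.P_BLK
import Pool.Agent.SFB.P_STC
import Pool.Agent.SFB.P_CEN
import Pool.Agent.SFB.P_FIT
import Pool.Agent.SFB.P_FTB
import Pool.Agent.SFB.P_FTR
import Pool.Agent.SFB.P_EX2
import Pool.Agent.SFB.P_E1B
import Pool.Agent.SFB.P_E1R
import Pool.Agent.SFB.P_EXA
import Pool.Agent.SFB.P_LOW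
import Pool.Agent.SFB.P_CNV
import Pool.Agent.SFB.P_LOB
import Pool.Agent.SFB.P_UPB
import Pool.Agent.SFB.P_EQS
import Pool.Agent.SFB.P_UPP
import Pool.Agent.SFB.P_BVL

/-!
# SFB: assembly
-/

set_option autoImplicit false

open Finset

namespace Pool.Agent.SFB

open Pool.Agent.StarF (starForest ramsey)

theorem a_SMA : T_SMA := p_SMA p_AVD (p_AVG p_AVE p_INE) p_BLQ

theorem a_SMB : T_SMB := p_SMB (p_AV0 p_AVD) (p_AVG p_AVE p_INE) p_BLQ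

theorem a_COL : T_COL :=
  p_COL (p_EXT p_AVE) p_SUR (p_VIO p_EMB) a_SMA a_SMB (p_TYP p_AVE) p_STR

theorem a_STC : T_STC := p_STC p_MMX p_MCH a_COL p_TYC (p_CL1 p_EMB) p_CL2 p_BLK

theorem a_FIT : T_FIT := p_FIT p_EMB p_CEN

theorem a_EXA : T_EXA := p_EXA (p_EX2 (p_FTB a_FIT) (p_FTR a_FIT)) (p_E1B p_EMB) (p_E1R p_EMB)

theorem a_BVL : T_BVL := p_BVL (p_UPP a_STC a_EXA) p_LOW p_CNV p_LOB p_UPB

theorem all_final :
    ∀ k : ℕ, ∀ hk : 2 ≤ k, ∀ δ : ℝ, 0 < δ → ∃ n₀ : ℕ, ∀ n : Fin k → ℕ, Antitone n →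
      n₀ ≤ n ⟨k - 1, by omega⟩ → (n ⟨0, by omega⟩ : ℝ) ≤ (2 - δ) * n ⟨k - 1, by omega⟩ →
      ramsey (starForest n) (starForest n) =
        sInf {N : ℕ | ∀ x y : ℕ, x + y = N → Fits n x y} ∧
      ∑ i, n i + n ⟨k - 1, by omega⟩ ≤ ramsey (starForest n) (starForest n) ∧
      ramsey (starForest n) (starForest n) ≤ ∑ i, n i + n ⟨k - 1, by omega⟩ + k - 2 ∧
      (n ⟨0, by omega⟩ = n ⟨k - 1, by omega⟩ →
        ramsey (starForest n) (starForest n) = (k + 1) * n ⟨k - 1, by omega⟩ + k - 2) :=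
  final a_BVL p_EQS p_CNV

end Pool.Agent.SFB
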