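import Pool.Agent.StarF.Main

/-!
# SFB: exact diagonal Ramsey numbers of balanced star forests (MP_705b7e_co): definitions

Sizes `a 0, .., a K` of the `K + 1` stars (`k = K + 1`), `a K` is the smallest one.
-/

set_option autoImplicit false

open Finset

namespace Pool.Agent.SFB

open Pool.Agent.StarF (starForest ramsey)

/-- `G` contains the star forest with the sizes `a 0, .., a (k - 1)`. -/
def Con {V : Type} (G : SimpleGraph V) (k : ℕ) (a : ℕ → ℕ) : Prop :=
  (starForest (fun i : Fin k => a i)).IsContained G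

section

variable {V : Type} [Fintype V]

open Classical in
/-- The neighbours of `v`. -/
noncomputable def dg (G : SimpleGraph V) (v : V) : Finset V := univ.filter (fun w => G.Adj v w)

lemma mem_dg {G : SimpleGraph V} {v w : V} : w ∈ dg G v ↔ G.Adj v w := by
  classical
  simp [dg]

lemma mem_dg_comm {G : SimpleGraph V} {v w : V} : w ∈ dg G v ↔ v ∈ dg G w := by
  rw [mem_dg, mem_dg, G.adj_comm]

lemma not_mem_dg {G : SimpleGraph V} {v : V} : v ∉ dg G v := by
  rw [mem_dg]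
  exact G.irrefl

lemma mem_dg_compl {G : SimpleGraph V} {v w : V} : w ∈ dg Gᶜ v ↔ w ≠ v ∧ w ∉ dg G v := by
  rw [mem_dg, mem_dg, SimpleGraph.compl_adj]
  exact ⟨fun h => ⟨h.1.symm, h.2⟩, fun h => ⟨h.1.symm, h.2⟩⟩

/-- `P` is a probability distribution on `X` which covers every point of `X` with probability at
least one half. -/
structure Cov (G : SimpleGraph V) (X : Finset V) (P : V → ℝ) : Prop where
  nn : ∀ v, 0 ≤ P v
  sp : ∀ v, v ∉ X → P v = 0
  one : ∑ v, P v = 1
  cov : ∀ w ∈ X, 1 - P w ≤ 2 * ∑ v ∈ dg G w, P v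

end

section

variable {V : Type} [Fintype V] [DecidableEq V]

/-- The neighbours of the vertices `c t`, `t ∈ J`. -/
noncomputable def nc (G : SimpleGraph V) (c : ℕ → V) (J : Finset ℕ) : Finset V :=
  J.biUnion (fun t => dg G (c t))

lemma mem_nc {G : SimpleGraph V} {c : ℕ → V} {J : Finset ℕ} {w : V} :
    w ∈ nc G c J ↔ ∃ t ∈ J, w ∈ dg G (c t) := by
  simp [nc]

/-- A chain of length `i` with surplus `f` (see T_EXT). -/
structure Chain (G : SimpleGraph V) (a : ℕ → ℕ) (f i : ℕ) (c : ℕ → V) (D : ℕ → Finset V) :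
    Prop where
  inj : Set.InjOn c (Set.Iio i)
  sub : ∀ t < i, D t ⊆ dg G (c t)
  crd : ∀ t < i, (D t).card = a t
  dsj : ∀ s < i, ∀ t < i, s ≠ t → Disjoint (D s) (D t)
  sur : ∀ t < i, a t + f ≤ (dg G (c t) \ (range t).biUnion D).card
  top : 0 < i → ∀ v, (dg G v).card ≤ (dg G (c 0)).card

/-- The vertex `v` with the index set `J` violates Hall's condition (`C` = the centres). -/
def Vio (G : SimpleGraph V) (a : ℕ → ℕ) (K : ℕ) (c : ℕ → V) (v : V) (J : Finset ℕ) : Prop :=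
  J ⊆ range K ∧
    (((dg G v ∪ nc G c J) \ (range K).image c) \ {v}).card + 1 ≤ ∑ t ∈ J, a t + a K

/-- A system of disjoint sets of leaves for the centres `c t`, `t < K`, which avoid the centres and
the set `E`. -/
structure Sys (G : SimpleGraph V) (a : ℕ → ℕ) (K : ℕ) (c : ℕ → V) (E : Finset V)
    (D : ℕ → Finset V) : Prop where
  sub : ∀ t < K, D t ⊆ dg G (c t)
  avC : ∀ t < K, Disjoint (D t) ((range K).image c)
  avE : ∀ t < K, Disjoint (D t) E
  crd : ∀ t < K, (D t).card = a t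
  dsj : ∀ s < K, ∀ t < K, s ≠ t → Disjoint (D s) (D t)

/-- The points outside the centres and the system. -/
def Out (K : ℕ) (c : ℕ → V) (D : ℕ → Finset V) : Finset V :=
  univ \ ((range K).image c ∪ (range K).biUnion D)

/-- The type of a colour class (see T_COL). -/
structure Typ (G : SimpleGraph V) (a : ℕ → ℕ) (K L M : ℕ) (X0 : Finset V)
    (J1 J2 : Finset ℕ) : Prop where
  dsj : Disjoint J1 J2
  uni : J1 ∪ J2 = range K
  lo1 : ∑ t ∈ J1, a t + a K ≤ X0.card + 2 * L
  up1 : X0.card ≤ ∑ t ∈ J1, a t + a K + 2 * L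
  lo2 : ∑ t ∈ J2, a t + a K ≤ (X0ᶜ).card + 2 * L
  up2 : (X0ᶜ).card ≤ ∑ t ∈ J2, a t + a K + 2 * L
  T1 : K + 2 ≤ (univ.filter (fun v => (symmDiff (dg G v) X0).card ≤ M)).card
  T2 : K + 2 ≤ (univ.filter (fun v => (symmDiff (dg G v) X0ᶜ).card ≤ M)).card

/-- `G` is almost complete inside `X` and inside the complement of `X`, and almost empty between
them. -/
structure Two (G : SimpleGraph V) (X : Finset V) (l : ℕ) : Prop where
  inn : ∀ u ∈ X, (symmDiff (dg G u) X).card ≤ l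
  out : ∀ u, u ∉ X → (symmDiff (dg G u) Xᶜ).card ≤ l

lemma Two.mono {G : SimpleGraph V} {X : Finset V} {l l' : ℕ} (h : Two G X l) (hl : l ≤ l') :
    Two G X l' :=
  ⟨fun u hu => (h.inn u hu).trans hl, fun u hu => (h.out u hu).trans hl⟩

lemma Two.symm {G : SimpleGraph V} {X : Finset V} {l : ℕ} (h : Two G X l) : Two G Xᶜ l := by
  refine ⟨fun u hu => h.out u (mem_compl.1 hu), fun u hu => ?_⟩
  rw [compl_compl]
  rw [mem_compl, not_not] at hu
  exact h.inn u hu

end

/-- The bound for exceptional sets. -/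
def LL (K q : ℕ) : ℕ := 200 * (K + 1) * q ^ 2

/-- The bound for exceptional sets in the two block structure. -/
def el (K q : ℕ) : ℕ := 200 * LL K q

/-- `K + 1` stars of sizes `a 0, .., a K` in a graph with `N` vertices; `e` is the slack. -/
structure Par (a : ℕ → ℕ) (K q e N : ℕ) : Prop where
  hK : 1 ≤ K
  min : ∀ t ≤ K, a K ≤ a t
  max : ∀ t ≤ K, a t + 4 * e ≤ 2 * a K
  big : 10 * (el K q) ^ 2 ≤ e
  lo : ∑ t ∈ range (K + 1), a t + a K ≤ N
  up : N ≤ q * e
  epos : 1 ≤ e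

/-- The two block colouring with the blocks `x` and `y` admits the star forest with `k` stars. -/
def fits (a : ℕ → ℕ) (k x y : ℕ) : Prop :=
  ∃ A ⊆ range k,
    (∑ t ∈ A, a t + A.card ≤ x ∧ ∑ t ∈ range k \ A, a t + (range k \ A).card ≤ y) ∨
    (∑ t ∈ A, a t + (range k \ A).card ≤ x ∧ ∑ t ∈ range k \ A, a t + A.card ≤ y)

/-- The same for sizes indexed by `Fin k`. -/
def Fits {k : ℕ} (n : Fin k → ℕ) (x y : ℕ) : Prop :=
  ∃ A : Finset (Fin k),
    (∑ i ∈ A, n i + A.card ≤ x ∧ ∑ i ∈ Aᶜ, n i + (Aᶜ).card ≤ y) ∨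
    (∑ i ∈ A, n i + (Aᶜ).card ≤ x ∧ ∑ i ∈ Aᶜ, n i + A.card ≤ y)

namespace Par

variable {a : ℕ → ℕ} {K q e N : ℕ}

lemma q1 (h : Par a K q e N) : 1 ≤ q := by
  have h1 := h.lo
  have h2 := h.up
  have h3 := h.max K le_rfl
  have h4 := h.epos
  rcases Nat.eq_zero_or_pos q with h5 | h5
  · rw [h5, zero_mul] at h2
    omega
  · exact h5

lemma L1 (h : Par a K q e N) : 200 * (K + 1) ≤ LL K q := by
  unfold LL
  have h1 := h.q1
  have h2 : 1 ≤ q ^ 2 := Nat.one_le_pow _ _ h1
  calc 200 * (K + 1) = 200 * (K + 1) * 1 := by ring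
    _ ≤ 200 * (K + 1) * q ^ 2 := Nat.mul_le_mul_left _ h2

lemma L2 (h : Par a K q e N) : 200 * (K + 1) * q ≤ LL K q := by
  unfold LL
  have h1 := h.q1
  calc 200 * (K + 1) * q = 200 * (K + 1) * q * 1 := by ring
    _ ≤ 200 * (K + 1) * q * q := Nat.mul_le_mul_left _ h1
    _ = 200 * (K + 1) * q ^ 2 := by ring

lemma l1 (_h : Par a K q e N) : el K q = 200 * LL K q := rfl

lemma e1 (h : Par a K q e N) : 400000 * el K q ≤ e := by
  have h1 := h.big
  have h2 := h.L1
  have h3 := h.l1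
  have h5 := h.hK
  have h4 : 40000 ≤ el K q := by omega
  calc 400000 * el K q = 10 * (40000 * el K q) := by ring
    _ ≤ 10 * (el K q * el K q) := Nat.mul_le_mul_left _ (Nat.mul_le_mul_right _ h4)
    _ = 10 * (el K q) ^ 2 := by ring
    _ ≤ e := h1

lemma a1 (h : Par a K q e N) : 4 * e ≤ a K := by
  have h1 := h.max K le_rfl
  omega

end Par

end Pool.Agent.SFB
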