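import Pool.Agent.SFB.Targets

/-!
# SFB: the final theorem from the targets BVL, EQS, CNV
-/

set_option autoImplicit false

open Finset

namespace Pool.Agent.SFB

open Pool.Agent.StarF (starForest ramsey)

namespace Final_

lemma mono {k : ℕ} {n : Fin k → ℕ} {x y x' y' : ℕ} (hx : x ≤ x') (hy : y ≤ y')
    (h : Fits n x y) : Fits n x' y' := by
  obtain ⟨A, h1 | h1⟩ := h
  · exact ⟨A, Or.inl ⟨h1.1.trans hx, h1.2.trans hy⟩⟩
  · exact ⟨A, Or.inr ⟨h1.1.trans hx, h1.2.trans hy⟩⟩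

lemma up {k : ℕ} {n : Fin k → ℕ} {N N' : ℕ} (hN : N ≤ N')
    (h : ∀ x y : ℕ, x + y = N → Fits n x y) : ∀ x y : ℕ, x + y = N' → Fits n x y := by
  intro x y hxy
  rcases le_total x N with h1 | h1
  · exact mono le_rfl (by omega) (h x (N - x) (by omega))
  · exact mono h1 (Nat.zero_le y) (h N 0 (by omega))

lemma nat_sizes {k : ℕ} (n : Fin k → ℕ) : ∃ a : ℕ → ℕ, n = fun i : Fin k => a i := by
  refine ⟨fun t => if h : t < k then n ⟨t, h⟩ else 0, ?_⟩
  funext i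
  simp

/-- The parameters. -/
lemma par (K : ℕ) (hK : 1 ≤ K) (δ : ℝ) (hδ : 0 < δ) : ∃ n₀ : ℕ, K + 2 ≤ n₀ ∧
    ∀ a : ℕ → ℕ, (∀ t ≤ K, a K ≤ a t) → n₀ ≤ a K → (∀ t ≤ K, (a t : ℝ) ≤ (2 - δ) * a K) →
    ∃ q e : ℕ, ∀ N : ℕ, ∑ t ∈ range (K + 1), a t + a K ≤ N →
      N ≤ ∑ t ∈ range (K + 1), a t + a K + K - 1 → Par a K q e N := by
  obtain ⟨q, hq⟩ := exists_nat_ge (8 * (3 * K + 3) / δ)
  obtain ⟨n1, hn1⟩ := exists_nat_ge (8 * (10 * (el K q : ℝ) ^ 2 + 1) / δ)
  refine ⟨n1 + K + 2, by omega, ?_⟩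
  intro a hmin hbig hmax
  set m : ℝ := (a K : ℝ) with hm
  have hmn : (n1 : ℝ) + K + 2 ≤ m := by rw [hm]; exact_mod_cast hbig
  have hK0 : (0 : ℝ) ≤ K := Nat.cast_nonneg K
  have hn0 : (0 : ℝ) ≤ n1 := Nat.cast_nonneg n1
  have hm0 : 0 < m := by linarith
  have h8 : 8 * (10 * (el K q : ℝ) ^ 2 + 1) ≤ δ * m := by
    have h1 : 8 * (10 * (el K q : ℝ) ^ 2 + 1) / δ ≤ m := by linarith
    rw [div_le_iff₀ hδ] at h1
    linarith
  have hsq : (0 : ℝ) ≤ (el K q : ℝ) ^ 2 := sq_nonneg _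
  set e : ℕ := ⌊δ * m / 4⌋₊ with he
  have he1 : (e : ℝ) ≤ δ * m / 4 := Nat.floor_le (by positivity)
  have he2 : δ * m / 4 < e + 1 := Nat.lt_floor_add_one _
  have he3 : δ * m / 8 ≤ e := by linarith
  refine ⟨q, e, ?_⟩
  intro N hlo hup
  have hKm : (K : ℝ) ≤ K * m := by nlinarith
  refine ⟨hK, hmin, ?_, ?_, hlo, ?_, ?_⟩
  · intro t ht
    have h1 := hmax t ht
    have h2 : ((a t + 4 * e : ℕ) : ℝ) ≤ ((2 * a K : ℕ) : ℝ) := by
      push_cast
      rw [← hm]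
      linarith
    exact_mod_cast h2
  · have h1 : ((10 * (el K q) ^ 2 : ℕ) : ℝ) ≤ (e : ℝ) := by
      push_cast
      linarith
    exact_mod_cast h1
  · have hs : ∑ t ∈ range (K + 1), (a t : ℝ) ≤ (K + 1) * (2 * m) := by
      have h1 : ∀ t ∈ range (K + 1), (a t : ℝ) ≤ 2 * m := by
        intro t ht
        have h2 := hmax t (Nat.lt_succ_iff.1 (mem_range.1 ht))
        nlinarith
      have h2 := Finset.sum_le_card_nsmul _ _ _ h1
      rw [card_range, nsmul_eq_mul] at h2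
      push_cast at h2
      exact h2
    have hN : (N : ℝ) ≤ ∑ t ∈ range (K + 1), (a t : ℝ) + m + K := by
      have h1 : N ≤ ∑ t ∈ range (K + 1), a t + a K + K := by omega
      have h2 : (N : ℝ) ≤ ((∑ t ∈ range (K + 1), a t + a K + K : ℕ) : ℝ) := by
        exact_mod_cast h1
      push_cast at h2
      exact h2
    have h3 : (N : ℝ) ≤ (3 * K + 3) * m := by linarith
    have h4 : (3 * K + 3) * m ≤ q * e := by
      have h5 : 8 * (3 * K + 3) ≤ q * δ := by rwa [div_le_iff₀ hδ] at hq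
      have h6 : (q : ℝ) * (δ * m / 8) ≤ q * e :=
        mul_le_mul_of_nonneg_left he3 (Nat.cast_nonneg q)
      have h7 : 8 * (3 * K + 3) * m ≤ q * δ * m := mul_le_mul_of_nonneg_right h5 hm0.le
      linarith
    have h8 : (N : ℝ) ≤ ((q * e : ℕ) : ℝ) := by
      push_cast
      linarith
    exact_mod_cast h8
  · have h1 : (1 : ℝ) ≤ (e : ℝ) := by linarith
    exact_mod_cast h1

end Final_

/-- The theorem. -/
theorem final (hBVL : T_BVL) (hEQS : T_EQS) (hCNV : T_CNV) :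
    ∀ k : ℕ, ∀ hk : 2 ≤ k, ∀ δ : ℝ, 0 < δ → ∃ n₀ : ℕ, ∀ n : Fin k → ℕ, Antitone n →
      n₀ ≤ n ⟨k - 1, by omega⟩ → (n ⟨0, by omega⟩ : ℝ) ≤ (2 - δ) * n ⟨k - 1, by omega⟩ →
      ramsey (starForest n) (starForest n) =
        sInf {N : ℕ | ∀ x y : ℕ, x + y = N → Fits n x y} ∧
      ∑ i, n i + n ⟨k - 1, by omega⟩ ≤ ramsey (starForest n) (starForest n) ∧
      ramsey (starForest n) (starForest n) ≤ ∑ i, n i + n ⟨k - 1, by omega⟩ + k - 2 ∧
      (n ⟨0, by omega⟩ = n ⟨k - 1, by omega⟩ →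
        ramsey (starForest n) (starForest n) = (k + 1) * n ⟨k - 1, by omega⟩ + k - 2) := by
  intro k hk δ hδ
  obtain ⟨K, rfl⟩ : ∃ K, k = K + 1 := ⟨k - 1, by omega⟩
  have hK : 1 ≤ K := by omega
  obtain ⟨n₀, hn0, hpar⟩ := Final_.par K hK (min δ 1) (lt_min hδ one_pos)
  refine ⟨n₀ + 2 * K + 4, ?_⟩
  intro n hanti hbig hmax
  obtain ⟨a, rfl⟩ := Final_.nat_sizes n
  simp only [Nat.add_sub_cancel] at hbig hmax ⊢
  have hmin : ∀ t ≤ K, a K ≤ a t := fun t ht =>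
    hanti (a := (⟨t, by omega⟩ : Fin (K + 1))) (b := ⟨K, by omega⟩) ht
  have hmax0 : ∀ t ≤ K, a t ≤ a 0 := fun t ht =>
    hanti (a := (⟨0, by omega⟩ : Fin (K + 1))) (b := ⟨t, by omega⟩) (Nat.zero_le t)
  have haK : (0 : ℝ) < a K := by
    have h1 : 0 < a K := by omega
    exact_mod_cast h1
  have hmaxδ : ∀ t ≤ K, (a t : ℝ) ≤ (2 - min δ 1) * a K := by
    intro t ht
    have h1 : (a t : ℝ) ≤ a 0 := by exact_mod_cast hmax0 t ht
    have h2 : (2 - δ) * (a K : ℝ) ≤ (2 - min δ 1) * a K :=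
      mul_le_mul_of_nonneg_right (by linarith [min_le_left δ 1]) haK.le
    linarith
  obtain ⟨q, e, hP⟩ := hpar a hmin (by omega) hmaxδ
  have hlt : ∀ t ≤ K, a t < 2 * a K := by
    intro t ht
    have h1 := hmaxδ t ht
    have h2 : 0 < min δ 1 := lt_min hδ one_pos
    have h3 : (a t : ℝ) < ((2 * a K : ℕ) : ℝ) := by
      push_cast
      nlinarith
    exact_mod_cast h3
  have key := hBVL a K q e hP hK (by omega) hmin hlt
  rw [Fin.sum_univ_eq_sum_range (fun t => a t) (K + 1)]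
  refine ⟨key.1, key.2.1, ?_, ?_⟩
  · have h1 := key.2.2
    omega
  · intro h0
    have hall : ∀ t ≤ K, a t = a K := fun t ht =>
      le_antisymm ((hmax0 t ht).trans_eq h0) (hmin t ht)
    have hsum : ∑ t ∈ range (K + 1), a t = (K + 1) * a K := by
      rw [Finset.sum_congr rfl fun t ht => hall t (Nat.lt_succ_iff.1 (mem_range.1 ht)),
        Finset.sum_const, card_range, smul_eq_mul]
    have hfun : (fun i : Fin (K + 1) => a i) = fun _ : Fin (K + 1) => a K := by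
      funext i
      exact hall i (Nat.lt_succ_iff.1 i.2)
    have e1 : (K + 1 + 1) * a K = (K + 1) * a K + a K := by ring
    refine le_antisymm ?_ ?_
    · have h1 := key.2.2
      rw [hsum] at h1
      omega
    · rw [key.1]
      obtain ⟨x, y, hxy, hnf⟩ := hEQS K (a K) hK (by omega)
      have hne : {N : ℕ | ∀ x y : ℕ, x + y = N →
          Fits (fun i : Fin (K + 1) => a i) x y}.Nonempty := by
        by_contra hne
        rw [Set.not_nonempty_iff_eq_empty] at hne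
        have h5 := key
        rw [hne, Nat.sInf_empty] at h5
        have h6 := h5.2.1
        rw [h5.1] at h6
        omega
      apply le_csInf hne
      intro N hN
      by_contra hlt2
      push Not at hlt2
      apply hnf
      rw [hCNV]
      rw [hfun] at hN
      have e2 : (K + 1 + 1) * a K = (K + 2) * a K := by ring
      exact Final_.up (N := N) (N' := x + y) (by omega) hN x y rfl

end Pool.Agent.SFB
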