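import Pool.Agent.SFB.Targets

set_option autoImplicit false

open Finset

namespace Pool.Agent.SFB

open Pool.Agent.StarF (starForest ramsey)

namespace LOW_

/-- The two block graph. -/
def blk (x y : ℕ) : SimpleGraph (Fin (x + y)) where
  Adj u v := u ≠ v ∧ ((u : ℕ) < x ↔ (v : ℕ) < x)
  symm := ⟨fun _ _ h => ⟨h.1.symm, h.2.symm⟩⟩
  loopless := ⟨fun _ h => h.1 rfl⟩

lemma cnt1 {k : ℕ} {n : Fin k → ℕ} {x y : ℕ} (φ : (Σ i : Fin k, Option (Fin (n i))) → Fin (x + y))
    (hφ : Function.Injective φ) :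
    ∑ i, (univ.filter (fun o : Option (Fin (n i)) => ((φ ⟨i, o⟩ : Fin (x + y)) : ℕ) < x)).card
      ≤ x := by
  rw [← Finset.card_sigma]
  calc _ ≤ (range x).card := by
        apply Finset.card_le_card_of_injOn (fun s => ((φ s : Fin (x + y)) : ℕ))
        · rintro ⟨i, o⟩ h
          rw [mem_coe, mem_sigma, mem_filter] at h
          rw [mem_coe, mem_range]
          exact h.2.2
        · intro s _ t _ h
          exact hφ (Fin.ext h)
    _ = x := card_range x

lemma cnt2 {k : ℕ} {n : Fin k → ℕ} {x y : ℕ} (φ : (Σ i : Fin k, Option (Fin (n i))) → Fin (x + y))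
    (hφ : Function.Injective φ) :
    ∑ i, (univ.filter (fun o : Option (Fin (n i)) => ¬ ((φ ⟨i, o⟩ : Fin (x + y)) : ℕ) < x)).card
      ≤ y := by
  rw [← Finset.card_sigma]
  calc _ ≤ (Ico x (x + y)).card := by
        apply Finset.card_le_card_of_injOn (fun s => ((φ s : Fin (x + y)) : ℕ))
        · rintro ⟨i, o⟩ h
          rw [mem_coe, mem_sigma, mem_filter] at h
          rw [mem_coe, mem_Ico]
          exact ⟨not_lt.1 h.2.2, (φ ⟨i, o⟩).2⟩
        · intro s _ t _ h
          exact hφ (Fin.ext h)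
    _ = y := by simp

lemma all_card {m : ℕ} (p : Option (Fin m) → Prop) [DecidablePred p] (h : ∀ o, p o) :
    m + 1 ≤ (univ.filter p).card := by
  rw [Finset.filter_true_of_mem fun o _ => h o, card_univ, Fintype.card_option, Fintype.card_fin]

lemma some_card {m : ℕ} (p : Option (Fin m) → Prop) [DecidablePred p] (h : ∀ j, p (some j)) :
    m ≤ (univ.filter p).card := by
  have h1 : (univ : Finset (Fin m)).map Function.Embedding.some ⊆ univ.filter p := by
    intro o ho
    rw [mem_map] at ho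
    obtain ⟨j, -, rfl⟩ := ho
    exact mem_filter.2 ⟨mem_univ _, h j⟩
  have h2 := card_le_card h1
  rwa [card_map, card_univ, Fintype.card_fin] at h2

lemma none_card {m : ℕ} (p : Option (Fin m) → Prop) [DecidablePred p] (h : p none) :
    1 ≤ (univ.filter p).card :=
  Finset.card_pos.2 ⟨none, mem_filter.2 ⟨mem_univ _, h⟩⟩

lemma sum1 {k : ℕ} (n g : Fin k → ℕ) (A : Finset (Fin k)) (h : ∀ i ∈ A, n i + 1 ≤ g i) :
    ∑ i ∈ A, n i + A.card ≤ ∑ i, g i := by
  calc ∑ i ∈ A, n i + A.card = ∑ i ∈ A, (n i + 1) := by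
        rw [Finset.sum_add_distrib, Finset.sum_const, smul_eq_mul, mul_one]
    _ ≤ ∑ i ∈ A, g i := Finset.sum_le_sum h
    _ ≤ ∑ i, g i := Finset.sum_le_sum_of_subset (subset_univ A)

lemma sum2 {k : ℕ} (n g : Fin k → ℕ) (A : Finset (Fin k)) (h : ∀ i ∈ A, n i ≤ g i)
    (h' : ∀ i ∈ Aᶜ, 1 ≤ g i) : ∑ i ∈ A, n i + (Aᶜ).card ≤ ∑ i, g i := by
  rw [← Finset.sum_add_sum_compl A g]
  have h1 := Finset.sum_le_sum h
  have h2 := Finset.sum_le_sum h'
  rw [Finset.sum_const, smul_eq_mul, mul_one] at h2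
  omega

end LOW_

open LOW_ in
theorem p_LOW : T_LOW := by
  classical
  intro k n x y hnf
  refine ⟨blk x y, ?_, ?_⟩
  · rintro ⟨φ⟩
    apply hnf
    have hadj : ∀ (i : Fin k) (j : Fin (n i)),
        (((φ ⟨i, none⟩ : Fin (x + y)) : ℕ) < x ↔ ((φ ⟨i, some j⟩ : Fin (x + y)) : ℕ) < x) := by
      intro i j
      have h1 : (starForest n).Adj ⟨i, none⟩ ⟨i, some j⟩ := ⟨rfl, Or.inl ⟨rfl, by simp⟩⟩
      exact (φ.toHom.map_adj h1).2
    have c1 := cnt1 φ φ.injective
    have c2 := cnt2 φ φ.injective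
    refine ⟨univ.filter (fun i => ((φ ⟨i, none⟩ : Fin (x + y)) : ℕ) < x), Or.inl ⟨?_, ?_⟩⟩
    · refine (sum1 n _ _ ?_).trans c1
      intro i hi
      rw [mem_filter] at hi
      apply all_card
      intro o
      cases o with
      | none => exact hi.2
      | some j => exact (hadj i j).1 hi.2
    · refine (sum1 n _ _ ?_).trans c2
      intro i hi
      rw [mem_compl, mem_filter] at hi
      have hi' : ¬ ((φ ⟨i, none⟩ : Fin (x + y)) : ℕ) < x := fun h => hi ⟨mem_univ _, h⟩
      apply all_card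
      intro o
      cases o with
      | none => exact hi'
      | some j => exact fun h => hi' ((hadj i j).2 h)
  · rintro ⟨φ⟩
    apply hnf
    have hadj : ∀ (i : Fin k) (j : Fin (n i)),
        ¬ (((φ ⟨i, none⟩ : Fin (x + y)) : ℕ) < x ↔ ((φ ⟨i, some j⟩ : Fin (x + y)) : ℕ) < x) := by
      intro i j
      have h1 : (starForest n).Adj ⟨i, none⟩ ⟨i, some j⟩ := ⟨rfl, Or.inl ⟨rfl, by simp⟩⟩
      have h2 := φ.toHom.map_adj h1
      rw [SimpleGraph.compl_adj] at h2
      intro h3
      exact h2.2 ⟨h2.1, h3⟩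
    have c1 := cnt1 φ φ.injective
    have c2 := cnt2 φ φ.injective
    refine ⟨univ.filter (fun i => ¬ ((φ ⟨i, none⟩ : Fin (x + y)) : ℕ) < x), Or.inr ⟨?_, ?_⟩⟩
    · refine (sum2 n _ _ ?_ ?_).trans c1
      · intro i hi
        rw [mem_filter] at hi
        apply some_card
        intro j
        have h1 := hadj i j
        tauto
      · intro i hi
        rw [mem_compl, mem_filter] at hi
        apply none_card
        by_contra h
        exact hi ⟨mem_univ _, h⟩
    · rw [← compl_compl (univ.filter (fun i => ¬ ((φ ⟨i, none⟩ : Fin (x + y)) : ℕ) < x)),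
        compl_compl (univ.filter (fun i => ¬ ((φ ⟨i, none⟩ : Fin (x + y)) : ℕ) < x))ᶜ]
      refine (sum2 n _ _ ?_ ?_).trans c2
      · intro i hi
        rw [mem_compl, mem_filter] at hi
        apply some_card
        intro j
        have h1 := hadj i j
        have h2 : ((φ ⟨i, none⟩ : Fin (x + y)) : ℕ) < x := by
          by_contra h
          exact hi ⟨mem_univ _, h⟩
        tauto
      · intro i hi
        rw [mem_compl, mem_compl, not_not, mem_filter] at hi
        apply none_card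
        exact hi.2

end Pool.Agent.SFB
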