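import Pool.Agent.SFB.Defs

/-!
# SFB: exact diagonal Ramsey numbers of balanced star forests (MP_705b7e_co): targets

The proofs are in the docstrings. Conventions: `k = K + 1` stars, `m = a K` the smallest size,
`N = |V|`, `s(J) = ∑ t ∈ J, a t`, `S = s(range (K + 1))`, `C` = the set of centres, `L = LL K q`,
`l = el K q = 200 L`.
-/

set_option autoImplicit false

open Finset

namespace Pool.Agent.SFB

open Pool.Agent.StarF (starForest ramsey)

/-! ### Hall's condition and chains -/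

/-- EMB. Hall's condition gives a copy of the star forest. Proof: `Pool.Agent.StarF.pack_full`
with `Pack G a k k c` (surplus `k - k = 0`); the set `nb G c J ((range k).image c)` of StarF equals
`nc G c J \ (range k).image c` (extensionality; the decidability instances of StarF are classical,
use `convert` or compare cardinalities by an injection). -/
def T_EMB : Prop := ∀ (V : Type) [Fintype V] [DecidableEq V] (G : SimpleGraph V) (k : ℕ)
  (a : ℕ → ℕ) (c : ℕ → V), Set.InjOn c (Set.Iio k) →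
  (∀ J ⊆ range k, J.Nonempty → ∑ t ∈ J, a t ≤ (nc G c J \ (range k).image c).card) → Con G k a

/-- SUR. Surplus of a chain. Proof: let `t` be the largest element of `J`. The set `nc G c J`
contains the sets `D s`, `s ∈ J`, `s < t` (disjoint, `|D s| = a s`) and
`dg G (c t) \ (range t).biUnion D` (disjoint from them, at least `a t + f` elements). -/
def T_SUR : Prop := ∀ (V : Type) [Fintype V] [DecidableEq V] (G : SimpleGraph V) (a : ℕ → ℕ)
  (f i : ℕ) (c : ℕ → V) (D : ℕ → Finset V), Chain G a f i c D →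
  ∀ J ⊆ range i, J.Nonempty → ∑ t ∈ J, a t + f ≤ (nc G c J).card

/-- VIO (from EMB). Every further vertex has a violator. Proof: put `c' K = v`, `c' t = c t` for
`t < K` (injective on `Iio (K + 1)`). By EMB some nonempty `J' ⊆ range (K + 1)` has
`|nc G c' J' \ C'| < s(J')`, where `C' = C ∪ {v}`. If `K ∉ J'` then `nc G c' J' = nc G c J'` has
at least `s(J') + K + 1` elements and `|C'| ≤ K + 1`: contradiction. So `K ∈ J'`, and
`J = J'.erase K` works, since `nc G c' J' = dg G v ∪ nc G c J` (see also StarF.violator). -/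
def T_VIO : Prop := ∀ (V : Type) [Fintype V] [DecidableEq V] (G : SimpleGraph V) (a : ℕ → ℕ)
  (K : ℕ) (c : ℕ → V) (v : V), Set.InjOn c (Set.Iio K) →
  (∀ J ⊆ range K, J.Nonempty → ∑ t ∈ J, a t + (K + 1) ≤ (nc G c J).card) →
  ¬ Con G (K + 1) a → v ∉ (range K).image c → ∃ J, Vio G a K c v J

/-- MMX. Minimax. Proof: `Pool.Agent.StarF.ville` for the symmetric matrix `M v w = 0` if `v = w`,
`1` if `G.Adj v w`, `-1` otherwise; extend `P` by zero outside `X`. If `p, p'` are the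
probabilities of the neighbours and of the non-neighbours (different from `w`) of `w` then
`p + p' + P w = 1` and `p ≥ p'` (resp. `p' ≥ p`). -/
def T_MMX : Prop := ∀ (V : Type) [Fintype V] (G : SimpleGraph V) (X : Finset V), X.Nonempty →
  (∃ P, Cov G X P) ∨ ∃ P, Cov Gᶜ X P

/-- AVE. Averaging. Proof: `∑ v, P v * |dg v ∩ W| = ∑ w ∈ W, ∑ v ∈ dg w, P v` (symmetry of
adjacency), the terms are nonnegative, and for `w ∈ W ∩ X` twice the term is at least `1 - P w`;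
`∑ w ∈ W ∩ X, P w ≤ 1`. -/
def T_AVE : Prop := ∀ (V : Type) [Fintype V] [DecidableEq V] (G : SimpleGraph V) (X : Finset V)
  (P : V → ℝ), Cov G X P → ∀ W : Finset V,
  ((W ∩ X).card : ℝ) - 1 ≤ 2 * ∑ v, P v * ((dg G v ∩ W).card : ℝ)

/-- MCH. A maximal chain. Proof: the chain of length 0 exists (`c` constant, `D` empty sets; all
conditions are void); take the largest `i ≤ K` such that a chain of length `i` exists. -/
def T_MCH : Prop := ∀ (V : Type) [Fintype V] [DecidableEq V] [Nonempty V] (G : SimpleGraph V)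
  (a : ℕ → ℕ) (f K : ℕ), ∃ i ≤ K, ∃ (c : ℕ → V) (D : ℕ → Finset V), Chain G a f i c D ∧
    (i < K → ∀ (c' : ℕ → V) (D' : ℕ → Finset V), ¬ Chain G a f (i + 1) c' D')

/-- EXT (from AVE). Extension of a chain. Proof: `W = univ \ (range i).biUnion D`. Then
`|W ∩ X| ≥ N - r - s(range i)`, so by AVE `∑ v, P v * |dg v ∩ W| ≥ a i + f`, hence some `v` with
`P v ≠ 0` (so `v ∈ X`) has `|dg v ∩ W| ≥ a i + f`. If `i ≥ 1` put `c' i = v` (it differs from
the `c t ∉ X`) and let `D' i` be a subset of `dg v ∩ W` with `a i` elements, `c' t = c t`,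
`D' t = D t` for `t < i`. If `i = 0` let `c' 0` be a vertex of maximal degree (at least
`|dg v| ≥ a 0 + f`) and `D' 0` a subset of its neighbourhood. -/
def T_EXT : Prop := ∀ (V : Type) [Fintype V] [DecidableEq V] (G : SimpleGraph V) (X : Finset V)
  (P : V → ℝ) (a : ℕ → ℕ) (f i r : ℕ) (c : ℕ → V) (D : ℕ → Finset V), Cov G X P →
  (Xᶜ).card ≤ r → (∀ t < i, c t ∉ X) → Chain G a f i c D →
  2 * (a i + f) + r + 1 + ∑ t ∈ range i, a t ≤ Fintype.card V →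
  ∃ (c' : ℕ → V) (D' : ℕ → Finset V), Chain G a f (i + 1) c' D'

/-- AVD. A system avoiding a small set `E`. Proof: `Pool.Agent.StarF.hall` with
`A t = dg (c t) \ (C ∪ E)`: `|C ∪ E| ≤ K + e`. -/
def T_AVD : Prop := ∀ (V : Type) [Fintype V] [DecidableEq V] (G : SimpleGraph V) (a : ℕ → ℕ)
  (K e : ℕ) (c : ℕ → V) (E : Finset V),
  (∀ J ⊆ range K, J.Nonempty → ∑ t ∈ J, a t + (e + K) ≤ (nc G c J).card) → E.card ≤ e →
  ∃ D : ℕ → Finset V, Sys G a K c E D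

/-- AV0 (from AVD). A system with `D 0 ⊇ E`. Proof: let `D'` be a system avoiding `E` (AVD);
`D 0 = E ∪ Q` where `Q ⊆ D' 0` has `a 0 - |E|` elements, `D t = D' t` for `t ≥ 1`. -/
def T_AV0 : Prop := ∀ (V : Type) [Fintype V] [DecidableEq V] (G : SimpleGraph V) (a : ℕ → ℕ)
  (K e : ℕ) (c : ℕ → V) (E : Finset V),
  (∀ J ⊆ range K, J.Nonempty → ∑ t ∈ J, a t + (e + K) ≤ (nc G c J).card) → E.card ≤ e →
  E ⊆ dg G (c 0) → Disjoint E ((range K).image c) → e ≤ a 0 →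
  ∃ D : ℕ → Finset V, Sys G a K c ∅ D ∧ (0 < K → E ⊆ D 0)

/-- INE. Proof: the three sets and `J.biUnion D \ {v}` (at least `s(J) - 1` elements) are pairwise
disjoint subsets of `((dg v ∪ nc J) \ C) \ {v}`, which has at most `s(J) + a K - 1` elements. -/
def T_INE : Prop := ∀ (V : Type) [Fintype V] [DecidableEq V] (G : SimpleGraph V) (a : ℕ → ℕ)
  (K : ℕ) (c : ℕ → V) (v : V) (J : Finset ℕ) (D : ℕ → Finset V), Vio G a K c v J →
  Sys G a K c ∅ D →
  (dg G v ∩ Out K c D).card + (dg G v ∩ (range K \ J).biUnion D).card +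
    (((nc G c J ∩ Out K c D) \ dg G v) \ {v}).card ≤ a K

/-- AVG (from AVE, INE). Proof: average INE over `P` (`P v = 0` outside `X`): the sum of the three
expectations is at most `a K`. `Out ∩ X = X \ (range K).biUnion D` has at least
`N - r - s(range K) ≥ 2 a K - r` elements, so by AVE the first expectation is at least
`a K - (r + 1) / 2`; the other two are together at most `(r + 1) / 2 ≤ r`. -/
def T_AVG : Prop := ∀ (V : Type) [Fintype V] [DecidableEq V] (G : SimpleGraph V) (X : Finset V)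
  (P : V → ℝ) (a : ℕ → ℕ) (K r : ℕ) (c : ℕ → V) (J : V → Finset ℕ) (D : ℕ → Finset V),
  Cov G X P → (Xᶜ).card ≤ r → 1 ≤ r → (∀ t < K, c t ∉ X) → (∀ v ∈ X, Vio G a K c v (J v)) →
  Sys G a K c ∅ D → ∑ t ∈ range K, a t + 2 * a K ≤ Fintype.card V →
  ∑ v, P v * (((dg G v ∩ (range K \ J v).biUnion D).card : ℝ) +
    ((((nc G c (J v) ∩ Out K c D) \ dg G v) \ {v}).card : ℝ)) ≤ r

/-- BLQ. Covering by `q` blocks of size at most `e`. Proof: `V` is equivalent to `Fin N`;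
`B j` = the elements with number `i` such that `i / e = j` (if `e = 0` then `V` is empty). -/
def T_BLQ : Prop := ∀ (V : Type) [Fintype V] [DecidableEq V] (q e : ℕ),
  Fintype.card V ≤ q * e → ∃ B : ℕ → Finset V, (∀ j, (B j).card ≤ e) ∧ ∀ v, ∃ j < q, v ∈ B j

/-- SMA (from AVD, AVG, BLQ). Proof: for every block `B j` take a system avoiding `B j` (AVD) and
apply AVG: `(nc (J v) ∩ B j) \ C ⊆ Out`, so
`∑ v, P v * |(((nc (J v) ∩ B j) \ C) \ dg v) \ {v}| ≤ r`. Sum over `j < q`, and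
`|nc (J v) \ dg v| ≤ ∑ j, |(((nc (J v) ∩ B j) \ C) \ dg v) \ {v}| + K + 1`. -/
def T_SMA : Prop := ∀ (V : Type) [Fintype V] [DecidableEq V] (G : SimpleGraph V) (X : Finset V)
  (P : V → ℝ) (a : ℕ → ℕ) (K q e r : ℕ) (c : ℕ → V) (J : V → Finset ℕ),
  Cov G X P → (Xᶜ).card ≤ r → 1 ≤ r → (∀ t < K, c t ∉ X) → (∀ v ∈ X, Vio G a K c v (J v)) →
  (∀ J ⊆ range K, J.Nonempty → ∑ t ∈ J, a t + (e + K) ≤ (nc G c J).card) →
  ∑ t ∈ range K, a t + 2 * a K ≤ Fintype.card V → Fintype.card V ≤ q * e →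
  ∑ v, P v * ((nc G c (J v) \ dg G v).card : ℝ) ≤ q * r + K + 1

/-- SMB (from AV0, AVG, BLQ). Proof: for every block `B j` put `E = (B j ∩ dg (c 0)) \ C` and take
a system with `E ⊆ D 0` (AV0). If `0 ∉ J v` then
`dg v ∩ E ⊆ dg v ∩ (range K \ J v).biUnion D`; apply AVG and sum over `j < q`; the points of `C`
contribute at most `K`. -/
def T_SMB : Prop := ∀ (V : Type) [Fintype V] [DecidableEq V] (G : SimpleGraph V) (X : Finset V)
  (P : V → ℝ) (a : ℕ → ℕ) (K q e r : ℕ) (c : ℕ → V) (J : V → Finset ℕ),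
  Cov G X P → (Xᶜ).card ≤ r → 1 ≤ r → (∀ t < K, c t ∉ X) → (∀ v ∈ X, Vio G a K c v (J v)) →
  (∀ J ⊆ range K, J.Nonempty → ∑ t ∈ J, a t + (e + K) ≤ (nc G c J).card) →
  ∑ t ∈ range K, a t + 2 * a K ≤ Fintype.card V → Fintype.card V ≤ q * e → 1 ≤ K → e ≤ a 0 →
  ∑ v, P v * (if 0 ∈ J v then 0 else ((dg G v ∩ dg G (c 0)).card : ℝ)) ≤ q * r + K

/-- TYP (from AVE). Two witnesses. Proof: `X0 = dg (c 0)`, `k = K + 1`, `r = 6 k`, `M = 7 k q`, `p`
= the sum of `P v` over the `v` with `0 ∈ J v`.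
(1) AVE with `W = X0`: `|X0| - r - 1 ≤ 2 (p |X0| + M)`, so `(1 - 2 p) |X0| ≤ r + 1 + 2 M ≤ 21 k q`
and `p ≥ 1 / 4` as `|X0| ≥ e ≥ 42 k q` (`Par.e1`, `Par.L2`).
(2) So some `v ∈ X` has `0 ∈ J v`, hence `X0 ⊆ nc (J v)` has at most
`s(J v) + a K + K ≤ s(range K) + a K + K` elements (Vio), so `|X0ᶜ| ≥ a K - K ≥ e`.
(3) If `0 ∈ J v` then `|dg v \ X0| ≤ |X0 \ dg v| ≤ |nc (J v) \ dg v|` (`|dg v| ≤ |X0|`).
(4) AVE with `W = X0ᶜ`: `|X0ᶜ| - r - 1 ≤ 2 (M + (1 - p) |X0ᶜ| - E)`, `E` = the sum of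
`P v * |X0ᶜ \ dg v|` over `0 ∉ J v`. So `2 E ≤ 2 M + r + 1 + (1 - 2 p) |X0ᶜ| ≤ 42 k q ^ 2` because
`|X0ᶜ| ≤ N ≤ q e ≤ q |X0|`; and `(1 - 2 (1 - p)) |X0ᶜ| ≤ 21 k q` gives `1 - p ≥ 1 / 4`.
(5) Sum over `0 ∈ J v` of `P v * (|symmDiff| + |nc (J v) \ dg v|) ≤ 3 M < L / 4 ≤ L p`: so some
`v` with `P v ≠ 0`, `0 ∈ J v` has both terms at most `L`. Similarly for `0 ∉ J v`:
`symmDiff (dg v) X0ᶜ = (dg v ∩ X0) ∪ (X0ᶜ \ dg v)`, the sum is at most
`M + 21 k q ^ 2 + M ≤ 35 k q ^ 2 < L / 4`. -/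
def T_TYP : Prop := ∀ (V : Type) [Fintype V] [DecidableEq V] (G : SimpleGraph V) (X : Finset V)
  (P : V → ℝ) (a : ℕ → ℕ) (K q e : ℕ) (c : ℕ → V) (J : V → Finset ℕ),
  Par a K q e (Fintype.card V) → Cov G X P → (Xᶜ).card ≤ 6 * (K + 1) →
  (∀ v ∈ X, Vio G a K c v (J v)) → (∀ v, (dg G v).card ≤ (dg G (c 0)).card) →
  e ≤ (dg G (c 0)).card →
  ∑ v, P v * ((nc G c (J v) \ dg G v).card : ℝ) ≤ 7 * (K + 1) * q →
  ∑ v, P v * (if 0 ∈ J v then 0 else ((dg G v ∩ dg G (c 0)).card : ℝ)) ≤ 7 * (K + 1) * q →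
  (∃ v ∈ X, 0 ∈ J v ∧ (symmDiff (dg G v) (dg G (c 0))).card ≤ LL K q ∧
    (nc G c (J v) \ dg G v).card ≤ LL K q) ∧
  (∃ v ∈ X, 0 ∉ J v ∧ (symmDiff (dg G v) (dg G (c 0))ᶜ).card ≤ LL K q ∧
    (nc G c (J v) \ dg G v).card ≤ LL K q)

/-- STR. The sizes. Proof: `X0 = dg (c 0)`. If `t ∈ J1 ∩ J2` then all but `2 L` elements of
`dg (c t)` are in `dg v1 ∩ dg v2`, which has at most `2 L` elements: `e ≤ |dg (c t)| ≤ 4 L`,
contradiction. `|dg v| ≤ |((dg v ∪ nc J) \ C) \ {v}| + K ≤ s(J) + a K - 1 + K` (Vio, `v ∉ dg v`),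
so `|X0| ≤ s(J1) + a K + K + L` and `|X0ᶜ| ≤ s(J2) + a K + K + L`; the sum is
`N ≥ s(range K) + 2 a K`. If some `t < K` is not in `J1 ∪ J2` then
`s(J1) + s(J2) ≤ s(range K) - a K`: contradiction. The lower bounds follow from
`|X0| = N - |X0ᶜ|`. -/
def T_STR : Prop := ∀ (V : Type) [Fintype V] [DecidableEq V] (G : SimpleGraph V)
  (a : ℕ → ℕ) (K q e : ℕ) (c : ℕ → V) (v1 v2 : V) (J1 J2 : Finset ℕ),
  Par a K q e (Fintype.card V) → (∀ t < K, e ≤ (dg G (c t)).card) →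
  Vio G a K c v1 J1 → Vio G a K c v2 J2 →
  (symmDiff (dg G v1) (dg G (c 0))).card ≤ LL K q → (nc G c J1 \ dg G v1).card ≤ LL K q →
  (symmDiff (dg G v2) (dg G (c 0))ᶜ).card ≤ LL K q → (nc G c J2 \ dg G v2).card ≤ LL K q →
  K + 2 ≤ (univ.filter (fun v => (symmDiff (dg G v) (dg G (c 0))).card ≤ LL K q)).card →
  K + 2 ≤ (univ.filter (fun v => (symmDiff (dg G v) (dg G (c 0))ᶜ).card ≤ LL K q)).card →
  Typ G a K (LL K q) (LL K q) (dg G (c 0)) J1 J2

/-- COL (from EXT, SUR, VIO, SMA, SMB, TYP, STR). One colour. Proof: if `i < K` then EXT with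
`f = e + K`, `r = 6 (K + 1)` contradicts the maximality: `N - s(range i) ≥ a i + (a K) + a K` and
`2 a K - a i ≥ 4 e ≥ 2 (e + K) + r + 1`. So `i = K`. SUR gives the surplus `e + K`, VIO the
violators `J v` for `v ∈ X` (choose `J v = ∅` outside), SMA and SMB with `r = 6 (K + 1)` give the
hypotheses of TYP (`q * r + K + 1 ≤ 7 (K + 1) q`, `e ≤ a 0` by Par), `Chain.top` the maximality,
`Chain.sur` the bounds `e ≤ |dg (c t)|`. The two witnesses are in `X`, so the two filter sets have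
more than `K + 1` elements (hypotheses). STR. -/
def T_COL : Prop := ∀ (V : Type) [Fintype V] [DecidableEq V] (G : SimpleGraph V) (X : Finset V)
  (P : V → ℝ) (a : ℕ → ℕ) (K q e i : ℕ) (c : ℕ → V) (D : ℕ → Finset V),
  Par a K q e (Fintype.card V) → ¬ Con G (K + 1) a → Cov G X P → (Xᶜ).card ≤ 6 * (K + 1) →
  i ≤ K → Chain G a (e + K) i c D →
  (i < K → ∀ (c' : ℕ → V) (D' : ℕ → Finset V), ¬ Chain G a (e + K) (i + 1) c' D') →
  (∀ t < i, c t ∉ X) →
  ((univ.filter (fun v => (symmDiff (dg G v) (dg G (c 0))).card ≤ LL K q)).card ≤ K + 1 →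
    ∀ v ∈ X, LL K q < (symmDiff (dg G v) (dg G (c 0))).card) →
  ((univ.filter (fun v => (symmDiff (dg G v) (dg G (c 0))ᶜ).card ≤ LL K q)).card ≤ K + 1 →
    ∀ v ∈ X, LL K q < (symmDiff (dg G v) (dg G (c 0))ᶜ).card) →
  ∃ J1 J2, Typ G a K (LL K q) (LL K q) (dg G (c 0)) J1 J2

/-! ### classification and blocks -/

/-- TYC. The type of the complement. Proof: `dg Gᶜ v = (dg G v)ᶜ \ {v}`, so
`symmDiff (dg Gᶜ v) X0 ⊆ symmDiff (dg G v) X0ᶜ ∪ {v}` and vice versa. -/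
def T_TYC : Prop := ∀ (V : Type) [Fintype V] [DecidableEq V] (G : SimpleGraph V) (a : ℕ → ℕ)
  (K L : ℕ) (X0 : Finset V) (J1 J2 : Finset ℕ), Typ G a K L L X0 J1 J2 →
  Typ Gᶜ a K L (L + 1) X0 J1 J2

/-- CL1 (from EMB). Proof: `T1, T2` = the two filter sets of Typ, disjoint as `N > 2 M`. Choose
distinct `c t ∈ T1 \ {u}` for `t ∈ J1`, `c t ∈ T2 \ {u}` for `t ∈ J2` (each set has at least
`K + 1` elements), `c K = u`. By EMB there is a nonempty `J ⊆ range (K + 1)` with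
`|nc J \ C| < s(J)`, `|C| = K + 1`. Let `A = J ∩ J1`, `B = J ∩ J2`.
If `A ≠ ∅` then `|nc A| ≥ |X0| - M ≥ s(J1) + a K - 2 L - M`, similarly for `B`; if both are
nonempty then `|nc (A ∪ B)| ≥ N - 2 M ≥ S + a K - 2 M`, contradiction (`s(J) ≤ S`).
If `K ∉ J`: contradiction with `|nc J \ C| < s(J)` as `a K` is large. So `K ∈ J`.
`A = B = ∅`: `|dg u| ≤ a K + K` (`u ∉ dg u`). `A ≠ ∅ = B`, `t ∈ A`:
`|dg u ∪ dg (c t)| ≤ s(J1) + a K + K`, so `|dg u \ dg (c t)| ≤ 2 L + M + K` and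
`|dg u \ X0| ≤ 2 L + 2 M + K ≤ 6 L`. `A = ∅ ≠ B`: the same with `X0ᶜ`. -/
def T_CL1 : Prop := ∀ (V : Type) [Fintype V] [DecidableEq V] (G : SimpleGraph V) (a : ℕ → ℕ)
  (K q e M : ℕ) (X0 : Finset V) (J1 J2 : Finset ℕ), Par a K q e (Fintype.card V) →
  ¬ Con G (K + 1) a → M ≤ LL K q + 1 → Typ G a K (LL K q) M X0 J1 J2 →
  ∀ u, (dg G u).card ≤ a K + K ∨ (dg G u \ X0).card ≤ 6 * LL K q ∨
    (dg G u ∩ X0).card ≤ 6 * LL K q

/-- CL2. The nine cases. Proof: write `A = dg G u`, `B = dg Gᶜ u = Aᶜ \ {u}`, `s = 6 L`.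
(1,1): `N ≤ 2 (m + K) + 1 < 3 m`. (2,2): `|X0ᶜ| ≤ 2 s + 1`; (3,3): `|X0| ≤ 2 s + 1`:
contradictions. (2,3): `|A \ X0| ≤ s`, `|X0 \ A| ≤ |B ∩ X0| + 1 ≤ s + 1`: first conclusion. (3,2):
second conclusion in the same way. (1,2): `|X0ᶜ \ A| ≤ |B \ X0| + 1 ≤ s + 1`, so
`|A ∩ X0ᶜ| ≥ m - 2 L - s - 1` and `|A ∩ X0| ≤ K + 2 L + s + 1`: second conclusion. (1,3): first
conclusion. (2,1): `|B ∩ X0ᶜ| ≥ m - 2 L - s - 1`, so `|B ∩ X0| ≤ K + 2 L + s + 1`: first
conclusion; (3,1): second conclusion. Always at most `2 s + 2 L + K + 3 ≤ 20 L`. -/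
def T_CL2 : Prop := ∀ (V : Type) [Fintype V] [DecidableEq V] (G : SimpleGraph V)
  (K L m : ℕ) (X0 : Finset V), 1 ≤ L → K ≤ L → 40 * L ≤ m → m ≤ X0.card + 2 * L →
  m ≤ (X0ᶜ).card + 2 * L → 3 * m ≤ Fintype.card V → ∀ u,
  ((dg G u).card ≤ m + K ∨ (dg G u \ X0).card ≤ 6 * L ∨ (dg G u ∩ X0).card ≤ 6 * L) →
  ((dg Gᶜ u).card ≤ m + K ∨ (dg Gᶜ u \ X0).card ≤ 6 * L ∨ (dg Gᶜ u ∩ X0).card ≤ 6 * L) →
  (symmDiff (dg G u) X0).card ≤ 20 * L ∨ (symmDiff (dg G u) X0ᶜ).card ≤ 20 * L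

/-- BLK. The blocks. Proof: `X = {u | |symmDiff (dg u) X0| ≤ L}`; for `u ∉ X` the second
alternative holds. For two of the cells `P1, P2` below every pair `(u, w) ∈ P1 × P2` is an error
of `u` (`w ∈ symmDiff (dg u) X0` or `w ∈ symmDiff (dg u) X0ᶜ`) or of `w`, so
`|P1| |P2| ≤ L (|P1| + |P2|)` and one of the two cells has at most `2 L` elements:
`(X ∩ X0, X \ X0)`, `(X0 \ X, univ \ (X ∪ X0))`, `(X ∩ X0, X0 \ X)`,
`(X \ X0, univ \ (X ∪ X0))`.
If `|X ∩ X0| > 2 L` then `|symmDiff X X0| ≤ 4 L` and `Two G X (5 L)`. Otherwise `|X0 \ X| > 2 L`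
(as `|X0| > 4 L`), so `|symmDiff X X0ᶜ| ≤ 4 L` and `Two Gᶜ X (5 L + 1)` (the neighbours in `Gᶜ`
are the complement of `dg G u` without `u`). -/
def T_BLK : Prop := ∀ (V : Type) [Fintype V] [DecidableEq V] (G : SimpleGraph V)
  (b L : ℕ) (X0 : Finset V), 4 * L < b → b ≤ X0.card → b ≤ (X0ᶜ).card →
  (∀ u, (symmDiff (dg G u) X0).card ≤ L ∨ (symmDiff (dg G u) X0ᶜ).card ≤ L) →
  ∃ X : Finset V, (Two G X (5 * L + 1) ∨ Two Gᶜ X (5 * L + 1)) ∧ b ≤ X.card + 4 * L ∧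
    b ≤ (Xᶜ).card + 4 * L

/-- STC (from MMX, MCH, COL, TYC, CL1, CL2, BLK). The structure. Proof: take maximal chains
`(i, c, D)` of `G` and `(i', c', D')` of `Gᶜ` (MCH with `f = e + K`). Let `R` consist of the
centres `c t` (`t < i`), `c' t` (`t < i'`) and of those of the four filter sets (in COL, for `G`
and `c`, and for `Gᶜ` and `c'`) which have at most `K + 1` elements: `|R| ≤ 6 (K + 1) < N`.
`X = Rᶜ`. MMX gives `Cov G X P` or `Cov Gᶜ X P`, COL the type of this colour, say `G'`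
(`G' = G` or `G' = Gᶜ`), TYC the type of `G'ᶜ`, CL1 (for `G'` with `M = L` and for `G'ᶜ` with
`M = L + 1`) and CL2 (`m = a K`, `3 a K ≤ N`) the hypothesis of BLK with `20 L` and
`b = a K - 2 L`; `5 (20 L) + 1 ≤ el`. -/
def T_STC : Prop := ∀ (V : Type) [Fintype V] [DecidableEq V] (G : SimpleGraph V)
  (a : ℕ → ℕ) (K q e : ℕ), Par a K q e (Fintype.card V) → ¬ Con G (K + 1) a →
  ¬ Con Gᶜ (K + 1) a → ∃ X : Finset V, (Two G X (el K q) ∨ Two Gᶜ X (el K q)) ∧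
    a K ≤ X.card + el K q ∧ a K ≤ (Xᶜ).card + el K q

/-! ### the exact embeddings -/

/-- CEN. Centres which together dominate `Z`. Proof: `w0 ∈ W` arbitrary; `Bad` = the union over
`z ∈ (Z \ dg w0) \ {w0}` of `W \ dg z` (at most `l + 1` elements each), so `|Bad| ≤ l (l + 1)`;
`w1 ∈ W \ Bad`, `w1 ≠ w0`; the other centres arbitrary distinct elements of `W`. A point `z ∈ Z`
is adjacent to `w0`, or equal to `w0`, or `w1 ∉ W \ dg z`, so `z` is adjacent to `w1`. -/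
def T_CEN : Prop := ∀ (V : Type) [Fintype V] [DecidableEq V] (G : SimpleGraph V)
  (W Z : Finset V) (l : ℕ) (A : Finset ℕ), 2 ≤ A.card → l * (l + 1) + A.card < W.card →
  (∀ w ∈ W, ((Z \ dg G w) \ {w}).card ≤ l) → (∀ z ∈ Z, ((W \ dg G z) \ {z}).card ≤ l) →
  ∃ c : ℕ → V, Set.InjOn c A ∧ (∀ t ∈ A, c t ∈ W) ∧ ∀ z ∈ Z, z ∈ nc G c A ∨ z ∈ A.image c

/-- FIT (from EMB, CEN). The exact embedding. Centres of the stars `t ∈ A` in `W`, leaves in `Z`,
the same for `A', W', Z'`. Proof: centres by CEN if `|A| ≥ 2`, an arbitrary point of `W` if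
`|A| = 1`; the same for `A'`. `C` = all centres, `|C ∩ Z| ≤ n`, `|C ∩ Z'| ≤ n'`. For nonempty
`B ⊆ A` we have `|(nc B ∩ Z) \ C| ≥ s(B)`: if `B ≠ A` then it is at least
`|Z| - n - l ≥ s(A) - l ≥ s(B) + m - l` (for `t ∈ B`, `(Z \ C) \ dg (c t) ⊆ (Z \ dg (c t)) \
{c t}`); if `B = A`, `|A| = 1`: at least `|Z| - n - l ≥ s(A)`; if `B = A`, `|A| ≥ 2` then
`Z \ C ⊆ nc A`. The same for `A'`, and `nc J \ C` contains the disjoint sets
`(nc (J ∩ A) ∩ Z) \ C` and `(nc (J ∩ A') ∩ Z') \ C`: Hall's condition of EMB. -/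
def T_FIT : Prop := ∀ (V : Type) [Fintype V] [DecidableEq V] (G : SimpleGraph V)
  (k l m : ℕ) (a : ℕ → ℕ) (A A' : Finset ℕ) (W W' Z Z' : Finset V) (n n' : ℕ),
  A ∪ A' = range k → Disjoint A A' → Disjoint W W' → Disjoint Z Z' → (∀ t < k, m ≤ a t) →
  l ≤ m → l * (l + 1) + k < W.card → l * (l + 1) + k < W'.card →
  (∀ w ∈ W, ((Z \ dg G w) \ {w}).card ≤ l) → (∀ z ∈ Z, ((W \ dg G z) \ {z}).card ≤ l) →
  (∀ w ∈ W', ((Z' \ dg G w) \ {w}).card ≤ l) → (∀ z ∈ Z', ((W' \ dg G z) \ {z}).card ≤ l) →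
  (∀ C C' : Finset V, C ⊆ W → C.card = A.card → C' ⊆ W' → C'.card = A'.card →
    ((C ∪ C') ∩ Z).card ≤ n ∧ ((C ∪ C') ∩ Z').card ≤ n') →
  ∑ t ∈ A, a t + n ≤ Z.card → ∑ t ∈ A', a t + n' ≤ Z'.card →
  (A.card = 1 → ∑ t ∈ A, a t + n + l ≤ Z.card) →
  (A'.card = 1 → ∑ t ∈ A', a t + n' + l ≤ Z'.card) → Con G k a

/-- FTB (from FIT). The same inside the blocks. Proof: FIT with `W = Z = X`, `W' = Z' = Xᶜ`,
`n = |A|`, `n' = |A'|`; `(X \ dg w) \ {w} ⊆ symmDiff (dg w) X`. -/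
def T_FTB : Prop := ∀ (V : Type) [Fintype V] [DecidableEq V] (G : SimpleGraph V)
  (k l m : ℕ) (a : ℕ → ℕ) (A A' : Finset ℕ) (X : Finset V),
  Two G X l → A ∪ A' = range k → Disjoint A A' → (∀ t < k, m ≤ a t) → l ≤ m →
  l * (l + 1) + k < X.card → l * (l + 1) + k < (Xᶜ).card →
  ∑ t ∈ A, a t + A.card ≤ X.card → ∑ t ∈ A', a t + A'.card ≤ (Xᶜ).card →
  (A.card = 1 → ∑ t ∈ A, a t + A.card + l ≤ X.card) →
  (A'.card = 1 → ∑ t ∈ A', a t + A'.card + l ≤ (Xᶜ).card) → Con G k a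

/-- FTR (from FIT). The same between the blocks. Proof: FIT for `Gᶜ` with `W = Xᶜ`, `Z = X`,
`W' = X`, `Z' = Xᶜ`, `n = |A'|`, `n' = |A|`; for `w ∉ X` the set `(X \ dg Gᶜ w) \ {w}` is
contained in `dg G w ∩ X ⊆ symmDiff (dg G w) Xᶜ`, similarly for `w ∈ X`. -/
def T_FTR : Prop := ∀ (V : Type) [Fintype V] [DecidableEq V] (G : SimpleGraph V)
  (k l m : ℕ) (a : ℕ → ℕ) (A A' : Finset ℕ) (X : Finset V),
  Two G X l → A ∪ A' = range k → Disjoint A A' → (∀ t < k, m ≤ a t) → l ≤ m →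
  l * (l + 1) + k < X.card → l * (l + 1) + k < (Xᶜ).card →
  ∑ t ∈ A, a t + A'.card ≤ X.card → ∑ t ∈ A', a t + A.card ≤ (Xᶜ).card →
  (A.card = 1 → ∑ t ∈ A, a t + A'.card + l ≤ X.card) →
  (A'.card = 1 → ∑ t ∈ A', a t + A.card + l ≤ (Xᶜ).card) → Con Gᶜ k a

/-- EX2 (from FTB, FTR). Two large blocks. Proof: let `A` be as in `fits`, `A' = range (K + 1) \ A`,
`l = el K q`, `m = a K`. First the case when `l`-slack is missing at a single star. If
`A = {t}` and `|X| < a t + K + 1 + l` then `|Xᶜ| = N - |X| ≥ s(range K) + 2 a K - a t - K - 1 - l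
≥ s(range K) + 4 e - K - 1 - l ≥ s(range K) + K + l`, and FTB applies to `{K}` and `range K`
(`a K + 4 l ≤ |X|`). If `A' = {t}` and `|Xᶜ| < a t + K + 1 + l`: the same with `X` and `Xᶜ`
exchanged (`Two.symm`). Otherwise FTB or FTR applies to `A, A'` (the additional hypotheses for
`|A| = 1`, `|A'| = 1` hold as `|A|, |A'| ≤ K + 1`). -/
def T_EX2 : Prop := ∀ (V : Type) [Fintype V] [DecidableEq V] (G : SimpleGraph V)
  (a : ℕ → ℕ) (K q e : ℕ) (X : Finset V), Par a K q e (Fintype.card V) → Two G X (el K q) →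
  a K + 4 * el K q ≤ X.card → a K + 4 * el K q ≤ (Xᶜ).card →
  fits a (K + 1) X.card (Xᶜ).card → Con G (K + 1) a ∨ Con Gᶜ (K + 1) a

/-- E1B (from EMB). A vertex of large degree in the small block. Proof: `c K = v`, the other
centres `c t`, `t < K`, distinct elements of `Xᶜ \ dg v` (`|dg v ∩ Xᶜ| ≤ l`). Hall's condition
(`l = el K q`, `m = a K`): `J = {K}`: `dg v` contains no centre, `|dg v| ≥ a K`. `K ∉ J`:
`|nc J \ C| ≥ |Xᶜ| - l - (K + 1) ≥ S - 6 l - K - 1 ≥ s(J)` as `s(J) ≤ S - a K`. `K ∈ J ≠ {K}`: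
`|nc J \ C| ≥ |dg v ∩ X| + |Xᶜ| - l - (K + 1) ≥ (a K - l) + (S - 5 l) - l - (K + 1) ≥ S ≥ s(J)`
(the centres other than `v ∉ dg v` are in `Xᶜ`). -/
def T_E1B : Prop := ∀ (V : Type) [Fintype V] [DecidableEq V] (G : SimpleGraph V)
  (a : ℕ → ℕ) (K q e : ℕ) (X : Finset V) (v : V), Par a K q e (Fintype.card V) →
  Two G X (el K q) → v ∈ X → a K ≤ (dg G v).card →
  ∑ t ∈ range (K + 1), a t ≤ (Xᶜ).card + 5 * el K q → Con G (K + 1) a

/-- E1R (from EMB). Small degrees in the small block. Proof: `c 0 = v0 ∈ X` arbitrary,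
`B0 = dg Gᶜ v0 ∩ X` (at most `l` elements, and at least `|X| - a K` elements because
`|X \ {v0}| = |X| - 1` and `|dg G v0| ≤ a K - 1`). `Bad` = the union over `z ∈ dg G v0 ∩ Xᶜ` (at
most `l` elements) of `dg G z ∩ X` (at most `l` elements each). `c 1 ∈ X \ (B0 ∪ Bad ∪ {v0})`,
the other centres distinct elements of `X \ B0`. Hall's condition for `Gᶜ`: for `J ≠ range
(K + 1)`: `|nc J \ C| ≥ N - 1 - (a K - 1) - (K + 1) ≥ S - K - 1 ≥ s(J)`; for `J = range (K + 1)`: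
`nc J \ C ⊇ Xᶜ ∪ B0` (a point of `Xᶜ` not adjacent to `v0` in `Gᶜ` is adjacent to `c 1`), at
least `(N - |X|) + (|X| - a K) ≥ S` elements. -/
def T_E1R : Prop := ∀ (V : Type) [Fintype V] [DecidableEq V] (G : SimpleGraph V)
  (a : ℕ → ℕ) (K q e : ℕ) (X : Finset V), Par a K q e (Fintype.card V) →
  Two G X (el K q) → (∀ v ∈ X, (dg G v).card < a K) → a K ≤ X.card + el K q →
  Con Gᶜ (K + 1) a

/-- EXA (from EX2, E1B, E1R). Proof: if `|X| < a K + 4 l` then `|Xᶜ| = N - |X| ≥ S - 4 l`: E1B if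
some `v ∈ X` has degree at least `a K`, otherwise E1R. If `|Xᶜ| < a K + 4 l`: the same for `Xᶜ`
(`Two.symm`). Otherwise EX2. -/
def T_EXA : Prop := ∀ (V : Type) [Fintype V] [DecidableEq V] (G : SimpleGraph V)
  (a : ℕ → ℕ) (K q e : ℕ) (X : Finset V), Par a K q e (Fintype.card V) → Two G X (el K q) →
  a K ≤ X.card + el K q → a K ≤ (Xᶜ).card + el K q →
  fits a (K + 1) X.card (Xᶜ).card → Con G (K + 1) a ∨ Con Gᶜ (K + 1) a

/-! ### the two block colourings and the number `b(F)` -/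

/-- LOW. The two block colouring. Proof: on `Fin (x + y)` let `G` be the graph with
`u ~ v` iff `u ≠ v` and (`u < x` iff `v < x`). A copy of `F` in `G`: `A` = the stars with centre
`< x`; all vertices of these stars are `< x`, those of the other stars are `≥ x`. A copy in `Gᶜ`:
`A` = the stars with centre `≥ x`: their leaves and the centres of the other stars are `< x`. The
vertices of the copy are distinct, so the two inequalities of `Fits` hold. -/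
def T_LOW : Prop := ∀ (k : ℕ) (n : Fin k → ℕ) (x y : ℕ), ¬ Fits n x y →
  ∃ G : SimpleGraph (Fin (x + y)), ¬ (starForest n).IsContained G ∧
    ¬ (starForest n).IsContained Gᶜ

/-- CNV. Proof: subsets of `range k` are the images of the sets of `Fin k` under `Fin.val`. -/
def T_CNV : Prop := ∀ (k : ℕ) (a : ℕ → ℕ) (x y : ℕ),
  fits a k x y ↔ Fits (fun i : Fin k => a i) x y

/-- LOB. Proof: `S = s(range (K + 1)) ≥ 1`. Let `A` be as in `fits` for `x = a K`, `y = S - 1`.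
First alternative: `A` is empty (otherwise `s(A) + |A| ≥ a K + 1`), and then `S + K + 1 ≤ S - 1`.
Second alternative: if `A = ∅` then `S ≤ S - 1`; otherwise `s(A) ≥ a K`, so `range (K + 1) \ A` is
empty and `s(A) = S ≥ 2 a K > a K`. -/
def T_LOB : Prop := ∀ (K : ℕ) (a : ℕ → ℕ), 1 ≤ K → 1 ≤ a K → (∀ t ≤ K, a K ≤ a t) →
  ¬ fits a (K + 1) (a K) (∑ t ∈ range (K + 1), a t - 1)

/-- UPB. Proof: by induction on `i ≤ K` there is `A ⊆ range i` with `s(A) + |A| ≤ x` and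
`s(range i \ A) + |range i \ A| ≤ y`: the total room left is
`x + y - s(range i) - i ≥ a i + 2 a K > 2 a i`, so one of the rooms is at least `a i + 1`. For
`i = K`: the rooms `r1, r2` have sum `2 a K - 1`. If one is at least `a K + 1` the last star fits
there (first alternative). Otherwise `{r1, r2} = {a K, a K - 1}`; with `B = range K \ A`: the
second alternative holds for `A ∪ {K}` if `a K + |B| ≤ r1 + |A|` and for `A` if
`a K + |A| ≤ r2 + |B|`; one of them holds. -/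
def T_UPB : Prop := ∀ (K : ℕ) (a : ℕ → ℕ), 1 ≤ K → K + 2 ≤ a K → (∀ t ≤ K, a K ≤ a t) →
  (∀ t ≤ K, a t < 2 * a K) → ∀ x y : ℕ,
  x + y = ∑ t ∈ range (K + 1), a t + a K + K - 1 → fits a (K + 1) x y

/-- EQS. Equal sizes. Proof: `k = K + 1`, `p = (k + 1) / 2`, so `k ≤ 2 p ≤ k + 1`,
`x = p n + k - p - 1`, `y = (k + 1 - p) n + p - 2`. Let `A` be as in `fits`, `j = |A|`. First
alternative: `j (n + 1) ≤ x` gives `j ≤ p - 1` (`j = p` would need `2 p ≤ k - 1`; `j > p` needs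
`n ≤ k`), then `(k - j) (n + 1) ≤ y` with `k - j ≥ k + 1 - p` needs `k + 1 - p ≤ p - 2`, false.
Second alternative: `j n + k - j ≤ x` gives `j ≤ p - 1` (`j = p` needs `k - p ≤ k - p - 1`), then
`(k - j) n + j ≤ y` with `j = p - 1` needs `p - 1 ≤ p - 2`, with smaller `j` it needs
`n ≤ p`. -/
def T_EQS : Prop := ∀ K n : ℕ, 1 ≤ K → 2 * K + 4 ≤ n → ∃ x y : ℕ,
  x + y = (K + 2) * n + K - 2 ∧ ¬ fits (fun _ => n) (K + 1) x y

/-- UPP (from STC, EXA). The upper bound. Proof: suppose neither; STC gives `X` with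
`Two G X (el K q)` or `Two Gᶜ X (el K q)`; apply EXA to `G` or to `Gᶜ` (`compl_compl`);
`|X| + |Xᶜ| = N`. -/
def T_UPP : Prop := ∀ (a : ℕ → ℕ) (K q e N : ℕ), Par a K q e N →
  (∀ x y : ℕ, x + y = N → fits a (K + 1) x y) → ∀ G : SimpleGraph (Fin N),
  Con G (K + 1) a ∨ Con Gᶜ (K + 1) a

/-- BVL (from UPP, LOW, CNV, LOB, UPB). The Ramsey number. Here `k = K + 1`, `m = a K`. Proof: let
`B = {N | ∀ x y, x + y = N → Fits n x y}` (`n i = a i`) and `b = sInf B`. `B` is closed upwards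
(`Fits n x y` implies `Fits n x' y'` for `x ≤ x'`, `y ≤ y'`), contains `S + m + K - 1` (UPB) and
not `S + m - 1` (LOB), so `S + m ≤ b ≤ S + m + K - 1`. If `N` is in the set of the definition of
`ramsey` then `N ≥ b`: otherwise some `x + y = N` has `¬ Fits n x y`, and LOW gives a colouring.
By UPP (`b ∈ B`) `b` is in this set. -/
def T_BVL : Prop := ∀ (a : ℕ → ℕ) (K q e : ℕ),
  (∀ N : ℕ, ∑ t ∈ range (K + 1), a t + a K ≤ N →
    N ≤ ∑ t ∈ range (K + 1), a t + a K + K - 1 → Par a K q e N) → 1 ≤ K → K + 2 ≤ a K →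
  (∀ t ≤ K, a K ≤ a t) → (∀ t ≤ K, a t < 2 * a K) →
  ramsey (starForest (fun i : Fin (K + 1) => a i)) (starForest (fun i : Fin (K + 1) => a i)) =
    sInf {N : ℕ | ∀ x y : ℕ, x + y = N → Fits (fun i : Fin (K + 1) => a i) x y} ∧
  ∑ t ∈ range (K + 1), a t + a K ≤
    ramsey (starForest (fun i : Fin (K + 1) => a i)) (starForest (fun i : Fin (K + 1) => a i)) ∧
  ramsey (starForest (fun i : Fin (K + 1) => a i)) (starForest (fun i : Fin (K + 1) => a i)) ≤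
    ∑ t ∈ range (K + 1), a t + a K + K - 1

end Pool.Agent.SFB
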